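import Pool.Agent.H48.Witt.Defs

/-!
# More definitions for MP_f251f6_al (helper48): filtration, adjoint action, symmetrisation
-/

set_option autoImplicit false

namespace Pool.Agent.H48.Witt

open Finset

section

variable {k : Type*} [Field k] {A : Type*} [Ring A] [Algebra k A]

/-- span of the products of fewer than `l` of the `e n`. -/
def filLT (k : Type*) [Field k] {A : Type*} [Ring A] [Algebra k A] (e : ℤ → A) (l : ℕ) :
    Submodule k A :=
  Submodule.span k {x | ∃ w : List ℤ, w.length < l ∧ x = (w.map e).prod}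

/-- A two-sided ideal, as a subspace. -/
structure IsTS (N : Submodule k A) : Prop where
  left : ∀ a x, x ∈ N → a * x ∈ N
  right : ∀ a x, x ∈ N → x * a ∈ N

/-- The vector field `X_n = ∑ t_i^n (t_i ∂/∂t_i)` on Laurent polynomials. -/
noncomputable def Xop (k : Type*) [Field k] {ι : Type*} [Fintype ι] [DecidableEq ι] (n : ℤ) :
    LP k (ι → ℤ) →ₗ[k] LP k (ι → ℤ) :=
  lin (fun μ => ∑ i, ((μ i : ℤ) : k) • mon (μ + Pi.single i n))

/-- The adjoint action of `e n` on the tensor power of the adjoint representation. -/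
noncomputable def Dop (k : Type*) [Field k] {ι : Type*} [Fintype ι] [DecidableEq ι] (n : ℤ) :
    LP k (ι → ℤ) →ₗ[k] LP k (ι → ℤ) :=
  lin (fun μ => ∑ i, ((μ i - n : ℤ) : k) • mon (μ + Pi.single i n))

/-- Permutation of the variables: `t^μ ↦ t^(μ ∘ σ)`. -/
noncomputable def permL (k : Type*) [Field k] {ι : Type*} (σ : Equiv.Perm ι) :
    LP k (ι → ℤ) →ₗ[k] LP k (ι → ℤ) :=
  lin (fun μ => mon (μ ∘ σ))

/-- Symmetrisation (sum over all permutations). -/
noncomputable def symL (k : Type*) [Field k] {ι : Type*} [Fintype ι] [DecidableEq ι] :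
    LP k (ι → ℤ) →ₗ[k] LP k (ι → ℤ) :=
  ∑ σ : Equiv.Perm ι, permL k σ

end

end Pool.Agent.H48.Witt
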