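import Pool.Agent.H48.Witt.Kill
import Pool.Agent.H48.Witt.Defs2

/-!
# The adjoint action on smeared products
-/

set_option autoImplicit false

namespace Pool.Agent.H48.Witt

open Finset

variable {k : Type*} [Field k] {A : Type*} [Ring A] [Algebra k A]

lemma ad_fprod {ι : Type*} [DecidableEq ι] (e : ℤ → A) (he : WittRel k e) (n : ℤ) (ℓ : List ι)
    (hℓ : ℓ.Nodup) (μ : ι → ℤ) :
    e n * fprod e ℓ μ - fprod e ℓ μ * e n =
      (ℓ.map (fun i => ((μ i - n : ℤ) : k) • fprod e ℓ (μ + Pi.single i n))).sum := by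
  induction ℓ with
  | nil => simp
  | cons a ℓ ih =>
    have ha : a ∉ ℓ := (List.nodup_cons.mp hℓ).1
    have ih' := ih (List.nodup_cons.mp hℓ).2
    have h1 : e n * fprod e (a :: ℓ) μ - fprod e (a :: ℓ) μ * e n =
        (e n * e (μ a) - e (μ a) * e n) * fprod e ℓ μ +
        e (μ a) * (e n * fprod e ℓ μ - fprod e ℓ μ * e n) := by
      rw [fprod_cons]; noncomm_ring
    rw [h1, he, ih', List.map_cons, List.sum_cons]
    congr 1
    · rw [smul_mul_assoc]
      congr 1
      rw [fprod_cons]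
      congr 1
      · simp [add_comm]
      · apply fprod_congr
        intro i hi
        have : i ≠ a := fun h => ha (h ▸ hi)
        simp [this]
    · rw [← List.sum_map_mul_left]
      refine congrArg List.sum (List.map_congr_left ?_)
      intro i hi
      have : a ≠ i := fun h => ha (h ▸ hi)
      rw [fprod_cons, mul_smul_comm]
      simp [this]

/-- the adjoint action on smeared products -/
theorem ad_EE (e : ℤ → A) (he : WittRel k e) (l : ℕ) (n : ℤ) (F : LP k (Fin l → ℤ)) :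
    e n * EE e (List.finRange l) F - EE e (List.finRange l) F * e n =
      EE e (List.finRange l) (Dop k n F) := by
  induction F using LP_induction with
  | h0 => simp
  | hadd x y hx hy =>
    rw [map_add, map_add, map_add, ← hx, ← hy]; noncomm_ring
  | hmon μ c =>
    rw [map_smul, map_smul, map_smul, mul_smul_comm, smul_mul_assoc, ← smul_sub]
    congr 1
    rw [EE, lin_mon, ad_fprod e he n _ (List.nodup_finRange l), Dop, lin_mon, map_sum,
      Fin.sum_univ_def]
    refine congrArg List.sum (List.map_congr_left ?_)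
    intro i _
    rw [map_smul, lin_mon]

section

variable {ι : Type*} [Fintype ι] [DecidableEq ι]

lemma Xop_mon (n : ℤ) (μ : ι → ℤ) :
    Xop k n (mon μ) = ∑ i, ((μ i : ℤ) : k) • mon (μ + Pi.single i n) := by
  rw [Xop, lin_mon]

lemma Dop_mon (n : ℤ) (μ : ι → ℤ) :
    Dop k n (mon μ) = ∑ i, ((μ i - n : ℤ) : k) • mon (μ + Pi.single i n) := by
  rw [Dop, lin_mon]

lemma Dop_eq (n : ℤ) (F : LP k (ι → ℤ)) :
    Dop k n F = Xop k n F - (n : k) • ((∑ i : ι, mon (Pi.single i n)) * F) := by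
  induction F using LP_induction with
  | h0 => simp
  | hadd x y hx hy => rw [map_add, map_add, hx, hy, mul_add, smul_add]; abel
  | hmon μ c =>
    rw [map_smul, map_smul, mul_smul_comm, smul_comm (n : k) c, ← smul_sub]
    congr 1
    rw [Dop_mon, Xop_mon, Finset.sum_mul, Finset.smul_sum, ← Finset.sum_sub_distrib]
    refine Finset.sum_congr rfl fun i _ => ?_
    rw [mon_mul_mon, add_comm (Pi.single i n) μ, ← sub_smul]
    push_cast
    rfl

lemma Xop_mul (n : ℤ) (F G : LP k (ι → ℤ)) :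
    Xop k n (F * G) = Xop k n F * G + F * Xop k n G := by
  induction F using LP_induction with
  | h0 => simp
  | hadd x y hx hy => rw [add_mul, map_add, map_add, hx, hy]; ring
  | hmon μ c =>
    induction G using LP_induction with
    | h0 => simp
    | hadd x y hx hy => rw [mul_add, map_add, map_add, hx, hy]; ring
    | hmon ν d =>
      rw [smul_mul_smul_comm, map_smul, map_smul, map_smul, smul_mul_smul_comm,
        smul_mul_smul_comm, ← smul_add]
      congr 1
      rw [mon_mul_mon, Xop_mon, Xop_mon, Xop_mon, Finset.sum_mul, Finset.mul_sum,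
        ← Finset.sum_add_distrib]
      refine Finset.sum_congr rfl fun i _ => ?_
      rw [smul_mul_assoc, mul_smul_comm, mon_mul_mon, mon_mul_mon, Pi.add_apply]
      have e1 : μ + Pi.single i n + ν = μ + ν + Pi.single i n := by abel
      have e2 : μ + (ν + Pi.single i n) = μ + ν + Pi.single i n := by abel
      rw [e1, e2, ← add_smul]
      push_cast
      rfl

lemma Xop_one (n : ℤ) : Xop k n (1 : LP k (ι → ℤ)) = 0 := by
  rw [← mon_zero, Xop_mon]
  simp

lemma Xop_tt (n : ℤ) (a : ι) : Xop k n (tt k a) = mon (Pi.single a (1 + n)) := by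
  rw [tt, Xop_mon, Finset.sum_eq_single a]
  · rw [← Pi.single_add]; simp
  · intro b _ hb
    simp [hb]
  · simp

omit [Fintype ι] in
lemma tt_pow_eq (a : ι) (n : ℕ) : tt k a ^ n = mon (Pi.single a (n : ℤ)) := by
  induction n with
  | zero => simp
  | succ n ih =>
    rw [pow_succ, ih, tt, mon_mul_mon, ← Pi.single_add]
    push_cast
    rfl

omit [Fintype ι] in
lemma dd_dvd_single (a b : ι) (m : ℤ) :
    dd k a b ∣ mon (Pi.single a m) - mon (Pi.single b m) := by
  have hnat : ∀ n : ℕ, dd k a b ∣ mon (Pi.single a (n : ℤ)) - mon (Pi.single b (n : ℤ)) := by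
    intro n
    rw [← tt_pow_eq, ← tt_pow_eq]
    exact sub_dvd_pow_sub_pow _ _ n
  rcases le_total 0 m with h | h
  · obtain ⟨n, rfl⟩ := Int.eq_ofNat_of_zero_le h
    exact hnat n
  · obtain ⟨n, hn⟩ := Int.eq_ofNat_of_zero_le (neg_nonneg.mpr h)
    have hm : m = -(n : ℤ) := by omega
    subst hm
    have : (mon (Pi.single a (-(n : ℤ))) - mon (Pi.single b (-(n : ℤ))) : LP k (ι → ℤ)) =
        -(mon (Pi.single a (-(n : ℤ)) + Pi.single b (-(n : ℤ))) *
          (mon (Pi.single a (n : ℤ)) - mon (Pi.single b (n : ℤ)))) := by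
      rw [mul_sub, mon_mul_mon, mon_mul_mon]
      have e1 : (Pi.single a (-(n : ℤ)) + Pi.single b (-(n : ℤ)) + Pi.single a (n : ℤ) : ι → ℤ) =
          Pi.single b (-(n : ℤ)) := by
        rw [add_right_comm, ← Pi.single_add]; simp
      have e2 : (Pi.single a (-(n : ℤ)) + Pi.single b (-(n : ℤ)) + Pi.single b (n : ℤ) : ι → ℤ) =
          Pi.single a (-(n : ℤ)) := by
        rw [add_assoc, ← Pi.single_add]; simp
      rw [e1, e2]; ring
    rw [this]
    exact (dvd_mul_of_dvd_right (hnat n) _).neg_right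

lemma dd_dvd_Xop (n : ℤ) (a b : ι) : dd k a b ∣ Xop k n (dd k a b) := by
  rw [dd, map_sub, Xop_tt, Xop_tt]
  exact dd_dvd_single a b _

lemma dvd_Xop_mul {n : ℤ} {F G : LP k (ι → ℤ)} (hF : F ∣ Xop k n F) (hG : G ∣ Xop k n G) :
    F * G ∣ Xop k n (F * G) := by
  rw [Xop_mul]
  exact dvd_add (mul_dvd_mul_right hF G) (mul_dvd_mul_left F hG)

lemma dvd_Xop_pow {n : ℤ} {F : LP k (ι → ℤ)} (hF : F ∣ Xop k n F) (K : ℕ) :
    F ^ K ∣ Xop k n (F ^ K) := by
  induction K with
  | zero => rw [pow_zero, Xop_one]; exact dvd_zero _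
  | succ K ih => rw [pow_succ]; exact dvd_Xop_mul ih hF

lemma dvd_Xop_list {n : ℤ} (L : List (LP k (ι → ℤ))) (h : ∀ F ∈ L, F ∣ Xop k n F) :
    L.prod ∣ Xop k n L.prod := by
  induction L with
  | nil => rw [List.prod_nil, Xop_one]; exact dvd_zero _
  | cons a L ih =>
    rw [List.prod_cons]
    exact dvd_Xop_mul (h a List.mem_cons_self) (ih (fun F hF => h F (List.mem_cons_of_mem _ hF)))

lemma vdl_dvd_Xop (n : ℤ) (ℓ : List ι) : vdl k ℓ ∣ Xop k n (vdl k ℓ) := by
  induction ℓ with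
  | nil => rw [vdl, Xop_one]; exact dvd_zero _
  | cons a ℓ ih =>
    rw [vdl]
    refine dvd_Xop_mul (dvd_Xop_list _ ?_) ih
    intro F hF
    obtain ⟨b, _, rfl⟩ := List.mem_map.mp hF
    exact dd_dvd_Xop n a b

lemma Xop_dvd_of_dvd {n : ℤ} {F G : LP k (ι → ℤ)} (hF : F ∣ Xop k n F) (h : F ∣ G) :
    F ∣ Xop k n G := by
  obtain ⟨H, rfl⟩ := h
  rw [Xop_mul]
  exact dvd_add (dvd_mul_of_dvd_left hF _) (dvd_mul_right _ _)

lemma Dop_dvd_of_dvd {n : ℤ} {F G : LP k (ι → ℤ)} (hF : F ∣ Xop k n F) (h : F ∣ G) :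
    F ∣ Dop k n G := by
  rw [Dop_eq]
  refine dvd_sub (Xop_dvd_of_dvd hF h) ?_
  rw [← smul_mul_assoc]
  exact dvd_mul_of_dvd_right h _

end

/-- `Dop` preserves the multiples of powers of the Vandermonde. -/
theorem Dop_dvd (l K : ℕ) (n : ℤ) (G : LP k (Fin l → ℤ)) (h : vdm k l ^ K ∣ G) :
    vdm k l ^ K ∣ Dop k n G :=
  Dop_dvd_of_dvd (dvd_Xop_pow (vdl_dvd_Xop n _) K) h

end Pool.Agent.H48.Witt
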