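import Pool.Agent.H48.Witt.Defs

/-!
# Laurent polynomials vanishing on the points with few distinct coordinates (MP_f251f6_al)

A Laurent polynomial vanishing at all points with at most `n` distinct coordinates lies in the
ideal generated by the Vandermonde products of `n + 1` of the variables (Li and Li).
-/

set_option autoImplicit false

namespace Pool.Agent.H48.Witt
open Finset

section LL
variable {k : Type*} [Field k]

/-- Evaluation of a Laurent polynomial at a point with invertible coordinates. -/
noncomputable def evalU {ι : Type*} [Fintype ι] (x : ι → kˣ) : LP k (ι → ℤ) →ₐ[k] k :=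
  AddMonoidAlgebra.lift k k (ι → ℤ)
    { toFun := fun μ => ((∏ i, x i ^ (Multiplicative.toAdd μ i) : kˣ) : k)
      map_one' := by simp
      map_mul' := by
        intro a b
        simp only [toAdd_mul, Pi.add_apply, zpow_add, Finset.prod_mul_distrib, Units.val_mul] }

lemma evalU_mon {ι : Type*} [Fintype ι] (x : ι → kˣ) (μ : ι → ℤ) :
    evalU x (mon μ) = ((∏ i, x i ^ (μ i) : kˣ) : k) := by
  simp [evalU, mon]

lemma evalU_tt {ι : Type*} [Fintype ι] [DecidableEq ι] (x : ι → kˣ) (i : ι) :
    evalU x (tt k i) = (x i : k) := by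
  rw [tt, evalU_mon]
  congr 1
  rw [Finset.prod_eq_single i]
  · simp
  · intro b _ hb
    simp [Pi.single_eq_of_ne hb]
  · simp

lemma evalU_vdl_eq_zero {ι : Type*} [Fintype ι] [DecidableEq ι] (x : ι → kˣ) (S : List ι)
    (hS : ¬ (S.map x).Nodup) : evalU x (vdl k S) = 0 := by
  induction S with
  | nil => simp at hS
  | cons a l ih =>
    rw [List.map_cons, List.nodup_cons, not_and_or, not_not] at hS
    rw [vdl, map_mul]
    rcases hS with h | h
    · rw [map_list_prod]
      have : (0 : k) ∈ List.map (evalU x) (List.map (fun b => dd k a b) l) := by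
        obtain ⟨b, hb, hab⟩ := List.mem_map.1 h
        rw [List.map_map, List.mem_map]
        refine ⟨b, hb, ?_⟩
        simp [dd, evalU_tt, hab]
      rw [List.prod_eq_zero this, zero_mul]
    · rw [ih h, mul_zero]

/-- The ideal generated by the Vandermonde products of `n + 1` variables. -/
noncomputable def VI (k : Type*) [Field k] (l n : ℕ) : Ideal (LP k (Fin l → ℤ)) :=
  Ideal.span {G : LP k (Fin l → ℤ) | ∃ S : List (Fin l), S.Nodup ∧ S.length = n + 1 ∧
      G = vdl k S}

lemma evalU_of_mem_VI {l n : ℕ} {F : LP k (Fin l → ℤ)} (hF : F ∈ VI k l n) (x : Fin l → kˣ)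
    (hx : Set.ncard (Set.range x) ≤ n) : evalU x F = 0 := by
  classical
  have hle : VI k l n ≤ RingHom.ker (evalU x).toRingHom := by
    rw [VI, Ideal.span_le]
    rintro G ⟨S, hS, hlen, rfl⟩
    change evalU x (vdl k S) = 0
    apply evalU_vdl_eq_zero
    intro hnd
    have h1 : (S.map x).toFinset.card = n + 1 := by
      rw [List.toFinset_card_of_nodup hnd, List.length_map, hlen]
    have h2 : (S.map x).toFinset.card ≤ n := by
      refine le_trans ?_ hx
      rw [← Set.ncard_coe_finset]
      apply Set.ncard_le_ncard _ (Set.finite_range x)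
      intro y hy
      simp only [List.coe_toFinset, List.mem_map, Set.mem_ofPred_eq] at hy
      obtain ⟨i, _, rfl⟩ := hy
      exact ⟨i, rfl⟩
    omega
  exact hle hF

/-- The inclusion of exponents `μ ↦ (0, μ)`. -/
def consHom (l : ℕ) : (Fin l → ℤ) →+ (Fin (l + 1) → ℤ) where
  toFun μ := Fin.cons 0 μ
  map_zero' := by
    ext i
    refine Fin.cases ?_ (fun j => ?_) i <;> simp
  map_add' a b := by
    ext i
    refine Fin.cases ?_ (fun j => ?_) i <;> simp

/-- Laurent polynomials in the variables `1, …, l` as Laurent polynomials in `0, …, l`. -/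
noncomputable def emb (k : Type*) [Field k] (l : ℕ) :
    LP k (Fin l → ℤ) →ₐ[k] LP k (Fin (l + 1) → ℤ) :=
  AddMonoidAlgebra.mapDomainAlgHom k k (consHom l)

lemma emb_mon (l : ℕ) (μ : Fin l → ℤ) :
    emb k l (mon μ) = mon (Fin.cons 0 μ : Fin (l + 1) → ℤ) := by
  simp [emb, mon, consHom]

lemma emb_tt (l : ℕ) (i : Fin l) : emb k l (tt k i) = tt k i.succ := by
  rw [tt, emb_mon, tt]
  congr 1
  ext j
  refine Fin.cases ?_ (fun j => ?_) j
  · simp
  · simp [Pi.single_apply]

lemma emb_vdl (l : ℕ) (S : List (Fin l)) : emb k l (vdl k S) = vdl k (S.map Fin.succ) := by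
  induction S with
  | nil => simp [vdl]
  | cons a t ih =>
    rw [vdl, map_mul, ih, List.map_cons, vdl, map_list_prod, List.map_map, List.map_map]
    congr 3
    funext b
    simp [dd, emb_tt]

lemma emb_mem_VI {l n : ℕ} {F : LP k (Fin l → ℤ)} (hF : F ∈ VI k l n) :
    emb k l F ∈ VI k (l + 1) n := by
  have hle : VI k l n ≤ (VI k (l + 1) n).comap (emb k l).toRingHom := by
    rw [VI, Ideal.span_le]
    rintro G ⟨S, hS, hlen, rfl⟩
    change emb k l (vdl k S) ∈ VI k (l + 1) n
    rw [emb_vdl]
    exact Ideal.subset_span ⟨S.map Fin.succ, hS.map (Fin.succ_injective _), by simpa using hlen, rfl⟩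
  exact hle hF

/-- Polynomials in `t_0` over the Laurent polynomials in the other variables. -/
noncomputable def phi (k : Type*) [Field k] (l : ℕ) :
    Polynomial (LP k (Fin l → ℤ)) →+* LP k (Fin (l + 1) → ℤ) :=
  Polynomial.eval₂RingHom (emb k l).toRingHom (tt k 0)

lemma phi_C (l : ℕ) (c : LP k (Fin l → ℤ)) : phi k l (Polynomial.C c) = emb k l c := by
  simp [phi]

lemma phi_X (l : ℕ) : phi k l Polynomial.X = tt k 0 := by
  simp [phi]

lemma evalU_emb {l : ℕ} (a : kˣ) (x : Fin l → kˣ) (F : LP k (Fin l → ℤ)) :
    evalU (Fin.cons a x : Fin (l + 1) → kˣ) (emb k l F) = evalU x F := by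
  induction F using LP_induction with
  | h0 => simp
  | hadd x y hx hy => simp [hx, hy]
  | hmon g c =>
    rw [map_smul, map_smul, map_smul, emb_mon, evalU_mon, evalU_mon, Fin.prod_univ_succ]
    simp

lemma evalU_phi {l : ℕ} (a : kˣ) (x : Fin l → kˣ) (P : Polynomial (LP k (Fin l → ℤ))) :
    evalU (Fin.cons a x : Fin (l + 1) → kˣ) (phi k l P) =
      (P.map (evalU x).toRingHom).eval (a : k) := by
  induction P using Polynomial.induction_on' with
  | add p q hp hq => simp [hp, hq]
  | monomial n c =>
    rw [← Polynomial.C_mul_X_pow_eq_monomial, map_mul, map_pow, phi_C, phi_X, map_mul, map_pow,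
      evalU_emb, evalU_tt]
    simp

/-- Every Laurent polynomial is a power of `t_0⁻¹` times a polynomial in `t_0`. -/
lemma exists_phi {l : ℕ} (F : LP k (Fin (l + 1) → ℤ)) :
    ∃ (N : ℕ) (P : Polynomial (LP k (Fin l → ℤ))), tt k 0 ^ N * F = phi k l P := by
  induction F using LP_induction with
  | h0 => exact ⟨0, 0, by simp⟩
  | hadd x y hx hy =>
    obtain ⟨N, P, hP⟩ := hx
    obtain ⟨M, Q, hQ⟩ := hy
    refine ⟨N + M, Polynomial.X ^ M * P + Polynomial.X ^ N * Q, ?_⟩
    rw [map_add, map_mul, map_mul, map_pow, map_pow, phi_X, ← hP, ← hQ]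
    ring
  | hmon g c =>
    refine ⟨(g 0).natAbs, Polynomial.C (c • mon (Fin.tail g)) * Polynomial.X ^
      ((g 0).natAbs + g 0).toNat, ?_⟩
    rw [map_mul, map_pow, phi_C, phi_X, map_smul, emb_mon]
    have hpow : ∀ m : ℕ, (tt k (0 : Fin (l + 1)) ^ m : LP k (Fin (l + 1) → ℤ)) =
        mon (Pi.single 0 (m : ℤ)) := by
      intro m
      induction m with
      | zero => simp
      | succ m ih =>
        rw [pow_succ, ih, tt, mon_mul_mon, ← Pi.single_add]
        simp
    rw [hpow, hpow, mul_smul_comm, smul_mul_assoc, mon_mul_mon, mon_mul_mon]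
    congr 2
    ext j
    refine Fin.cases ?_ (fun j => ?_) j
    · have h := neg_abs_le (g 0)
      simp
      omega
    · simp [Fin.tail]

lemma vdl_zero_cons {l : ℕ} (S : List (Fin l)) :
    vdl k ((0 : Fin (l + 1)) :: S.map Fin.succ) =
      phi k l ((S.map (fun i => Polynomial.X - Polynomial.C (tt k i))).prod *
        Polynomial.C (vdl k S)) := by
  rw [vdl, map_mul, phi_C, emb_vdl, map_list_prod, List.map_map, List.map_map]
  congr 3
  funext i
  simp [dd, phi_C, phi_X, emb_tt]

lemma monic_prod_list {R : Type*} [CommRing R] [Nontrivial R] {ι : Type*} (f : ι → R)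
    (S : List ι) :
    ((S.map (fun i => Polynomial.X - Polynomial.C (f i))).prod).Monic ∧
      ((S.map (fun i => Polynomial.X - Polynomial.C (f i))).prod).natDegree = S.length := by
  induction S with
  | nil => simp
  | cons a t ih =>
    rw [List.map_cons, List.prod_cons]
    refine ⟨(Polynomial.monic_X_sub_C _).mul ih.1, ?_⟩
    rw [(Polynomial.monic_X_sub_C _).natDegree_mul ih.1, ih.2, Polynomial.natDegree_X_sub_C,
      List.length_cons, add_comm]

/-- Polynomials in `t_0` in the ideal with prescribed leading coefficient. -/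
lemma exists_lift {l n D : ℕ} (hD : n + 1 ≤ D) {c : LP k (Fin l → ℤ)} (hc : c ∈ VI k l n) :
    ∃ Q : Polynomial (LP k (Fin l → ℤ)), Q.natDegree ≤ D ∧ Q.coeff D = c ∧
      phi k l Q ∈ VI k (l + 1) (n + 1) := by
  rw [VI] at hc
  induction hc using Submodule.span_induction with
  | mem G hG =>
    obtain ⟨S, hS, hlen, rfl⟩ := hG
    set M : Polynomial (LP k (Fin l → ℤ)) :=
      (S.map (fun i => Polynomial.X - Polynomial.C (tt k i))).prod with hM
    have hMm : M.Monic := (monic_prod_list _ S).1
    have hMd : M.natDegree = n + 1 := (monic_prod_list _ S).2.trans hlen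
    refine ⟨Polynomial.X ^ (D - (n + 1)) * M * Polynomial.C (vdl k S), ?_, ?_, ?_⟩
    · refine (Polynomial.natDegree_mul_C_le _ _).trans ?_
      rw [(Polynomial.monic_X_pow _).natDegree_mul hMm, Polynomial.natDegree_X_pow, hMd]
      omega
    · rw [Polynomial.coeff_mul_C]
      have h1 : (Polynomial.X ^ (D - (n + 1)) * M).Monic := (Polynomial.monic_X_pow _).mul hMm
      have h2 : (Polynomial.X ^ (D - (n + 1)) * M).natDegree = D := by
        rw [(Polynomial.monic_X_pow _).natDegree_mul hMm, Polynomial.natDegree_X_pow, hMd]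
        omega
      have h3 := h1.coeff_natDegree
      rw [h2] at h3
      rw [h3, one_mul]
    · rw [mul_assoc, map_mul, ← vdl_zero_cons]
      apply Ideal.mul_mem_left
      apply Ideal.subset_span
      refine ⟨0 :: S.map Fin.succ, ?_, by simp [hlen], rfl⟩
      rw [List.nodup_cons]
      refine ⟨?_, hS.map (Fin.succ_injective _)⟩
      intro h0
      obtain ⟨i, _, hi⟩ := List.mem_map.1 h0
      exact Fin.succ_ne_zero i hi
  | zero => exact ⟨0, by simp, by simp, by simp⟩
  | add x y _ _ hx hy =>
    obtain ⟨Q, h1, h2, h3⟩ := hx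
    obtain ⟨Q', h1', h2', h3'⟩ := hy
    refine ⟨Q + Q', ?_, by simp [h2, h2'], by rw [map_add]; exact add_mem h3 h3'⟩
    exact (Polynomial.natDegree_add_le _ _).trans (max_le h1 h1')
  | smul a x _ hx =>
    obtain ⟨Q, h1, h2, h3⟩ := hx
    refine ⟨Polynomial.C a * Q, (Polynomial.natDegree_C_mul_le _ _).trans h1,
      by simp [h2], ?_⟩
    rw [map_mul]
    exact Ideal.mul_mem_left _ _ h3

lemma ncard_range_cons_le {l : ℕ} (a : kˣ) (x : Fin l → kˣ) :
    Set.ncard (Set.range (Fin.cons a x : Fin (l + 1) → kˣ)) ≤ Set.ncard (Set.range x) + 1 := by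
  rw [Fin.range_cons]
  exact Set.ncard_insert_le _ _

/-- Main step: polynomials in `t_0`. -/
lemma phi_mem [CharZero k] {l n : ℕ}
    (ih : ∀ (m : ℕ) (F : LP k (Fin l → ℤ)),
      (∀ x : Fin l → kˣ, Set.ncard (Set.range x) ≤ m → evalU x F = 0) → F ∈ VI k l m)
    (D : ℕ) : ∀ (P : Polynomial (LP k (Fin l → ℤ))), P.natDegree < D →
    (∀ (a : kˣ) (x : Fin l → kˣ),
      Set.ncard (Set.range (Fin.cons a x : Fin (l + 1) → kˣ)) ≤ n + 1 →
        (P.map (evalU x).toRingHom).eval (a : k) = 0) →
    phi k l P ∈ VI k (l + 1) (n + 1) := by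
  classical
  have hinf : ∀ p : Polynomial k, (∀ a : kˣ, p.eval (a : k) = 0) → p = 0 := by
    intro p hp
    apply Polynomial.eq_zero_of_infinite_isRoot
    have : Set.Infinite {a : k | a ≠ 0} := by
      have := Set.infinite_univ (α := k)
      exact (Set.Infinite.sdiff this (Set.finite_singleton 0)).mono (by intro x hx; simpa using hx)
    refine this.mono ?_
    intro a ha
    exact hp (Units.mk0 a ha)
  -- points with at most `n` distinct coordinates: every coefficient vanishes
  have hcoeff : ∀ (P : Polynomial (LP k (Fin l → ℤ))),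
      (∀ (a : kˣ) (x : Fin l → kˣ),
      Set.ncard (Set.range (Fin.cons a x : Fin (l + 1) → kˣ)) ≤ n + 1 →
        (P.map (evalU x).toRingHom).eval (a : k) = 0) →
      ∀ (j : ℕ) (x : Fin l → kˣ), Set.ncard (Set.range x) ≤ n → evalU x (P.coeff j) = 0 := by
    intro P hP j x hx
    have h0 : P.map (evalU x).toRingHom = 0 := by
      apply hinf
      intro a
      exact hP a x ((ncard_range_cons_le a x).trans (by omega))
    have := congrArg (fun q => Polynomial.coeff q j) h0
    simpa [Polynomial.coeff_map] using this
  induction D with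
  | zero => intro P hP; omega
  | succ D ihD =>
    intro P hdeg hP
    by_cases hn : n + 1 ≤ P.natDegree
    · obtain ⟨Q, hQ1, hQ2, hQ3⟩ := exists_lift hn
        (ih n (P.coeff P.natDegree) (hcoeff P hP P.natDegree))
      have hsub : phi k l (P - Q) ∈ VI k (l + 1) (n + 1) := by
        apply ihD
        · have h1 : (P - Q).natDegree ≤ P.natDegree :=
            (Polynomial.natDegree_sub_le _ _).trans (max_le le_rfl hQ1)
          have h2 : (P - Q).coeff P.natDegree = 0 := by
            rw [Polynomial.coeff_sub, hQ2, sub_self]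
          have h3 : (P - Q).natDegree < P.natDegree := by
            rcases h1.lt_or_eq with h | h
            · exact h
            · exfalso
              have h4 : (P - Q).leadingCoeff = 0 := by
                rw [Polynomial.leadingCoeff, h, h2]
              rw [Polynomial.leadingCoeff_eq_zero] at h4
              rw [h4, Polynomial.natDegree_zero] at h
              omega
          omega
        · intro a x hx
          have hQ4 := evalU_of_mem_VI hQ3 (Fin.cons a x) hx
          rw [evalU_phi] at hQ4
          rw [Polynomial.map_sub, Polynomial.eval_sub, hP a x hx, hQ4, sub_zero]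
      have : phi k l P = phi k l (P - Q) + phi k l Q := by rw [map_sub]; ring
      rw [this]
      exact add_mem hsub hQ3
    · push Not at hn
      -- small degree: every coefficient vanishes on the points with at most `n+1` coordinates
      have hc : ∀ j, P.coeff j ∈ VI k l (n + 1) := by
        intro j
        apply ih
        intro x hx
        have h0 : P.map (evalU x).toRingHom = 0 := by
          rcases Nat.lt_or_ge (Set.ncard (Set.range x)) (n + 1) with h | h
          · apply hinf
            intro a
            exact hP a x ((ncard_range_cons_le a x).trans (by omega))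
          · have hfin := Set.finite_range x
            refine Polynomial.eq_zero_of_natDegree_lt_card_of_eval_eq_zero' _
              ((hfin.toFinset).image (fun u : kˣ => (u : k))) ?_ ?_
            · intro b hb
              rw [Finset.mem_image] at hb
              obtain ⟨u, hu, rfl⟩ := hb
              rw [Set.Finite.mem_toFinset] at hu
              apply hP u x
              rw [Fin.range_cons, Set.insert_eq_of_mem hu]
              exact hx
            · rw [Finset.card_image_of_injective _ Units.val_injective,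
                ← Set.ncard_eq_toFinset_card _ hfin]
              exact lt_of_le_of_lt (Polynomial.natDegree_map_le) (by omega)
        have := congrArg (fun q => Polynomial.coeff q j) h0
        simpa [Polynomial.coeff_map] using this
      rw [P.as_sum_range_C_mul_X_pow, map_sum]
      apply Ideal.sum_mem
      intro j _
      rw [map_mul, phi_C]
      exact Ideal.mul_mem_right _ _ (emb_mem_VI (hc j))

lemma mem_VI [CharZero k] (l : ℕ) : ∀ (n : ℕ) (F : LP k (Fin l → ℤ)),
    (∀ x : Fin l → kˣ, Set.ncard (Set.range x) ≤ n → evalU x F = 0) → F ∈ VI k l n := by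
  induction l with
  | zero =>
    intro n F hF
    have h0 : F = 0 := by
      have h1 := hF (fun i => i.elim0) (by
        have : Set.range (fun i : Fin 0 => (i.elim0 : kˣ)) = ∅ := Set.range_eq_empty _
        rw [this]; simp)
      have h2 : ∀ G : LP k (Fin 0 → ℤ), G = algebraMap k _ (evalU (fun i => i.elim0) G) := by
        intro G
        induction G using LP_induction with
        | h0 => simp
        | hadd x y hx hy => rw [map_add, map_add, ← hx, ← hy]
        | hmon g c =>
          have hg : g = 0 := Subsingleton.elim _ _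
          subst hg
          rw [map_smul, mon_zero, map_one, smul_eq_mul, mul_one, Algebra.smul_def, mul_one]
      rw [h2 F, h1, map_zero]
    rw [h0]
    exact zero_mem _
  | succ l ih =>
    intro n F hF
    rcases n with _ | n
    · have h1 : (1 : LP k (Fin (l + 1) → ℤ)) ∈ VI k (l + 1) 0 := by
        apply Ideal.subset_span
        exact ⟨[0], by simp, by simp, by simp [vdl]⟩
      rw [(Ideal.eq_top_iff_one _).2 h1]
      trivial
    · obtain ⟨N, P, hP⟩ := exists_phi F
      have hmem : phi k l P ∈ VI k (l + 1) (n + 1) := by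
        apply phi_mem ih (P.natDegree + 1) P (Nat.lt_succ_self _)
        intro a x hx
        rw [← evalU_phi, ← hP, map_mul, hF _ hx, mul_zero]
      rw [← hP] at hmem
      have hu : IsUnit (tt k (0 : Fin (l + 1)) ^ N : LP k (Fin (l + 1) → ℤ)) :=
        (isUnit_mon _).pow N
      obtain ⟨u, hu'⟩ := hu
      have := Ideal.mul_mem_left _ (↑u⁻¹ : LP k (Fin (l + 1) → ℤ)) hmem
      rwa [← hu', ← mul_assoc, Units.inv_mul, one_mul] at this

/-- Li and Li: a Laurent polynomial vanishing at all points with at most `n` distinct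
coordinates lies in the ideal generated by the Vandermonde products of `n+1` of the variables. -/
theorem liLi [CharZero k] (l n : ℕ) (F : LP k (Fin l → ℤ))
    (hF : ∀ x : Fin l → kˣ, Set.ncard (Set.range x) ≤ n → evalU x F = 0) :
    F ∈ Ideal.span {G : LP k (Fin l → ℤ) | ∃ S : List (Fin l), S.Nodup ∧ S.length = n + 1 ∧
      G = vdl k S} :=
  mem_VI l n F hF

end LL
end Pool.Agent.H48.Witt
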