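import Pool.Agent.H48.Witt.DDefs
import Pool.Agent.H48.Witt.LL

/-!
# MP_f251f6_al: degrees, top symbols and the relation `Δ² = 0` for the modules `k[D_1..D_n]`

Modules D3 and D5 (helper6).
-/

set_option autoImplicit false

namespace Pool.Agent.H48.Witt

open Finset MvPolynomial

namespace DT

section
variable {k : Type*} [Field k] {n : ℕ}

lemma sh_X (i j : Fin n) (m : ℤ) :
    sh k i m (X j) = X j - if j = i then C (m : k) else 0 := by
  simp [sh]

lemma sh_X_self (i : Fin n) (m : ℤ) : sh k i m (X i) = X i - C (m : k) := by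
  simp [sh_X]

lemma sh_X_ne {i j : Fin n} (h : j ≠ i) (m : ℤ) : sh k i m (X j) = X j := by
  simp [sh_X, h]

lemma sh_C (i : Fin n) (m : ℤ) (c : k) : sh k i m (C c) = C c := by
  simp [sh]

lemma sh_sh_self (i : Fin n) (m m' : ℤ) (f : MvPolynomial (Fin n) k) :
    sh k i m (sh k i m' f) = sh k i (m + m') f := by
  have : (sh k i m).comp (sh k i m') = sh k i (m + m') := by
    apply MvPolynomial.algHom_ext
    intro j
    rw [AlgHom.comp_apply]
    by_cases h : j = i
    · subst h
      rw [sh_X_self, sh_X_self, map_sub, sh_X_self, sh_C]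
      push_cast
      rw [C_add]; ring
    · rw [sh_X_ne h, sh_X_ne h, sh_X_ne h]
  rw [← AlgHom.comp_apply, this]

lemma sh_sh_comm {i j : Fin n} (h : i ≠ j) (m m' : ℤ) (f : MvPolynomial (Fin n) k) :
    sh k i m (sh k j m' f) = sh k j m' (sh k i m f) := by
  have : (sh k i m).comp (sh k j m') = (sh k j m').comp (sh k i m) := by
    apply MvPolynomial.algHom_ext
    intro l
    rw [AlgHom.comp_apply, AlgHom.comp_apply]
    by_cases h1 : l = i
    · subst h1
      rw [sh_X_ne h, sh_X_self, map_sub, sh_X_ne h, sh_C]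
    · by_cases h2 : l = j
      · subst h2
        rw [sh_X_ne h1, sh_X_self, map_sub, sh_X_ne h1, sh_C]
      · rw [sh_X_ne h1, sh_X_ne h2, sh_X_ne h1]
  rw [← AlgHom.comp_apply, this, AlgHom.comp_apply]

/-- one summand of `opM` -/
noncomputable def TT (lam : Fin n → kˣ) (i : Fin n) (m : ℤ) :
    Module.End k (MvPolynomial (Fin n) k) :=
  ((lam i ^ m : kˣ) : k) • ((sh k i m).toLinearMap ∘ₗ LinearMap.mulLeft k (X i))

lemma opM_eq (lam : Fin n → kˣ) (m : ℤ) : opM lam m = ∑ i, TT lam i m := rfl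

lemma TT_apply (lam : Fin n → kˣ) (i : Fin n) (m : ℤ) (f : MvPolynomial (Fin n) k) :
    TT lam i m f = ((lam i ^ m : kˣ) : k) • ((X i - C (m : k)) * sh k i m f) := by
  simp [TT, sh_X_self]

lemma TT_comm (lam : Fin n → kˣ) {i j : Fin n} (h : i ≠ j) (m m' : ℤ) :
    TT lam i m * TT lam j m' = TT lam j m' * TT lam i m := by
  refine LinearMap.ext fun f => ?_
  simp only [Module.End.mul_apply, TT_apply, map_smul, map_mul, map_sub, sh_X_ne h,
    sh_X_ne h.symm, sh_C, sh_sh_comm h]
  rw [smul_comm]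
  congr 2
  ring

lemma TT_mul (lam : Fin n → kˣ) (i : Fin n) (m m' : ℤ) (f : MvPolynomial (Fin n) k) :
    (TT lam i m * TT lam i m') f = ((lam i ^ (m + m') : kˣ) : k) •
      ((X i - C (m : k)) * (X i - C ((m + m' : ℤ) : k)) * sh k i (m + m') f) := by
  simp only [Module.End.mul_apply, TT_apply, map_smul, map_mul, map_sub, sh_X_self, sh_C,
    sh_sh_self, smul_smul]
  rw [zpow_add, Units.val_mul, mul_comm ((lam i ^ m' : kˣ) : k)]
  congr 1
  push_cast
  rw [C_add]
  ring

/-- the second difference of `T_i(m) T_i(m')` along `(1,-1)` vanishes -/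
lemma TT_second (lam : Fin n → kˣ) (i : Fin n) (m m' : ℤ) :
    TT lam i (m + 2) * TT lam i m' - (2 : k) • (TT lam i (m + 1) * TT lam i (m' + 1)) +
      TT lam i m * TT lam i (m' + 2) = 0 := by
  refine LinearMap.ext fun f => ?_
  simp only [LinearMap.add_apply, LinearMap.sub_apply, LinearMap.smul_apply, TT_mul,
    LinearMap.zero_apply]
  have e1 : m + 2 + m' = m + m' + 2 := by ring
  have e2 : m + 1 + (m' + 1) = m + m' + 2 := by ring
  have e3 : m + (m' + 2) = m + m' + 2 := by ring
  rw [e1, e2, e3, smul_comm (2 : k), ← smul_sub, ← smul_add]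
  have : (X i - C ((m + 2 : ℤ) : k)) * (X i - C ((m + m' + 2 : ℤ) : k)) *
      sh k i (m + m' + 2) f - (2 : k) • ((X i - C ((m + 1 : ℤ) : k)) *
      (X i - C ((m + m' + 2 : ℤ) : k)) * sh k i (m + m' + 2) f) +
      (X i - C (m : k)) * (X i - C ((m + m' + 2 : ℤ) : k)) * sh k i (m + m' + 2) f = 0 := by
    rw [smul_eq_C_mul]
    push_cast
    simp only [C_add, map_one, map_ofNat]
    ring
  rw [this, smul_zero]

/-- the product of the operators with prescribed colours -/
noncomputable def cprod (lam : Fin n → kˣ) {ι : Type*} (c : ι → Fin n) (ℓ : List ι) (μ : ι → ℤ) :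
    Module.End k (MvPolynomial (Fin n) k) :=
  (ℓ.map fun a => TT lam (c a) (μ a)).prod

lemma cprod_nil (lam : Fin n → kˣ) {ι : Type*} (c : ι → Fin n) (μ : ι → ℤ) :
    cprod lam c [] μ = 1 := rfl

lemma cprod_cons (lam : Fin n → kˣ) {ι : Type*} (c : ι → Fin n) (a : ι) (ℓ : List ι)
    (μ : ι → ℤ) : cprod lam c (a :: ℓ) μ = TT lam (c a) (μ a) * cprod lam c ℓ μ := by
  simp [cprod]

lemma cprod_append (lam : Fin n → kˣ) {ι : Type*} (c : ι → Fin n) (ℓ ℓ' : List ι)
    (μ : ι → ℤ) : cprod lam c (ℓ ++ ℓ') μ = cprod lam c ℓ μ * cprod lam c ℓ' μ := by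
  simp [cprod]

lemma cprod_congr (lam : Fin n → kˣ) {ι : Type*} (c : ι → Fin n) (ℓ : List ι)
    {μ ν : ι → ℤ} (h : ∀ a ∈ ℓ, μ a = ν a) : cprod lam c ℓ μ = cprod lam c ℓ ν := by
  unfold cprod
  congr 1
  apply List.map_congr_left
  intro a ha
  rw [h a ha]

lemma TT_cprod_comm (lam : Fin n → kˣ) {ι : Type*} (c : ι → Fin n) (i : Fin n) (m : ℤ)
    (ℓ : List ι) (μ : ι → ℤ) (h : ∀ a ∈ ℓ, c a ≠ i) :
    TT lam i m * cprod lam c ℓ μ = cprod lam c ℓ μ * TT lam i m := by
  induction ℓ with
  | nil => simp [cprod_nil]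
  | cons a ℓ ih =>
    rw [cprod_cons, ← mul_assoc, TT_comm lam (h a (by simp)).symm, mul_assoc, mul_assoc,
      ih fun b hb => h b (by simp [hb])]

/-- pigeonhole + commutation: some second difference of `cprod` vanishes -/
lemma cprod_second (lam : Fin n → kˣ) {ι : Type*} [DecidableEq ι] (c : ι → Fin n) (ℓ : List ι)
    (hn : ℓ.Nodup) (hc : ∃ a ∈ ℓ, ∃ b ∈ ℓ, a ≠ b ∧ c a = c b) :
    ∃ a ∈ ℓ, ∃ b ∈ ℓ, a ≠ b ∧ ∀ μ : ι → ℤ,
      cprod lam c ℓ (μ + 2 • Pi.single a 1) -
        (2 : k) • cprod lam c ℓ (μ + Pi.single a 1 + Pi.single b 1) +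
        cprod lam c ℓ (μ + 2 • Pi.single b 1) = 0 := by
  induction ℓ with
  | nil => obtain ⟨a, ha, _⟩ := hc; simp at ha
  | cons x ℓ ih =>
    obtain ⟨hx, hn'⟩ := List.nodup_cons.1 hn
    by_cases hcol : ∃ a ∈ ℓ, ∃ b ∈ ℓ, a ≠ b ∧ c a = c b
    · obtain ⟨a, ha, b, hb, hab, h⟩ := ih hn' hcol
      refine ⟨a, List.mem_cons_of_mem _ ha, b, List.mem_cons_of_mem _ hb, hab, fun μ => ?_⟩
      have hax : x ≠ a := fun h => hx (h ▸ ha)
      have hbx : x ≠ b := fun h => hx (h ▸ hb)
      have h1 : (μ + 2 • Pi.single a 1 : ι → ℤ) x = μ x := by simp [hax]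
      have h2 : (μ + Pi.single a 1 + Pi.single b 1 : ι → ℤ) x = μ x := by simp [hax, hbx]
      have h3 : (μ + 2 • Pi.single b 1 : ι → ℤ) x = μ x := by simp [hbx]
      rw [cprod_cons, cprod_cons, cprod_cons, h1, h2, h3, ← mul_smul_comm, ← mul_sub, ← mul_add,
        h μ, mul_zero]
    · push Not at hcol
      obtain ⟨a, ha, b, hb, hab, hcab⟩ := hc
      -- the collision involves `x`
      obtain ⟨b, hb, hcb⟩ : ∃ b ∈ ℓ, c x = c b := by
        rcases List.mem_cons.1 ha with rfl | ha'
        · rcases List.mem_cons.1 hb with rfl | hb'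
          · exact absurd rfl hab
          · exact ⟨b, hb', hcab⟩
        · rcases List.mem_cons.1 hb with rfl | hb'
          · exact ⟨a, ha', hcab.symm⟩
          · exact absurd hcab (hcol a ha' b hb' hab)
      have hxb : x ≠ b := fun h => hx (h ▸ hb)
      obtain ⟨l1, l2, rfl⟩ := List.append_of_mem hb
      have hnb : b ∉ l1 ∧ b ∉ l2 := by
        rw [List.nodup_append] at hn'
        obtain ⟨_, h2, h3⟩ := hn'
        exact ⟨fun h => h3 b h b (by simp) rfl, (List.nodup_cons.1 h2).1⟩
      have hx1 : x ∉ l1 := fun h => hx (by simp [h])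
      have hx2 : x ∉ l2 := fun h => hx (by simp [h])
      have hcl1 : ∀ a ∈ l1, c a ≠ c x := by
        intro a ha h
        refine hcol a (by simp [ha]) b (by simp) (fun h' => hnb.1 (h' ▸ ha)) (h.trans hcb)
      refine ⟨x, by simp, b, by simp, hxb, fun μ => ?_⟩
      have key : ∀ ν : ι → ℤ, (∀ a ∈ l1, ν a = μ a) → (∀ a ∈ l2, ν a = μ a) →
          cprod lam c (x :: (l1 ++ b :: l2)) ν =
          cprod lam c l1 μ * (TT lam (c x) (ν x) * TT lam (c x) (ν b)) * cprod lam c l2 μ := by
        intro ν h1 h2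
        rw [cprod_cons, cprod_append, cprod_cons, cprod_congr lam c l1 h1,
          cprod_congr lam c l2 h2, ← mul_assoc, TT_cprod_comm lam c (c x) (ν x) l1 μ hcl1,
          ← hcb]
        simp only [mul_assoc]
      have hs : ∀ a y : ι, a ≠ y → (Pi.single y 1 : ι → ℤ) a = 0 := fun a y h => by simp [h]
      rw [key, key, key]
      · have e1 : (μ + 2 • Pi.single x 1 : ι → ℤ) x = μ x + 2 := by simp
        have e2 : (μ + 2 • Pi.single x 1 : ι → ℤ) b = μ b := by simp [hxb.symm]
        have e3 : (μ + Pi.single x 1 + Pi.single b 1 : ι → ℤ) x = μ x + 1 := by simp [hxb]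
        have e4 : (μ + Pi.single x 1 + Pi.single b 1 : ι → ℤ) b = μ b + 1 := by simp [hxb.symm]
        have e5 : (μ + 2 • Pi.single b 1 : ι → ℤ) x = μ x := by simp [hxb]
        have e6 : (μ + 2 • Pi.single b 1 : ι → ℤ) b = μ b + 2 := by simp
        rw [e1, e2, e3, e4, e5, e6]
        have h := TT_second lam (c x) (μ x) (μ b)
        have h' : cprod lam c l1 μ * (TT lam (c x) (μ x + 2) * TT lam (c x) (μ b)) *
            cprod lam c l2 μ - (2 : k) • (cprod lam c l1 μ * (TT lam (c x) (μ x + 1) *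
            TT lam (c x) (μ b + 1)) * cprod lam c l2 μ) + cprod lam c l1 μ *
            (TT lam (c x) (μ x) * TT lam (c x) (μ b + 2)) * cprod lam c l2 μ =
            cprod lam c l1 μ * (TT lam (c x) (μ x + 2) * TT lam (c x) (μ b) -
              (2 : k) • (TT lam (c x) (μ x + 1) * TT lam (c x) (μ b + 1)) +
              TT lam (c x) (μ x) * TT lam (c x) (μ b + 2)) * cprod lam c l2 μ := by
          rw [mul_add, mul_sub, add_mul, sub_mul, mul_smul_comm, smul_mul_assoc]
        rw [h', h, mul_zero, zero_mul]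
      all_goals
        intro y hy
        have hyb : y ≠ b := fun h => by
          first | exact hnb.1 (h ▸ hy) | exact hnb.2 (h ▸ hy)
        have hyx : y ≠ x := fun h => by
          first | exact hx1 (h ▸ hy) | exact hx2 (h ▸ hy)
        simp [hyb, hyx]

lemma list_prod_expand {R : Type*} [Semiring R] (l : ℕ) (g : Fin l → Fin n → R) :
    ((List.finRange l).map (fun a => ∑ i, g a i)).prod =
      ∑ c : Fin l → Fin n, ((List.finRange l).map (fun a => g a (c a))).prod := by
  induction l with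
  | zero => simp
  | succ l ih =>
    rw [List.finRange_succ, List.map_cons, List.prod_cons, List.map_map]
    have h1 : (List.map ((fun a => ∑ i, g a i) ∘ Fin.succ) (List.finRange l)).prod =
        ∑ c : Fin l → Fin n, ((List.finRange l).map (fun a => g a.succ (c a))).prod := by
      rw [← ih (fun a i => g a.succ i)]
      rfl
    rw [h1, Finset.sum_mul_sum, ← Fintype.sum_prod_type',
      ← (Fin.consEquiv (fun _ : Fin (l + 1) => Fin n)).sum_comp]
    refine Finset.sum_congr rfl fun x _ => ?_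
    rw [List.map_cons, List.prod_cons, List.map_map]
    simp only [Fin.consEquiv_apply, Fin.cons_zero]
    rfl

lemma fprod_expand (lam : Fin n → kˣ) (l : ℕ) (μ : Fin l → ℤ) :
    fprod (opM lam) (List.finRange l) μ =
      ∑ c : Fin l → Fin n, cprod lam c (List.finRange l) μ := by
  unfold fprod cprod
  simp only [opM_eq]
  exact list_prod_expand l (fun a i => TT lam i (μ a))

/-! ### divisibility of the Vandermonde products -/

lemma dd_dvd_vdl {ι : Type*} [DecidableEq ι] (ℓ : List ι) {a b : ι} (ha : a ∈ ℓ) (hb : b ∈ ℓ)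
    (hab : a ≠ b) : dd k a b ∣ vdl k ℓ := by
  induction ℓ with
  | nil => simp at ha
  | cons x ℓ ih =>
    rw [vdl]
    rcases List.mem_cons.1 ha with rfl | ha'
    · rcases List.mem_cons.1 hb with rfl | hb'
      · exact absurd rfl hab
      · exact Dvd.dvd.mul_right (List.dvd_prod (List.mem_map.2 ⟨b, hb', rfl⟩)) _
    · rcases List.mem_cons.1 hb with rfl | hb'
      · rw [dd_swap, neg_dvd]
        exact Dvd.dvd.mul_right (List.dvd_prod (List.mem_map.2 ⟨a, ha', rfl⟩)) _
      · exact Dvd.dvd.mul_left (ih ha' hb') _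

lemma dd_sq_mul_mon {ι : Type*} [DecidableEq ι] (a b : ι) (μ : ι → ℤ) :
    (dd k a b ^ 2 * mon μ : LP k (ι → ℤ)) = mon (μ + 2 • Pi.single a 1) -
      (2 : k) • mon (μ + Pi.single a 1 + Pi.single b 1) + mon (μ + 2 • Pi.single b 1) := by
  have h1 : (mon (μ + 2 • Pi.single a 1) : LP k (ι → ℤ)) = tt k a ^ 2 * mon μ := by
    rw [sq, tt, mon_mul_mon, mon_mul_mon, two_smul]; congr 1; abel
  have h2 : (mon (μ + 2 • Pi.single b 1) : LP k (ι → ℤ)) = tt k b ^ 2 * mon μ := by
    rw [sq, tt, mon_mul_mon, mon_mul_mon, two_smul]; congr 1; abel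
  have h3 : (mon (μ + Pi.single a 1 + Pi.single b 1) : LP k (ι → ℤ)) =
      tt k a * tt k b * mon μ := by
    rw [tt, tt, mon_mul_mon, mon_mul_mon]; congr 1; abel
  rw [h1, h2, h3, dd, ofNat_smul_eq_nsmul, two_smul]
  ring

end

section
variable {k : Type*} [Field k] {n : ℕ}

/-- polynomials of total degree `< d` -/
def Nd (k : Type*) [Field k] (n d : ℕ) : Submodule k (MvPolynomial (Fin n) k) where
  carrier := {f | ∀ s : Fin n →₀ ℕ, d ≤ s.degree → coeff s f = 0}
  add_mem' := fun {f g} hf hg s hs => by rw [coeff_add, hf s hs, hg s hs, add_zero]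
  zero_mem' := fun s _ => coeff_zero s
  smul_mem' := fun c f hf s hs => by rw [coeff_smul, hf s hs, smul_zero]

lemma mem_Nd {d : ℕ} {f : MvPolynomial (Fin n) k} :
    f ∈ Nd k n d ↔ ∀ s : Fin n →₀ ℕ, d ≤ s.degree → coeff s f = 0 := Iff.rfl

lemma Nd_mono {d e : ℕ} (h : d ≤ e) : Nd k n d ≤ Nd k n e := fun _ hf s hs => hf s (h.trans hs)

lemma monomial_mem_Nd {d : ℕ} {s : Fin n →₀ ℕ} (h : s.degree < d) (c : k) :
    monomial s c ∈ Nd k n d := by
  classical
  intro t ht
  rw [coeff_monomial, if_neg]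
  rintro rfl
  omega

lemma C_mul_mem_Nd {d : ℕ} {f : MvPolynomial (Fin n) k} (hf : f ∈ Nd k n d) (c : k) :
    C c * f ∈ Nd k n d := by
  rw [← smul_eq_C_mul]
  exact (Nd k n d).smul_mem c hf

lemma degree_sub_single {s : Fin n →₀ ℕ} {j : Fin n} (hj : j ∈ s.support) :
    (s - Finsupp.single j 1).degree + 1 = s.degree := by
  have h1 : Finsupp.single j 1 ≤ s := by
    rw [Finsupp.single_le_iff]
    exact Nat.one_le_iff_ne_zero.2 (Finsupp.mem_support_iff.1 hj)
  conv_rhs => rw [← tsub_add_cancel_of_le h1]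
  rw [map_add, Finsupp.degree_single]

lemma X_mul_mem_Nd {d : ℕ} {f : MvPolynomial (Fin n) k} (hf : f ∈ Nd k n d) (j : Fin n) :
    X j * f ∈ Nd k n (d + 1) := by
  classical
  intro s hs
  rw [coeff_X_mul']
  split_ifs with h
  · refine hf _ ?_
    have := degree_sub_single h
    omega
  · rfl

lemma Nd_induction {d : ℕ} {motive : MvPolynomial (Fin n) k → Prop}
    (h0 : motive 0) (hadd : ∀ f g, motive f → motive g → motive (f + g))
    (hmon : ∀ (s : Fin n →₀ ℕ) (c : k), s.degree < d → motive (monomial s c))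
    {f : MvPolynomial (Fin n) k} (hf : f ∈ Nd k n d) : motive f := by
  classical
  rw [f.as_sum]
  refine Finset.sum_induction _ motive hadd h0 fun s hs => hmon s _ ?_
  by_contra h
  exact (mem_support_iff.1 hs) (hf s (not_lt.1 h))

lemma sh_monomial (i : Fin n) (m : ℤ) (s : Fin n →₀ ℕ) (c : k) :
    sh k i m (monomial s c) ∈ Nd k n (s.degree + 1) ∧
      sh k i m (monomial s c) - monomial s c ∈ Nd k n s.degree := by
  induction hd : s.degree generalizing s with
  | zero =>
    have hs : s = 0 := (Finsupp.degree_eq_zero_iff s).1 hd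
    subst hs
    rw [show (monomial 0 c : MvPolynomial (Fin n) k) = C c from rfl, sh_C, sub_self]
    refine ⟨?_, Submodule.zero_mem _⟩
    exact monomial_mem_Nd (s := 0) (by simp) c
  | succ d ih =>
    have hs : s ≠ 0 := by
      rintro rfl
      simp at hd
    obtain ⟨j, hj⟩ := Finsupp.support_nonempty_iff.2 hs
    have hdeg := degree_sub_single hj
    obtain ⟨h1, h2⟩ := ih (s - Finsupp.single j 1) (by omega)
    have hle : Finsupp.single j 1 ≤ s := by
      rw [Finsupp.single_le_iff]
      exact Nat.one_le_iff_ne_zero.2 (Finsupp.mem_support_iff.1 hj)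
    have hmul : (monomial s c : MvPolynomial (Fin n) k) =
        X j * monomial (s - Finsupp.single j 1) c := by
      rw [X, monomial_mul, one_mul, add_tsub_cancel_of_le hle]
    set f : MvPolynomial (Fin n) k := monomial (s - Finsupp.single j 1) c with hf
    have hX : ∃ c' : k, sh k i m (X j) = X j - C c' := by
      by_cases h : j = i
      · subst h
        exact ⟨m, sh_X_self j m⟩
      · exact ⟨0, by rw [sh_X_ne h, C_0, sub_zero]⟩
    obtain ⟨c', hX⟩ := hX
    rw [hmul, map_mul, hX, sub_mul]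
    constructor
    · exact Submodule.sub_mem _ (X_mul_mem_Nd h1 j)
        (Nd_mono (by omega) (C_mul_mem_Nd h1 c'))
    · have e : X j * sh k i m f - C c' * sh k i m f - X j * f =
          X j * (sh k i m f - f) - C c' * sh k i m f := by ring
      rw [e]
      exact Submodule.sub_mem _ (X_mul_mem_Nd h2 j) (C_mul_mem_Nd h1 c')

lemma sh_mem_Nd (i : Fin n) (m : ℤ) {d : ℕ} {f : MvPolynomial (Fin n) k}
    (hf : f ∈ Nd k n d) : sh k i m f ∈ Nd k n d := by
  refine Nd_induction (motive := fun f => sh k i m f ∈ Nd k n d) ?_ ?_ ?_ hf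
  · rw [map_zero]; exact Submodule.zero_mem _
  · intro f g hf hg
    rw [map_add]; exact Submodule.add_mem _ hf hg
  · intro s c hs
    exact Nd_mono hs (sh_monomial i m s c).1

lemma sh_sub_mem_Nd (i : Fin n) (m : ℤ) {d : ℕ} {f : MvPolynomial (Fin n) k}
    (hf : f ∈ Nd k n (d + 1)) : sh k i m f - f ∈ Nd k n d := by
  refine Nd_induction (motive := fun f => sh k i m f - f ∈ Nd k n d) ?_ ?_ ?_ hf
  · rw [map_zero, sub_zero]; exact Submodule.zero_mem _
  · intro f g hf hg
    rw [map_add, add_sub_add_comm]; exact Submodule.add_mem _ hf hg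
  · intro s c hs
    exact Nd_mono (by omega) (sh_monomial i m s c).2

lemma homogeneousComponent_of_mem {d : ℕ} {f : MvPolynomial (Fin n) k} (hf : f ∈ Nd k n d) :
    homogeneousComponent d f = 0 := by
  ext s
  rw [coeff_homogeneousComponent, coeff_zero]
  split_ifs with h
  · exact hf s h.ge
  · rfl

lemma homogeneousComponent_X_mul (d : ℕ) (f : MvPolynomial (Fin n) k) (j : Fin n) :
    homogeneousComponent (d + 1) (X j * f) = X j * homogeneousComponent d f := by
  classical
  ext s
  rw [coeff_homogeneousComponent, coeff_X_mul', coeff_X_mul']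
  by_cases hj : j ∈ s.support
  · rw [if_pos hj, if_pos hj, coeff_homogeneousComponent]
    have h := degree_sub_single hj
    by_cases h' : s.degree = d + 1
    · rw [if_pos h', if_pos (by omega)]
    · rw [if_neg h', if_neg (by omega)]
  · rw [if_neg hj, if_neg hj, ite_self]

lemma TT_mem_Nd (lam : Fin n → kˣ) (i : Fin n) (m : ℤ) {d : ℕ} {f : MvPolynomial (Fin n) k}
    (hf : f ∈ Nd k n d) : TT lam i m f ∈ Nd k n (d + 1) := by
  rw [TT_apply, sub_mul]
  exact Submodule.smul_mem _ _ (Submodule.sub_mem _ (X_mul_mem_Nd (sh_mem_Nd i m hf) i)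
    (Nd_mono (Nat.le_succ d) (C_mul_mem_Nd (sh_mem_Nd i m hf) _)))

lemma TT_top (lam : Fin n → kˣ) (i : Fin n) (m : ℤ) {d : ℕ} {f : MvPolynomial (Fin n) k}
    (hf : f ∈ Nd k n (d + 1)) : homogeneousComponent (d + 1) (TT lam i m f) =
      (((lam i ^ m : kˣ) : k) • X i) * homogeneousComponent d f := by
  have e : (X i - C (m : k)) * sh k i m f =
      X i * f + (X i * (sh k i m f - f) - C (m : k) * sh k i m f) := by ring
  rw [TT_apply, e, map_smul, map_add, homogeneousComponent_X_mul,
    homogeneousComponent_of_mem (d := d + 1), add_zero, smul_mul_assoc]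
  exact Submodule.sub_mem _ (X_mul_mem_Nd (sh_sub_mem_Nd i m hf) i)
    (C_mul_mem_Nd (sh_mem_Nd i m hf) _)

lemma opM_mem_Nd (lam : Fin n → kˣ) (m : ℤ) {d : ℕ} {f : MvPolynomial (Fin n) k}
    (hf : f ∈ Nd k n d) : opM lam m f ∈ Nd k n (d + 1) := by
  rw [opM_eq, LinearMap.sum_apply]
  exact Submodule.sum_mem _ fun i _ => TT_mem_Nd lam i m hf

lemma opM_top1 (lam : Fin n → kˣ) (m : ℤ) {d : ℕ} {f : MvPolynomial (Fin n) k}
    (hf : f ∈ Nd k n (d + 1)) : homogeneousComponent (d + 1) (opM lam m f) =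
      (∑ i, ((lam i ^ m : kˣ) : k) • X i) * homogeneousComponent d f := by
  rw [opM_eq, LinearMap.sum_apply, map_sum, Finset.sum_mul]
  exact Finset.sum_congr rfl fun i _ => TT_top lam i m hf

lemma prod_mem_Nd (lam : Fin n → kˣ) (w : List ℤ) :
    (w.map (opM lam)).prod 1 ∈ Nd k n (w.length + 1) := by
  induction w with
  | nil =>
    rw [List.map_nil, List.prod_nil, Module.End.one_apply]
    exact monomial_mem_Nd (s := 0) (by simp) 1
  | cons m w ih =>
    rw [List.map_cons, List.prod_cons, Module.End.mul_apply, List.length_cons]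
    exact opM_mem_Nd lam m ih

lemma prod_top (lam : Fin n → kˣ) (w : List ℤ) :
    homogeneousComponent w.length ((w.map (opM lam)).prod 1) =
      (w.map fun m => ∑ i, ((lam i ^ m : kˣ) : k) • (X i : MvPolynomial (Fin n) k)).prod := by
  induction w with
  | nil =>
    rw [List.map_nil, List.prod_nil, Module.End.one_apply, List.map_nil, List.prod_nil,
      List.length_nil, homogeneousComponent_zero]
    simp
  | cons m w ih =>
    rw [List.map_cons, List.prod_cons, Module.End.mul_apply, List.length_cons,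
      opM_top1 lam m (prod_mem_Nd lam w), ih, List.map_cons, List.prod_cons]

lemma totalDegree_le_of_mem {d : ℕ} {f : MvPolynomial (Fin n) k} (hf : f ∈ Nd k n (d + 1)) :
    f.totalDegree ≤ d := by
  rw [totalDegree]
  refine Finset.sup_le fun s hs => ?_
  by_contra h
  refine (mem_support_iff.1 hs) (hf s ?_)
  rw [Finsupp.degree_eq_sum]
  rw [Finsupp.sum_fintype _ _ (fun _ => rfl)] at h
  omega

end

end DT

section
variable {k : Type*} [Field k]

/-- D3 -/
theorem opM_kill {n : ℕ} (lam : Fin n → kˣ) : Rel (opM lam) (⊥ : Submodule k _) (n + 1) 2 := by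
  classical
  unfold Rel
  rw [mem_kill]
  intro x
  have h1 : lin (fprod (opM lam) (List.finRange (n + 1))) (vdm k (n + 1) ^ 2 * x) =
      ∑ c : Fin (n + 1) → Fin n, lin (DT.cprod lam c (List.finRange (n + 1)))
        (vdm k (n + 1) ^ 2 * x) := by
    rw [← LinearMap.sum_apply]
    refine (lin_ext_apply _ _ _ fun g => ?_).symm
    rw [LinearMap.sum_apply, DT.fprod_expand]
    exact Finset.sum_congr rfl fun c _ => lin_mon _ _
  rw [h1, Submodule.mem_bot]
  refine Finset.sum_eq_zero fun c _ => ?_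
  obtain ⟨a, b, hab, hc⟩ := Fintype.exists_ne_map_eq_of_card_lt c (by simp)
  obtain ⟨a, ha, b, hb, hab, h⟩ := DT.cprod_second lam c (List.finRange (n + 1))
    (List.nodup_finRange _) ⟨a, List.mem_finRange a, b, List.mem_finRange b, hab, hc⟩
  obtain ⟨y, hy⟩ := DT.dd_dvd_vdl (k := k) (List.finRange (n + 1)) ha hb hab
  have hk : dd k a b ^ 2 ∈ kill (DT.cprod lam c (List.finRange (n + 1)))
      (⊥ : Submodule k (Module.End k (MvPolynomial (Fin n) k))) := by
    rw [mem_kill_iff_mon]
    intro g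
    rw [DT.dd_sq_mul_mon, map_add, map_sub, map_smul, lin_mon, lin_mon, lin_mon, h g]
    exact Submodule.zero_mem _
  have h2 := (mem_kill.1 hk) (y ^ 2 * x)
  rw [Submodule.mem_bot] at h2
  rw [vdm, hy, mul_pow, mul_assoc]
  exact h2

/-- D5a -/
theorem opM_word_degree {n : ℕ} (lam : Fin n → kˣ) (w : List ℤ) :
    ((w.map (opM lam)).prod 1).totalDegree ≤ w.length :=
  DT.totalDegree_le_of_mem (DT.prod_mem_Nd lam w)

/-- D5b -/
theorem opM_top {n l : ℕ} (lam : Fin n → kˣ) (F : LP k (Fin l → ℤ)) :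
    MvPolynomial.homogeneousComponent l ((lin (fprod (opM lam) (List.finRange l)) F) 1) =
      ∑ c : Fin l → Fin n, evalU (fun j => lam (c j)) F • ∏ j, MvPolynomial.X (c j) := by
  classical
  induction F using LP_induction with
  | h0 => simp
  | hadd x y hx hy =>
    rw [map_add, LinearMap.add_apply, map_add, hx, hy, ← Finset.sum_add_distrib]
    refine Finset.sum_congr rfl fun c _ => ?_
    rw [map_add, add_smul]
  | hmon g c =>
    rw [map_smul, LinearMap.smul_apply, map_smul, lin_mon]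
    have h1 := DT.prod_top lam ((List.finRange l).map g)
    rw [List.length_map, List.length_finRange, List.map_map, List.map_map] at h1
    have h2 : fprod (opM lam) (List.finRange l) g =
        (List.map (opM lam ∘ g) (List.finRange l)).prod := rfl
    rw [h2, h1, ← List.ofFn_eq_map, List.prod_ofFn]
    simp only [Function.comp]
    rw [Finset.prod_univ_sum, Fintype.piFinset_univ, Finset.smul_sum]
    refine Finset.sum_congr rfl fun d _ => ?_
    rw [map_smul, smul_assoc]
    congr 1
    have h3 : evalU (fun j => lam (d j)) (mon g : LP k (Fin l → ℤ)) =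
        ((∏ j, lam (d j) ^ g j : kˣ) : k) := by
      simp [evalU, mon]
    rw [h3, Finset.prod_smul]
    push_cast
    rfl
end

end Pool.Agent.H48.Witt
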