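import Pool.Agent.H48.Witt.Sym
import Pool.Agent.H48.Witt.Adj

/-!
# Divisibility by Vandermonde products
-/

set_option autoImplicit false

namespace Pool.Agent.H48.Witt

open Finset

variable {k : Type*} [Field k]

section

variable {ι : Type*} [DecidableEq ι]

lemma tt_inj {a b : ι} (h : tt k a = tt k b) : a = b := by
  by_contra hab
  have h1 : (Pi.single a 1 : ι → ℤ) ≠ Pi.single b 1 := by
    intro h2
    have := congrFun h2 a
    rw [Pi.single_eq_same, Pi.single_eq_of_ne hab] at this
    exact one_ne_zero this
  have h2 : (tt k a : LP k (ι → ℤ)).coeff (Pi.single a 1) = 1 := by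
    simp [tt, mon]
  rw [h] at h2
  simp [tt, mon, h1.symm] at h2

lemma dd_ne_zero {a b : ι} (h : a ≠ b) : dd k a b ≠ 0 := by
  intro h0
  rw [dd, sub_eq_zero] at h0
  exact h (tt_inj h0)

lemma vdl_ne_zero {ℓ : List ι} (h : ℓ.Nodup) : vdl k ℓ ≠ 0 := by
  induction ℓ with
  | nil => exact one_ne_zero
  | cons a ℓ ih =>
    rw [vdl]
    apply mul_ne_zero _ (ih (List.nodup_cons.mp h).2)
    apply List.prod_ne_zero
    intro h0
    obtain ⟨b, hb, hb'⟩ := List.mem_map.mp h0
    refine dd_ne_zero (k := k) ?_ hb'
    rintro rfl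
    exact (List.nodup_cons.mp h).1 hb

lemma vdm_ne_zero (l : ℕ) : vdm k l ≠ 0 := vdl_ne_zero (List.nodup_finRange l)

/-- substitution `t_a := t_b` on exponents -/
def subZ (a b : ι) : (ι → ℤ) →+ (ι → ℤ) where
  toFun := fun μ => μ - Pi.single a (μ a) + Pi.single b (μ a)
  map_zero' := by simp
  map_add' := by
    intro x y
    rw [Pi.add_apply, Pi.single_add, Pi.single_add]
    abel

/-- substitution `t_a := t_b` -/
noncomputable def subR (k : Type*) [Field k] (a b : ι) : LP k (ι → ℤ) →+* LP k (ι → ℤ) :=
  AddMonoidAlgebra.mapDomainRingHom k (subZ a b)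

lemma subR_mon (a b : ι) (μ : ι → ℤ) :
    subR k a b (mon μ) = mon (μ - Pi.single a (μ a) + Pi.single b (μ a)) := by
  simp [subR, mon, subZ]

lemma subR_smul (a b : ι) (c : k) (x : LP k (ι → ℤ)) :
    subR k a b (c • x) = c • subR k a b x := by
  induction x using LP_induction with
  | h0 => simp
  | hadd x y hx hy => simp [hx, hy]
  | hmon g d =>
    rw [smul_smul]
    simp [subR, mon]

lemma subR_tt_self (a b : ι) : subR k a b (tt k a) = tt k b := by
  rw [tt, subR_mon, tt]
  simp

lemma subR_tt_ne {a b c : ι} (h : c ≠ a) : subR k a b (tt k c) = tt k c := by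
  rw [tt, subR_mon]
  simp [h.symm]

lemma subR_dd_self (a b : ι) : subR k a b (dd k a b) = 0 := by
  by_cases h : b = a
  · subst h; simp [dd]
  · rw [dd, map_sub, subR_tt_self, subR_tt_ne h, sub_self]

lemma subR_dd_ne {a b c d : ι} (hc : c ≠ a) (hd : d ≠ a) :
    subR k a b (dd k c d) = dd k c d := by
  rw [dd, map_sub, subR_tt_ne hc, subR_tt_ne hd]

lemma subR_dd_left {a b c : ι} (hc : c ≠ a) : subR k a b (dd k a c) = dd k b c := by
  rw [dd, map_sub, subR_tt_self, subR_tt_ne hc, dd]

lemma dd_dvd_sub_subR (a b : ι) (F : LP k (ι → ℤ)) : dd k a b ∣ F - subR k a b F := by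
  induction F using LP_induction with
  | h0 => simp
  | hadd x y hx hy =>
    rw [map_add, add_sub_add_comm]; exact dvd_add hx hy
  | hmon μ c =>
    rw [subR_smul, ← smul_sub, subR_mon]
    have : (mon μ - mon (μ - Pi.single a (μ a) + Pi.single b (μ a)) : LP k (ι → ℤ)) =
        mon (μ - Pi.single a (μ a)) * (mon (Pi.single a (μ a)) - mon (Pi.single b (μ a))) := by
      rw [mul_sub, mon_mul_mon, mon_mul_mon, sub_add_cancel]
    rw [this, Algebra.smul_def]
    exact dvd_mul_of_dvd_right (dvd_mul_of_dvd_right (dd_dvd_single a b _) _) _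

lemma dd_dvd_iff (a b : ι) (F : LP k (ι → ℤ)) : dd k a b ∣ F ↔ subR k a b F = 0 := by
  constructor
  · rintro ⟨G, rfl⟩
    rw [map_mul, subR_dd_self, zero_mul]
  · intro h
    have := dd_dvd_sub_subR (k := k) a b F
    rwa [h, sub_zero] at this

lemma subR_vdl {a b : ι} {S : List ι} (ha : a ∉ S) : subR k a b (vdl k S) = vdl k S := by
  induction S with
  | nil => rw [vdl, map_one]
  | cons c S ih =>
    have hc : c ≠ a := fun h => ha (h ▸ List.mem_cons_self)
    rw [vdl, map_mul, ih (fun h => ha (List.mem_cons_of_mem _ h)), map_list_prod, List.map_map]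
    congr 2
    apply List.map_congr_left
    intro d hd
    have hd' : d ≠ a := fun h => ha (h ▸ List.mem_cons_of_mem _ hd)
    simp [subR_dd_ne hc hd']

/-- A function divisible by all `t_a - t_b`, `a, b ∈ S`, is divisible by the Vandermonde product. -/
lemma vdl_dvd {S : List ι} (hS : S.Nodup) {B : LP k (ι → ℤ)}
    (hB : ∀ a ∈ S, ∀ b ∈ S, a ≠ b → dd k a b ∣ B) : vdl k S ∣ B := by
  induction S with
  | nil => exact one_dvd _
  | cons a S ih =>
    have ha : a ∉ S := (List.nodup_cons.mp hS).1
    have hS' := (List.nodup_cons.mp hS).2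
    obtain ⟨C, hC⟩ := ih hS' (fun c hc d hd => hB c (List.mem_cons_of_mem _ hc) d
      (List.mem_cons_of_mem _ hd))
    have key : ∀ T : List ι, T.Nodup → (∀ b ∈ T, b ∈ S) →
        (T.map (fun b => dd k a b)).prod ∣ C := by
      intro T
      induction T with
      | nil => intro _ _; exact one_dvd _
      | cons b T ihT =>
        intro hT hTS
        obtain ⟨C', hC'⟩ := ihT (List.nodup_cons.mp hT).2
          (fun c hc => hTS c (List.mem_cons_of_mem _ hc))
        have hbS : b ∈ S := hTS b List.mem_cons_self
        have hab : a ≠ b := fun h => ha (h ▸ hbS)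
        have h1 := (dd_dvd_iff a b B).mp (hB a List.mem_cons_self b
          (List.mem_cons_of_mem _ hbS) hab)
        rw [hC, hC', map_mul, map_mul, subR_vdl ha] at h1
        have h2 : subR k a b C' = 0 := by
          rcases mul_eq_zero.mp h1 with h | h
          · exact absurd h (vdl_ne_zero hS')
          rcases mul_eq_zero.mp h with h | h
          · exfalso
            rw [map_list_prod, List.map_map] at h
            refine List.prod_ne_zero ?_ h
            intro h0
            obtain ⟨c, hc, hc'⟩ := List.mem_map.mp h0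
            have hca : c ≠ a := fun h => ha (h ▸ hTS c (List.mem_cons_of_mem _ hc))
            simp only [Function.comp_apply] at hc'
            rw [subR_dd_left hca] at hc'
            refine dd_ne_zero ?_ hc'
            rintro rfl
            exact (List.nodup_cons.mp hT).1 hc
          · exact h
        obtain ⟨C'', hC''⟩ := (dd_dvd_iff a b C').mpr h2
        rw [hC', hC'', List.map_cons, List.prod_cons]
        exact ⟨C'', by ring⟩
    obtain ⟨D, hD⟩ := key S hS' (fun b hb => hb)
    rw [hC, hD, vdl]
    exact ⟨D, by ring⟩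

/-- the difference of a function and its transposed function -/
lemma dd_dvd_sub_swap (a b : ι) (F : LP k (ι → ℤ)) :
    dd k a b ∣ F - permL k (Equiv.swap a b) F := by
  by_cases hab : a = b
  · subst hab
    have : permL k (Equiv.swap a a) F = F := by
      induction F using LP_induction with
      | h0 => simp
      | hadd x y hx hy => rw [map_add, hx, hy]
      | hmon μ c => rw [map_smul, permL_mon, Equiv.swap_self]; rfl
    rw [this, sub_self]
    exact dvd_zero _
  rw [dd_dvd_iff, map_sub, sub_eq_zero]
  induction F using LP_induction with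
  | h0 => simp
  | hadd x y hx hy => rw [map_add, map_add, map_add, hx, hy]
  | hmon μ c =>
    rw [LinearMap.map_smul, subR_smul, subR_smul, permL_mon, subR_mon, subR_mon]
    congr 2
    funext i
    simp only [Pi.add_apply, Pi.sub_apply, Function.comp_apply, Equiv.swap_apply_left]
    by_cases hia : i = a
    · subst hia
      simp [hab]
    · by_cases hib : i = b
      · subst hib
        simp [hia]
        ring
      · simp [hia, hib, Equiv.swap_apply_of_ne_of_ne hia hib]

end

/-! ### The sign of a permutation acting on a Vandermonde product -/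

section Sign

variable {ι : Type*} [DecidableEq ι]

/-- the Vandermonde product of a map `f : Fin m → ι` as a determinant, up to a sign that does not
depend on `f` -/
lemma vdl_map_comp_perm (m : ℕ) (f : Fin m → ι) (π : Equiv.Perm (Fin m)) :
    vdl k ((List.finRange m).map (f ∘ π)) =
      ((Equiv.Perm.sign π : ℤ) : LP k (ι → ℤ)) * vdl k ((List.finRange m).map f) := by
  have hprod : ∀ (m : ℕ) (g : Fin m → ι), vdl k ((List.finRange m).map g) =
      ∏ i : Fin m, ∏ j ∈ Finset.Ioi i, (tt k (g i) - tt k (g j)) := by
    intro m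
    induction m with
    | zero => intro g; simp [vdl]
    | succ m ih =>
      intro g
      rw [List.finRange_succ, List.map_cons, List.map_map, vdl, ih, Fin.prod_univ_succ]
      congr 1
      · rw [List.map_map, Fin.prod_Ioi_zero, Fin.prod_univ_def]
        rfl
      · refine Finset.prod_congr rfl fun i _ => ?_
        rw [Fin.prod_Ioi_succ]
        rfl
  have hdet : ∀ g : Fin m → ι, ∃ s : LP k (ι → ℤ),
      s = (-1) ^ (∑ i : Fin m, (Finset.Ioi i).card) ∧
      vdl k ((List.finRange m).map g) = s * (Matrix.vandermonde (fun i => tt k (g i))).det := by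
    intro g
    refine ⟨_, rfl, ?_⟩
    rw [hprod, Matrix.det_vandermonde, ← Finset.prod_pow_eq_pow_sum, ← Finset.prod_mul_distrib]
    refine Finset.prod_congr rfl fun i _ => ?_
    rw [← Finset.prod_const, ← Finset.prod_mul_distrib]
    refine Finset.prod_congr rfl fun j _ => ?_
    ring
  obtain ⟨s, hs, h1⟩ := hdet (f ∘ π)
  obtain ⟨s', hs', h2⟩ := hdet f
  rw [h1, h2, hs, hs']
  have : Matrix.vandermonde (fun i => tt k ((f ∘ π) i)) =
      (Matrix.vandermonde (fun i => tt k (f i))).submatrix π id := by
    ext i j
    simp [Matrix.vandermonde_apply]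
  rw [this, Matrix.det_permute]
  ring

end Sign

end Pool.Agent.H48.Witt
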