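import Pool.Agent.H48.Witt.Kill
import Pool.Agent.H48.Witt.Defs2

/-!
# Windows
-/

set_option autoImplicit false

namespace Pool.Agent.H48.Witt

open Finset

variable {k : Type*} [Field k] {A : Type*} [Ring A] [Algebra k A]

section Ext

variable {κ ι : Type*}

open Classical in
/-- Extension by zero of exponents along an injection. -/
noncomputable def extZ (emb : κ → ι) : (κ → ℤ) →+ (ι → ℤ) where
  toFun := fun μ i => if h : ∃ a, emb a = i then μ h.choose else 0
  map_zero' := by
    funext i
    simp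
  map_add' := by
    intro x y
    funext i
    by_cases h : ∃ a, emb a = i
    · simp only [Pi.add_apply, h, dite_true]
    · simp only [Pi.add_apply, h, dite_false, add_zero]

lemma extZ_apply {emb : κ → ι} (h : Function.Injective emb) (μ : κ → ℤ) (a : κ) :
    extZ emb μ (emb a) = μ a := by
  have hh : ∃ b, emb b = emb a := ⟨a, rfl⟩
  simp only [extZ, AddMonoidHom.coe_mk, ZeroHom.coe_mk, hh, dite_true]
  congr 1
  exact h hh.choose_spec

lemma extZ_apply' {emb : κ → ι} (μ : κ → ℤ) {i : ι} (hi : ¬ ∃ a, emb a = i) :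
    extZ emb μ i = 0 := by
  simp only [extZ, AddMonoidHom.coe_mk, ZeroHom.coe_mk, hi, dite_false]

/-- The ring homomorphism renaming variables along an injection. -/
noncomputable def renL (k : Type*) [Field k] (emb : κ → ι) : LP k (κ → ℤ) →+* LP k (ι → ℤ) :=
  AddMonoidAlgebra.mapDomainRingHom k (extZ emb)

lemma renL_mon (emb : κ → ι) (μ : κ → ℤ) : renL k emb (mon μ) = mon (extZ emb μ) := by
  simp [renL, mon]

lemma renL_smul (emb : κ → ι) (c : k) (x : LP k (κ → ℤ)) :
    renL k emb (c • x) = c • renL k emb x := by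
  induction x using LP_induction with
  | h0 => simp
  | hadd x y hx hy => simp [hx, hy]
  | hmon g d =>
    rw [smul_smul]
    simp [renL, mon]

variable [DecidableEq κ] [DecidableEq ι]

lemma extZ_single {emb : κ → ι} (h : Function.Injective emb) (a : κ) (c : ℤ) :
    extZ emb (Pi.single a c) = Pi.single (emb a) c := by
  funext i
  by_cases hi : ∃ b, emb b = i
  · obtain ⟨b, rfl⟩ := hi
    rw [extZ_apply h]
    by_cases hb : b = a
    · subst hb; simp
    · rw [Pi.single_eq_of_ne hb, Pi.single_eq_of_ne (fun h' => hb (h h'))]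
  · rw [extZ_apply' _ hi, Pi.single_eq_of_ne]
    rintro rfl
    exact hi ⟨a, rfl⟩

lemma renL_tt {emb : κ → ι} (h : Function.Injective emb) (a : κ) :
    renL k emb (tt k a) = tt k (emb a) := by
  rw [tt, renL_mon, extZ_single h, tt]

lemma renL_dd {emb : κ → ι} (h : Function.Injective emb) (a b : κ) :
    renL k emb (dd k a b) = dd k (emb a) (emb b) := by
  rw [dd, map_sub, renL_tt h, renL_tt h, dd]

lemma renL_vdl {emb : κ → ι} (h : Function.Injective emb) (ℓ : List κ) :
    renL k emb (vdl k ℓ) = vdl k (ℓ.map emb) := by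
  induction ℓ with
  | nil => simp [vdl]
  | cons a ℓ ih =>
    simp only [vdl, List.map_cons, map_mul, ih, map_list_prod, List.map_map]
    congr 2
    apply List.map_congr_left
    intro b _
    simp [renL_dd h]

omit [DecidableEq κ] [DecidableEq ι] in
lemma window_lin (e : ℤ → A) {emb : κ → ι} (h : Function.Injective emb) (ℓ : List κ)
    {ℓ₁ ℓ₂ : List ι} (h₁ : ∀ i ∈ ℓ₁, ¬ ∃ a, emb a = i) (h₂ : ∀ i ∈ ℓ₂, ¬ ∃ a, emb a = i)
    (G : LP k (κ → ℤ)) (ν : ι → ℤ) :
    lin (fprod e (ℓ₁ ++ ℓ.map emb ++ ℓ₂)) (renL k emb G * mon ν) =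
      fprod e ℓ₁ ν * lin (fprod e ℓ) (G * mon (ν ∘ emb)) * fprod e ℓ₂ ν := by
  induction G using LP_induction with
  | h0 => simp
  | hadd x y hx hy => simp only [map_add, add_mul, mul_add, hx, hy]
  | hmon μ c =>
    rw [renL_smul, smul_mul_assoc, smul_mul_assoc, map_smul, map_smul, mul_smul_comm,
      smul_mul_assoc]
    congr 1
    rw [renL_mon, mon_mul_mon, mon_mul_mon, lin_mon, lin_mon, fprod_append, fprod_append]
    have e1 : fprod e ℓ₁ (extZ emb μ + ν) = fprod e ℓ₁ ν := by
      apply fprod_congr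
      intro i hi
      simp [extZ_apply' μ (h₁ i hi)]
    have e2 : fprod e ℓ₂ (extZ emb μ + ν) = fprod e ℓ₂ ν := by
      apply fprod_congr
      intro i hi
      simp [extZ_apply' μ (h₂ i hi)]
    have e3 : fprod e (ℓ.map emb) (extZ emb μ + ν) = fprod e ℓ (μ + ν ∘ emb) := by
      unfold fprod
      rw [List.map_map]
      congr 1
      apply List.map_congr_left
      intro i _
      simp [extZ_apply h]
    rw [e1, e2, e3]

end Ext

variable {ι : Type*} [DecidableEq ι]

lemma window (e : ℤ → A) {N : Submodule k A} (hN : IsTS N) {d M : ℕ} (hR : Rel e N d M)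
    {ℓ₁ w ℓ₂ : List ι} (hn : (ℓ₁ ++ w ++ ℓ₂).Nodup) (hw : w.length = d) :
    vdl k w ^ M ∈ kill (fprod e (ℓ₁ ++ w ++ ℓ₂)) N := by
  subst hw
  have hnw : w.Nodup := by
    rw [List.nodup_append, List.nodup_append] at hn
    exact hn.1.2.1
  have hinj : Function.Injective (fun i : Fin w.length => w.get i) :=
    List.nodup_iff_injective_get.mp hnw
  have hmap : (List.finRange w.length).map (fun i => w.get i) = w := by
    simp
  rw [mem_kill_iff_mon]
  intro ν
  have h1 : ∀ i ∈ ℓ₁, ¬ ∃ a : Fin w.length, w.get a = i := by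
    rintro i hi ⟨a, rfl⟩
    rw [List.nodup_append, List.nodup_append] at hn
    exact hn.1.2.2 _ hi _ (List.get_mem w a) rfl
  have h2 : ∀ i ∈ ℓ₂, ¬ ∃ a : Fin w.length, w.get a = i := by
    rintro i hi ⟨a, rfl⟩
    rw [List.nodup_append, List.nodup_append] at hn
    exact hn.2.2 _ (List.mem_append_right _ (List.get_mem w a)) _ hi rfl
  have key := window_lin (k := k) e hinj (List.finRange w.length) h1 h2 (vdm k w.length ^ M) ν
  rw [hmap] at key
  rw [map_pow, vdm, renL_vdl hinj, hmap] at key
  rw [key]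
  apply hN.right
  apply hN.left
  exact hR _

end Pool.Agent.H48.Witt
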