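import Pool.Agent.H48.Witt.Sym
import Pool.Agent.H48.Witt.Div
import Pool.Agent.H48.Witt.DTop
import Pool.Agent.H48.Witt.Window

/-!
# The annihilator of the delta modules is generated by the relation with `Δ²`
-/

set_option autoImplicit false

namespace Pool.Agent.H48.Witt

open Finset

variable {k : Type*} [Field k] {A : Type*} [Ring A] [Algebra k A]

lemma evalU_permL' {l : ℕ} (x : Fin l → kˣ) (σ : Equiv.Perm (Fin l)) (G : LP k (Fin l → ℤ)) :
    evalU x (permL k σ⁻¹ G) = evalU (fun j => x (σ j)) G := by
  induction G using LP_induction with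
  | h0 => simp
  | hadd a b ha hb => rw [map_add, map_add, map_add, ha, hb]
  | hmon μ c =>
    rw [map_smul, map_smul, map_smul, permL_mon, evalU_mon, evalU_mon]
    congr 2
    rw [← Equiv.prod_comp σ]
    refine Finset.prod_congr rfl fun i _ => ?_
    simp

/-- two maps with fibres of equal cardinality differ by a permutation -/
lemma exists_perm_of_card {l n : ℕ} (c c₀ : Fin l → Fin n)
    (h : ∀ i, Fintype.card {j // c j = i} = Fintype.card {j // c₀ j = i}) :
    ∃ σ : Equiv.Perm (Fin l), c = c₀ ∘ σ := by
  have e : ∀ i, {j // c j = i} ≃ {j // c₀ j = i} := fun i => Fintype.equivOfCardEq (h i)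
  refine ⟨(Equiv.sigmaFiberEquiv c).symm.trans
    ((Equiv.sigmaCongrRight e).trans (Equiv.sigmaFiberEquiv c₀)), ?_⟩
  funext j
  simp only [Function.comp_apply, Equiv.trans_apply]
  have := (e (c j) ⟨j, rfl⟩).2
  simpa [Equiv.sigmaFiberEquiv] using this.symm

/-- the exponent of `∏ j, X (c j)` -/
noncomputable def expo {l n : ℕ} (c : Fin l → Fin n) : Fin n →₀ ℕ :=
  ∑ j, Finsupp.single (c j) 1

lemma expo_apply {l n : ℕ} (c : Fin l → Fin n) (i : Fin n) :
    expo c i = Fintype.card {j // c j = i} := by
  rw [expo, Finsupp.finsetSum_apply, Fintype.card_subtype]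
  simp [Finsupp.single_apply]

lemma prod_X_eq {l n : ℕ} (c : Fin l → Fin n) :
    (∏ j, (MvPolynomial.X (c j) : MvPolynomial (Fin n) k)) =
      MvPolynomial.monomial (expo c) 1 := by
  rw [expo, MvPolynomial.monomial_sum_one]
  rfl

/-- symmetric functions: all values at points with few distinct coordinates vanish -/
lemma evalU_eq_zero_of_sum [CharZero k] {l n : ℕ} {F : LP k (Fin l → ℤ)}
    (hF : ∀ σ : Equiv.Perm (Fin l), permL k σ F = F) (lam : Fin n → kˣ)
    (h : ∑ c : Fin l → Fin n, evalU (fun j => lam (c j)) F •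
      ∏ j, (MvPolynomial.X (c j) : MvPolynomial (Fin n) k) = 0) (c₀ : Fin l → Fin n) :
    evalU (fun j => lam (c₀ j)) F = 0 := by
  classical
  have h1 := congrArg (MvPolynomial.coeff (expo c₀)) h
  rw [MvPolynomial.coeff_sum, MvPolynomial.coeff_zero] at h1
  have h2 : ∀ c : Fin l → Fin n, MvPolynomial.coeff (expo c₀) (evalU (fun j => lam (c j)) F •
      ∏ j, (MvPolynomial.X (c j) : MvPolynomial (Fin n) k)) =
      if expo c = expo c₀ then evalU (fun j => lam (c₀ j)) F else 0 := by
    intro c
    rw [MvPolynomial.coeff_smul, prod_X_eq, MvPolynomial.coeff_monomial, smul_eq_mul]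
    split_ifs with hc
    · obtain ⟨σ, rfl⟩ := exists_perm_of_card c c₀ (fun i => by
        rw [← expo_apply, ← expo_apply, hc])
      have := evalU_permL' (fun j => lam (c₀ j)) σ F
      rw [hF] at this
      rw [mul_one, this]
      rfl
    · rw [mul_zero]
  rw [Finset.sum_congr rfl (fun c _ => h2 c), ← Finset.sum_filter, Finset.sum_const,
    smul_eq_zero] at h1
  rcases h1 with h1 | h1
  · rw [Finset.card_eq_zero] at h1
    have : c₀ ∈ Finset.univ.filter (fun c : Fin l → Fin n => expo c = expo c₀) := by simp
    rw [h1] at this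
    simp at this
  · exact h1

/-- every point with at most `n` distinct coordinates factors through `Fin n` -/
lemma exists_factor {l n : ℕ} (x : Fin l → kˣ) (hx : Set.ncard (Set.range x) ≤ n) :
    l = 0 ∨ ∃ (lam : Fin n → kˣ) (c : Fin l → Fin n), x = fun j => lam (c j) := by
  classical
  rcases Nat.eq_zero_or_pos l with hl | hl
  · exact Or.inl hl
  right
  have hfin : (Set.range x).Finite := Set.finite_range x
  have := hfin.fintype
  have hcard : Fintype.card (Set.range x) ≤ Fintype.card (Fin n) := by
    rw [Fintype.card_fin, ← Nat.card_eq_fintype_card, Nat.card_coe_set_eq]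
    exact hx
  obtain ⟨f⟩ := Function.Embedding.nonempty_of_card_le hcard
  refine ⟨fun i => if h : ∃ y, f y = i then (h.choose : kˣ) else 1,
    fun j => f ⟨x j, Set.mem_range_self j⟩, ?_⟩
  funext j
  have hh : ∃ y, f y = f ⟨x j, Set.mem_range_self j⟩ := ⟨_, rfl⟩
  simp only [hh, dite_true]
  rw [f.injective hh.choose_spec]

/-! ### Antisymmetrisation -/

section Alt

variable {l m : ℕ} (f : Fin m ↪ Fin l)

/-- the permutation of `Fin l` induced by a permutation of `Fin m` -/
noncomputable def via (π : Equiv.Perm (Fin m)) : Equiv.Perm (Fin l) := π.viaEmbedding f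

lemma via_apply (π : Equiv.Perm (Fin m)) (i : Fin m) : via f π (f i) = f (π i) :=
  Equiv.Perm.viaEmbedding_apply π f i

lemma via_apply_of_notMem (π : Equiv.Perm (Fin m)) (x : Fin l) (hx : x ∉ Set.range f) :
    via f π x = x :=
  Equiv.Perm.viaEmbedding_apply_of_notMem π f x hx

lemma via_mul (π π' : Equiv.Perm (Fin m)) : via f (π * π') = via f π * via f π' := by
  ext x
  by_cases hx : x ∈ Set.range f
  · obtain ⟨i, rfl⟩ := hx
    simp [via_apply]
  · rw [Equiv.Perm.mul_apply, via_apply_of_notMem f _ x hx, via_apply_of_notMem f _ x hx,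
      via_apply_of_notMem f _ x hx]

lemma via_swap (i j : Fin m) : via f (Equiv.swap i j) = Equiv.swap (f i) (f j) := by
  ext x
  by_cases hx : x ∈ Set.range f
  · obtain ⟨a, rfl⟩ := hx
    rw [via_apply, f.injective.swap_apply]
  · rw [via_apply_of_notMem f _ x hx, Equiv.swap_apply_of_ne_of_ne]
    · rintro rfl; exact hx ⟨i, rfl⟩
    · rintro rfl; exact hx ⟨j, rfl⟩

/-- the alternating sum -/
noncomputable def alt (k : Type*) [Field k] {l m : ℕ} (f : Fin m ↪ Fin l) (g : LP k (Fin l → ℤ)) :
    LP k (Fin l → ℤ) :=
  ∑ π : Equiv.Perm (Fin m), ((Equiv.Perm.sign π : ℤ) : LP k (Fin l → ℤ)) *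
    permL k (via f π)⁻¹ g

lemma permL_swap_alt {i j : Fin m} (hij : i ≠ j) (g : LP k (Fin l → ℤ)) :
    permL k (Equiv.swap (f i) (f j)) (alt k f g) = - alt k f g := by
  rw [alt, map_sum, ← Finset.sum_neg_distrib,
    ← Equiv.sum_comp (Equiv.mulLeft (Equiv.swap i j))]
  refine Finset.sum_congr rfl fun π _ => ?_
  rw [Equiv.coe_mulLeft, permL_eq, map_mul, map_intCast, ← permL_eq, permL_permL, via_mul,
    via_swap, mul_inv_rev, Equiv.swap_inv, mul_assoc, Equiv.swap_mul_self, mul_one,
    Equiv.Perm.sign_mul, Equiv.Perm.sign_swap hij]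
  push_cast
  ring

lemma vdl_dvd_alt [CharZero k] (g : LP k (Fin l → ℤ)) :
    vdl k ((List.finRange m).map f) ∣ alt k f g := by
  apply vdl_dvd ((List.nodup_finRange m).map f.injective)
  intro a ha b hb hab
  obtain ⟨i, _, rfl⟩ := List.mem_map.mp ha
  obtain ⟨j, _, rfl⟩ := List.mem_map.mp hb
  have hij : i ≠ j := fun h => hab (by rw [h])
  have h1 := dd_dvd_sub_swap (k := k) (f i) (f j) (alt k f g)
  rw [permL_swap_alt f hij, sub_neg_eq_add, ← two_smul k] at h1
  have h2 : alt k f g = (2 : k)⁻¹ • ((2 : k) • alt k f g) := by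
    rw [smul_smul, inv_mul_cancel₀ two_ne_zero, one_smul]
  rw [h2, Algebra.smul_def (2 : k)⁻¹]
  exact dvd_mul_of_dvd_right h1 _

lemma sum_permL_mul (g : LP k (Fin l → ℤ)) :
    ∑ π : Equiv.Perm (Fin m), permL k (via f π)⁻¹ (vdl k ((List.finRange m).map f) * g) =
      vdl k ((List.finRange m).map f) * alt k f g := by
  rw [alt, Finset.mul_sum]
  refine Finset.sum_congr rfl fun π _ => ?_
  rw [permL_mul, permL_vdl, List.map_map]
  have h1 : (List.finRange m).map ((via f π)⁻¹.symm ∘ f) = (List.finRange m).map (f ∘ π) := by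
    apply List.map_congr_left
    intro i _
    simp only [Function.comp_apply]
    exact via_apply f π i
  rw [h1, vdl_map_comp_perm]
  ring

end Alt

lemma EE_vdl_mem [CharZero k] (e : ℤ → A) (he : WittRel k e) {N : Submodule k A} (hN : IsTS N)
    {n l : ℕ} (hR : Rel e N (n + 1) 2) {S : List (Fin l)} (hS : S.Nodup) (hlen : S.length = n + 1)
    (g : LP k (Fin l → ℤ)) :
    EE e (List.finRange l) (vdl k S * g) ∈ N ⊔ filLT k e l := by
  set m := S.length with hm
  let f : Fin m ↪ Fin l := ⟨fun i => S.get i, List.nodup_iff_injective_get.mp hS⟩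
  have hSf' : (List.finRange S.length).map (fun i => S.get i) = S := by simp
  have hSf : (List.finRange m).map f = S := hSf'
  have hfac : ((m.factorial : ℕ) : k) ≠ 0 := Nat.cast_ne_zero.mpr (Nat.factorial_ne_zero m)
  obtain ⟨B, hB⟩ := vdl_dvd_alt (k := k) f g
  have h1 := sum_permL_mul (k := k) f g
  rw [hB, hSf] at h1
  -- the symmetrised element
  have h2 : EE e (List.finRange l) (∑ π : Equiv.Perm (Fin m), permL k (via f π)⁻¹
      (vdl k S * g)) ∈ N ⊔ filLT k e l := by
    rw [h1, ← mul_assoc, ← pow_two]
    set rest := (List.finRange l).filter (fun x => x ∉ S) with hrest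
    have hnd : (S ++ rest).Nodup := by
      rw [List.nodup_append]
      refine ⟨hS, (List.nodup_finRange l).filter _, ?_⟩
      intro a ha b hb hab
      subst hab
      have := (List.mem_filter.mp hb).2
      simp only [decide_not, Bool.not_eq_eq_eq_not, Bool.not_true, decide_eq_false_iff_not] at this
      exact this ha
    have hperm : (List.finRange l).Perm (S ++ rest) := by
      rw [List.perm_ext_iff_of_nodup (List.nodup_finRange l) hnd]
      intro a
      simp only [List.mem_finRange, List.mem_append, true_iff]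
      by_cases ha : a ∈ S
      · exact Or.inl ha
      · exact Or.inr (by rw [hrest, List.mem_filter]; simp [ha])
    have h3 := lin_perm_mem_filLT (k := k) e he hperm (vdl k S ^ 2 * B)
    rw [List.length_finRange] at h3
    have h4 : lin (fprod e (S ++ rest)) (vdl k S ^ 2 * B) ∈ N := by
      have := window e hN hR (ℓ₁ := []) (w := S) (ℓ₂ := rest) (by simpa using hnd) hlen
      rw [List.nil_append, mem_kill] at this
      exact this B
    have : EE e (List.finRange l) (vdl k S ^ 2 * B) =
        lin (fprod e (S ++ rest)) (vdl k S ^ 2 * B) +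
        (lin (fprod e (List.finRange l)) (vdl k S ^ 2 * B) -
          lin (fprod e (S ++ rest)) (vdl k S ^ 2 * B)) := by
      rw [EE]; abel
    rw [this]
    exact Submodule.add_mem_sup h4 h3
  have h5 : (m.factorial : k) • EE e (List.finRange l) (vdl k S * g) -
      EE e (List.finRange l) (∑ π : Equiv.Perm (Fin m), permL k (via f π)⁻¹
      (vdl k S * g)) ∈ filLT k e l := by
    have h6 : (m.factorial : k) • EE e (List.finRange l) (vdl k S * g) =
        ∑ π : Equiv.Perm (Fin m), EE e (List.finRange l) (vdl k S * g) := by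
      rw [Finset.sum_const, Finset.card_univ, Fintype.card_perm, Fintype.card_fin,
        ← Nat.cast_smul_eq_nsmul k]
    rw [h6, map_sum, ← Finset.sum_sub_distrib]
    exact Submodule.sum_mem _ (fun π _ => EE_permL_mem e he _ _)
  have h7 : (m.factorial : k) • EE e (List.finRange l) (vdl k S * g) ∈ N ⊔ filLT k e l := by
    have := Submodule.add_mem _ (Submodule.mem_sup_right (S := N) h5) h2
    simpa using this
  have h8 := Submodule.smul_mem _ ((m.factorial : k)⁻¹) h7
  rwa [smul_smul, inv_mul_cancel₀ hfac, one_smul] at h8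

theorem ann_le [CharZero k] (e : ℤ → A) (he : WittRel k e)
    (hgen : Algebra.adjoin k (Set.range e) = ⊤) (N : Submodule k A) (hN : IsTS N) (n : ℕ)
    (hR : Rel e N (n + 1) 2)
    (ρ : (Fin n → kˣ) → (A →ₐ[k] Module.End k (MvPolynomial (Fin n) k)))
    (hρ : ∀ lam m, ρ lam (e m) = opM lam m)
    (hind : ∀ lam lam' u, ρ lam u = 0 → ρ lam' u = 0) (lam : Fin n → kˣ) (u : A)
    (hu : ρ lam u = 0) : u ∈ N := by
  have hρE : ∀ (lam : Fin n → kˣ) (l : ℕ) (F : LP k (Fin l → ℤ)),
      ρ lam (EE e (List.finRange l) F) = lin (fprod (opM lam) (List.finRange l)) F := by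
    intro lam l F
    have := map_lin (ρ lam).toLinearMap (fprod e (List.finRange l)) F
    rw [EE]
    refine this.trans ?_
    congr 2
    funext μ
    simp [fprod, map_list_prod, Function.comp_def, hρ]
  -- the smaller ideal
  let N₀ : Submodule k A :=
    { carrier := {x | x ∈ N ∧ ∀ lam, ρ lam x = 0}
      add_mem' := by
        rintro a b ⟨ha, ha'⟩ ⟨hb, hb'⟩
        exact ⟨N.add_mem ha hb, fun lam => by rw [map_add, ha', hb', add_zero]⟩
      zero_mem' := ⟨N.zero_mem, fun lam => map_zero _⟩
      smul_mem' := by
        rintro c a ⟨ha, ha'⟩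
        exact ⟨N.smul_mem c ha, fun lam => by rw [map_smul, ha', smul_zero]⟩ }
  have hN₀ : IsTS N₀ := by
    refine ⟨?_, ?_⟩
    · rintro a x ⟨hx, hx'⟩
      exact ⟨hN.left a x hx, fun lam => by rw [map_mul, hx', mul_zero]⟩
    · rintro a x ⟨hx, hx'⟩
      exact ⟨hN.right a x hx, fun lam => by rw [map_mul, hx', zero_mul]⟩
  have hR₀ : Rel e N₀ (n + 1) 2 := by
    intro x
    refine ⟨hR x, fun lam => ?_⟩
    have h1 := hρE lam (n + 1) (vdm k (n + 1) ^ 2 * x)
    rw [EE] at h1
    rw [h1]
    have h2 := opM_kill (k := k) lam x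
    simpa using h2
  -- induction on the filtration degree
  have main : ∀ l, ∀ u ∈ filLT k e l, (∀ lam, ρ lam u = 0) → u ∈ N₀ := by
    intro l
    induction l with
    | zero =>
      intro u hu _
      rw [filLT_zero, Submodule.mem_bot] at hu
      rw [hu]; exact N₀.zero_mem
    | succ l ih =>
      intro u hu hu0
      obtain ⟨F, hF⟩ := filLT_succ e hu
      have hfac : ((l.factorial : ℕ) : k) ≠ 0 := Nat.cast_ne_zero.mpr (Nat.factorial_ne_zero l)
      -- pass to the symmetrisation
      have h1 : (l.factorial : k) • u - EE e (List.finRange l) (symL k F) ∈ filLT k e l := by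
        have h2 := EE_symL_mem e he F
        have h3 := Submodule.smul_mem _ (l.factorial : k) hF
        have := Submodule.add_mem _ h2 h3
        convert this using 1
        rw [smul_sub]; abel
      -- the top symbol vanishes
      have h4 : ∀ lam : Fin n → kˣ, ∑ c : Fin l → Fin n, evalU (fun j => lam (c j)) (symL k F) •
          ∏ j, (MvPolynomial.X (c j) : MvPolynomial (Fin n) k) = 0 := by
        intro lam
        rw [← opM_top, ← hρE]
        have h5 : ρ lam (EE e (List.finRange l) (symL k F)) =
            - ρ lam ((l.factorial : k) • u - EE e (List.finRange l) (symL k F)) := by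
          rw [map_sub, map_smul, hu0, smul_zero, zero_sub, neg_neg]
        rw [h5, LinearMap.neg_apply, map_neg, neg_eq_zero]
        -- words of length `< l` have no component of degree `l`
        generalize (l.factorial : k) • u - EE e (List.finRange l) (symL k F) = w at h1
        induction h1 using Submodule.span_induction with
        | mem x hx =>
          obtain ⟨w, hw, rfl⟩ := hx
          have h6 : ρ lam (w.map e).prod = (w.map (opM lam)).prod := by
            rw [map_list_prod, List.map_map]
            congr 1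
            apply List.map_congr_left
            intro m _
            exact hρ lam m
          rw [h6]
          apply MvPolynomial.homogeneousComponent_eq_zero
          exact lt_of_le_of_lt (opM_word_degree lam w) hw
        | zero => simp
        | add x y _ _ hx hy => rw [map_add, LinearMap.add_apply, map_add, hx, hy, add_zero]
        | smul c x _ hx => rw [map_smul, LinearMap.smul_apply, map_smul, hx, smul_zero]
      have h5 : symL k F ∈ Ideal.span {G : LP k (Fin l → ℤ) | ∃ S : List (Fin l), S.Nodup ∧
          S.length = n + 1 ∧ G = vdl k S} := by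
        apply liLi
        intro x hx
        rcases exists_factor x hx with rfl | ⟨lam, c, rfl⟩
        · -- no variables
          have := evalU_eq_zero_of_sum (fun σ => permL_symL σ F) (fun _ : Fin n => (1 : kˣ))
            (h4 (fun _ : Fin n => (1 : kˣ))) (fun i => i.elim0)
          rw [show x = fun j => (fun _ : Fin n => (1 : kˣ)) (Fin.elim0 j) from
            funext (fun i => i.elim0)]
          exact this
        · exact evalU_eq_zero_of_sum (fun σ => permL_symL σ F) lam (h4 lam) c
      have h6 : EE e (List.finRange l) (symL k F) ∈ N₀ ⊔ filLT k e l := by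
        have h7 : ∀ Y ∈ Ideal.span {G : LP k (Fin l → ℤ) | ∃ S : List (Fin l), S.Nodup ∧
            S.length = n + 1 ∧ G = vdl k S}, ∀ g : LP k (Fin l → ℤ),
            EE e (List.finRange l) (Y * g) ∈ N₀ ⊔ filLT k e l := by
          intro Y hY
          induction hY using Submodule.span_induction with
          | mem x hx =>
            obtain ⟨S, hS, hlen, rfl⟩ := hx
            intro g
            exact EE_vdl_mem e he hN₀ hR₀ hS hlen g
          | zero => intro g; rw [zero_mul, map_zero]; exact Submodule.zero_mem _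
          | add x y _ _ hx hy =>
            intro g
            rw [add_mul, map_add]
            exact Submodule.add_mem _ (hx g) (hy g)
          | smul a x _ hx =>
            intro g
            rw [smul_eq_mul, mul_comm a x, mul_assoc]
            exact hx _
        have := h7 _ h5 1
        rwa [mul_one] at this
      have h7 : (l.factorial : k) • u ∈ N₀ ⊔ filLT k e l := by
        have := Submodule.add_mem _ (Submodule.mem_sup_right (S := N₀) h1) h6
        simpa using this
      have h8 : u ∈ N₀ ⊔ filLT k e l := by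
        have := Submodule.smul_mem _ ((l.factorial : k)⁻¹) h7
        rwa [smul_smul, inv_mul_cancel₀ hfac, one_smul] at this
      obtain ⟨y, hy, z, hz, hyz⟩ := Submodule.mem_sup.mp h8
      have hz0 : ∀ lam, ρ lam z = 0 := by
        intro lam
        have : z = u - y := by rw [← hyz]; abel
        rw [this, map_sub, hu0, hy.2 lam, sub_zero]
      rw [← hyz]
      exact N₀.add_mem hy (ih z hz hz0)
  obtain ⟨l, hl⟩ := exists_filLT (k := k) e hgen u
  exact (main _ u hl (fun lam' => hind lam lam' u hu)).1

end Pool.Agent.H48.Witt
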