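import Pool.Agent.H48.Witt.Window

/-!
# The cluster argument

If `Δ_{r+1}^M` kills `(r+1)`-fold products modulo `N`, then for `|S| > r M` and `|T| = r` the
product `Δ(S)^2 Δ(T)^K` kills the product over `S ++ T` modulo `N`, for `K` large.
-/

set_option autoImplicit false

namespace Pool.Agent.H48.Witt

open Finset

variable {k : Type*} [Field k] {A : Type*} [Ring A] [Algebra k A]
variable {ι : Type*} [DecidableEq ι]

/-! ### Commutative algebra -/

lemma list_prod_map_pow {R α : Type*} [CommRing R] (l : List α) (f : α → R) (n : ℕ) :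
    (l.map (fun b => f b ^ n)).prod = (l.map f).prod ^ n := by
  induction l with
  | nil => simp
  | cons a l ih => simp [ih, mul_pow]

lemma sub_pow_two_mul {R : Type*} [CommRing R] (x y : R) (K : ℕ) :
    ∃ a b, (x - y) ^ (2 * K) = a * y ^ K + b * x ^ K := by
  have h1 : (x - y) ^ (K + K) ∈ Ideal.span {y} ^ K ⊔ Ideal.span {x} ^ K := by
    apply Ideal.sup_pow_add_le_pow_sup_pow
    apply Ideal.pow_mem_pow
    apply Ideal.sub_mem
    · exact Ideal.mem_sup_right (Ideal.mem_span_singleton_self x)
    · exact Ideal.mem_sup_left (Ideal.mem_span_singleton_self y)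
  rw [Ideal.span_singleton_pow, Ideal.span_singleton_pow] at h1
  obtain ⟨u, hu, v, hv, huv⟩ := Submodule.mem_sup.mp h1
  obtain ⟨a, rfl⟩ := Ideal.mem_span_singleton'.mp hu
  obtain ⟨b, rfl⟩ := Ideal.mem_span_singleton'.mp hv
  exact ⟨a, b, by rw [two_mul, huv]⟩

lemma prod_dd_pow (s c : ι) (K : ℕ) (T : List ι) :
    ∃ a b : LP k (ι → ℤ), (T.map (fun x => dd k c x)).prod ^ (2 * K) =
      a * dd k s c ^ K + b * (T.map (fun x => dd k s x ^ K)).prod := by
  induction T with
  | nil => exact ⟨0, 1, by simp⟩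
  | cons y T ih =>
    obtain ⟨a, b, hab⟩ := ih
    obtain ⟨a', b', hab'⟩ := sub_pow_two_mul (dd k s y) (dd k s c) K
    have h : dd k c y = dd k s y - dd k s c := by simp only [dd]; ring
    refine ⟨a' * (a * dd k s c ^ K + b * (T.map (fun x => dd k s x ^ K)).prod)
      + b' * dd k s y ^ K * a, b' * b, ?_⟩
    rw [List.map_cons, List.prod_cons, mul_pow, hab, h, hab', List.map_cons, List.prod_cons]
    ring

/-- The ideal quotient `(I : r)`. -/
def colonI {R : Type*} [CommRing R] (I : Ideal R) (r : R) : Ideal R :=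
  Submodule.comap (LinearMap.mulLeft R r) I

lemma mem_colonI {R : Type*} [CommRing R] {I : Ideal R} {r x : R} :
    x ∈ colonI I r ↔ r * x ∈ I := Iff.rfl

lemma tour (s : ι) (K : ℕ) : ∀ (T : List ι) (_ : T ≠ []) (I : Ideal (LP k (ι → ℤ))),
    (∀ l₁ c l₂, T = l₁ ++ c :: l₂ → ((l₁ ++ l₂).map (fun b => dd k s b ^ K)).prod ∈ I) →
    vdl k T ^ (2 * K) ∈ I := by
  intro T
  induction T with
  | nil => intro h; exact absurd rfl h
  | cons c T ih =>
    intro _ I hI
    have h0 : (T.map (fun b => dd k s b ^ K)).prod ∈ I := by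
      have := hI [] c T rfl
      simpa using this
    by_cases hT : T = []
    · subst hT
      have : (1 : LP k (ι → ℤ)) ∈ I := by simpa using h0
      rw [(Ideal.eq_top_iff_one I).mpr this]
      exact Submodule.mem_top
    · have h1 : vdl k T ^ (2 * K) ∈ colonI I (dd k s c ^ K) := by
        apply ih hT
        intro l₁ c' l₂ h
        rw [mem_colonI]
        have := hI (c :: l₁) c' l₂ (by rw [h]; rfl)
        simpa using this
      rw [mem_colonI] at h1
      obtain ⟨a, b, hab⟩ := prod_dd_pow (k := k) s c K T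
      rw [vdl, mul_pow, hab]
      have : (a * dd k s c ^ K + b * (T.map (fun x => dd k s x ^ K)).prod) * vdl k T ^ (2 * K) =
        a * (dd k s c ^ K * vdl k T ^ (2 * K)) +
          (b * vdl k T ^ (2 * K)) * (T.map (fun x => dd k s x ^ K)).prod := by ring
      rw [this]
      exact I.add_mem (I.mul_mem_left _ h1) (I.mul_mem_left _ h0)

lemma multi {R : Type*} [CommRing R] (I : Ideal R) (Z : R) (g : ι → ι → R) (T : List ι) :
    ∀ (S : List ι) (_ : S.Nodup) (_ : ∀ s ∈ S, Z ∈ Ideal.span {x | ∃ c ∈ T, x = g c s}) (Y : R),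
    (∀ a : ι → ι, (∀ s ∈ S, a s ∈ T) → (S.map (fun s => g (a s) s)).prod * Y ∈ I) →
    Z ^ S.length * Y ∈ I := by
  intro S
  induction S with
  | nil =>
    intro _ _ Y h
    have := h id (by simp)
    simpa using this
  | cons s S ih =>
    intro hn hZ Y h
    rw [List.length_cons, pow_succ, mul_assoc]
    apply ih (List.nodup_cons.mp hn).2 (fun s' hs' => hZ s' (List.mem_cons_of_mem _ hs'))
    intro a ha
    have hZs := hZ s List.mem_cons_self
    have hle : Ideal.span {x | ∃ c ∈ T, x = g c s} ≤
        colonI I ((S.map (fun s => g (a s) s)).prod * Y) := by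
      rw [Ideal.span_le]
      rintro x ⟨c, hc, rfl⟩
      change _ * _ ∈ I
      have := h (Function.update a s c) (by
        intro s' hs'
        rcases List.mem_cons.mp hs' with rfl | hs'
        · simpa using hc
        · have : s' ≠ s := fun h' => (List.nodup_cons.mp hn).1 (h' ▸ hs')
          rw [Function.update_of_ne this]
          exact ha s' hs')
      rw [List.map_cons, List.prod_cons, Function.update_self] at this
      have h2 : (S.map (fun s' => g (Function.update a s c s') s')) =
          S.map (fun s => g (a s) s) := by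
        apply List.map_congr_left
        intro s' hs'
        have : s' ≠ s := fun h' => (List.nodup_cons.mp hn).1 (h' ▸ hs')
        rw [Function.update_of_ne this]
      rw [h2] at this
      have h3 : (S.map (fun s => g (a s) s)).prod * Y * g c s =
        g c s * (S.map (fun s => g (a s) s)).prod * Y := by ring
      rw [h3]
      exact this
    have := hle hZs
    rw [mem_colonI] at this
    have h3 : (S.map (fun s => g (a s) s)).prod * Y * Z =
      (S.map (fun s => g (a s) s)).prod * (Z * Y) := by ring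
    rwa [h3] at this

/-! ### Vandermonde products -/

lemma vdl_filter (p : ι → Bool) (ℓ : List ι) :
    vdl k ℓ ^ 2 = vdl k (ℓ.filter p) ^ 2 * (vdl k (ℓ.filter (fun x => !p x)) ^ 2 *
      ((ℓ.filter p).map (fun a => ((ℓ.filter (fun x => !p x)).map
        (fun b => dd k a b ^ 2)).prod)).prod) := by
  induction ℓ with
  | nil => simp [vdl]
  | cons c ℓ ih =>
    have hsplit : (ℓ.map (fun b => dd k c b)).prod =
        ((ℓ.filter p).map (fun b => dd k c b)).prod *
        ((ℓ.filter (fun x => !p x)).map (fun b => dd k c b)).prod := by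
      rw [← List.prod_append, ← List.map_append]
      exact (List.Perm.map _ (List.filter_append_perm p ℓ)).symm.prod_eq
    cases hp : p c with
    | false =>
      have f1 : (c :: ℓ).filter p = ℓ.filter p := by simp [hp]
      have f2 : (c :: ℓ).filter (fun x => !p x) = c :: ℓ.filter (fun x => !p x) := by simp [hp]
      rw [f1, f2, vdl, mul_pow, ih, hsplit, vdl]
      simp only [List.map_cons, List.prod_cons]
      rw [List.prod_map_mul]
      have : ((ℓ.filter p).map (fun b => dd k c b)).prod ^ 2 =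
          ((ℓ.filter p).map (fun a => dd k a c ^ 2)).prod := by
        rw [← list_prod_map_pow]
        refine congrArg List.prod (List.map_congr_left ?_)
        intro b _
        exact dd_sq_swap _ _
      rw [mul_pow, this]
      ring
    | true =>
      have f1 : (c :: ℓ).filter p = c :: ℓ.filter p := by simp [hp]
      have f2 : (c :: ℓ).filter (fun x => !p x) = ℓ.filter (fun x => !p x) := by simp [hp]
      rw [f1, f2, vdl, mul_pow, ih, hsplit, vdl]
      simp only [List.map_cons, List.prod_cons]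
      have : ((ℓ.filter (fun x => !p x)).map (fun b => dd k c b)).prod ^ 2 =
          ((ℓ.filter (fun x => !p x)).map (fun b => dd k c b ^ 2)).prod := by
        rw [← list_prod_map_pow]
      rw [mul_pow, ← this]
      ring

lemma vdl_insert (T₁ T₂ : List ι) (c : ι) :
    vdl k (T₁ ++ c :: T₂) = vdl k (T₁ ++ T₂) * ((T₁.map (fun b => dd k b c)).prod *
      (T₂.map (fun b => dd k c b)).prod) := by
  induction T₁ with
  | nil => simp [vdl]; ring
  | cons a T₁ ih =>
    simp only [List.cons_append, vdl, List.map_append, List.map_cons, List.prod_append,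
      List.prod_cons, ih]
    ring

/-- adjacent differences -/
noncomputable def adjD (k : Type*) [Field k] : List ι → List (LP k (ι → ℤ))
  | [] => []
  | [_] => []
  | a :: b :: l => dd k a b :: adjD k (b :: l)

lemma adjD_length (ℓ : List ι) : (adjD k ℓ).length = ℓ.length - 1 := by
  induction ℓ with
  | nil => rfl
  | cons a ℓ ih =>
    cases ℓ with
    | nil => rfl
    | cons b ℓ => simp only [adjD, List.length_cons, ih]; omega

lemma mem_adjD {ℓ : List ι} {z : LP k (ι → ℤ)} (hz : z ∈ adjD k ℓ) :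
    ∃ l₁ x y l₂, ℓ = l₁ ++ x :: y :: l₂ ∧ z = dd k x y := by
  induction ℓ with
  | nil => simp [adjD] at hz
  | cons a ℓ ih =>
    cases ℓ with
    | nil => simp [adjD] at hz
    | cons b ℓ =>
      simp only [adjD, List.mem_cons] at hz
      rcases hz with rfl | hz
      · exact ⟨[], a, b, ℓ, rfl, rfl⟩
      · obtain ⟨l₁, x, y, l₂, h, h'⟩ := ih hz
        exact ⟨a :: l₁, x, y, l₂, by rw [h]; rfl, h'⟩

/-- the ideal generated by the adjacent differences -/
noncomputable def adjI (k : Type*) [Field k] (ℓ : List ι) : Ideal (LP k (ι → ℤ)) :=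
  Ideal.span {z | z ∈ adjD k ℓ}

lemma adjI_cons_le (a : ι) (ℓ : List ι) : adjI k ℓ ≤ adjI k (a :: ℓ) := by
  apply Ideal.span_mono
  intro z hz
  cases ℓ with
  | nil => simp [adjD] at hz
  | cons b ℓ => exact List.mem_cons_of_mem _ hz

lemma dd_mem_adjI (ℓ : List ι) : ∀ (a : ι), ∀ b ∈ ℓ, dd k a b ∈ adjI k (a :: ℓ) := by
  induction ℓ with
  | nil => intro a b hb; simp at hb
  | cons c ℓ ih =>
    intro a b hb
    have h1 : dd k a c ∈ adjI k (a :: c :: ℓ) := Ideal.subset_span (by simp [adjD])
    rcases List.mem_cons.mp hb with rfl | hb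
    · exact h1
    · have h2 := adjI_cons_le a (c :: ℓ) (ih c b hb)
      have : dd k a b = dd k a c + dd k c b := by simp only [dd]; ring
      rw [this]
      exact Ideal.add_mem _ h1 h2

lemma list_prod_mem_pow {R : Type*} [CommRing R] (I : Ideal R) (l : List R) (h : ∀ x ∈ l, x ∈ I) :
    l.prod ∈ I ^ l.length := by
  induction l with
  | nil => simp
  | cons a l ih =>
    rw [List.prod_cons, List.length_cons, pow_succ']
    exact Ideal.mul_mem_mul (h a List.mem_cons_self) (ih (fun x hx => h x (List.mem_cons_of_mem _ hx)))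

lemma vdl_mem_adjI_pow (ℓ : List ι) : vdl k ℓ ∈ adjI k ℓ ^ (ℓ.length.choose 2) := by
  induction ℓ with
  | nil => simp [vdl]
  | cons a ℓ ih =>
    rw [vdl, List.length_cons, Nat.choose_succ_succ' ℓ.length 1, Nat.choose_one_right, pow_add]
    apply Ideal.mul_mem_mul
    · have := list_prod_mem_pow (adjI k (a :: ℓ)) (ℓ.map (fun b => dd k a b)) (by
        intro x hx
        obtain ⟨b, hb, rfl⟩ := List.mem_map.mp hx
        exact dd_mem_adjI ℓ a b hb)
      simpa using this
    · exact Ideal.pow_right_mono (adjI_cons_le a ℓ) _ ih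

lemma span_list_pow {R : Type*} [CommRing R] (L : List R) (M : ℕ) :
    Ideal.span {z | z ∈ L} ^ (L.length * M + 1) ≤ Ideal.span {z | ∃ y ∈ L, z = y ^ M} := by
  induction L with
  | nil => simp
  | cons a L ih =>
    have h1 : Ideal.span {z | z ∈ a :: L} = Ideal.span {a} ⊔ Ideal.span {z | z ∈ L} := by
      rw [← Ideal.span_union]
      congr 1
      ext z
      simp
    have h2 : (a :: L).length * M + 1 = M + (L.length * M + 1) := by
      simp only [List.length_cons]; ring
    rw [h1, h2]
    refine Ideal.sup_pow_add_le_pow_sup_pow.trans (sup_le ?_ ?_)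
    · rw [Ideal.span_singleton_pow, Ideal.span_le]
      rintro z rfl
      exact Ideal.subset_span ⟨a, List.mem_cons_self, rfl⟩
    · refine ih.trans (Ideal.span_mono ?_)
      rintro z ⟨y, hy, rfl⟩
      exact ⟨y, List.mem_cons_of_mem _ hy, rfl⟩

lemma cluster_pow {ℓ : List ι} {M : ℕ} (hM : 1 ≤ M) (hℓ : M + 1 ≤ ℓ.length)
    (I : Ideal (LP k (ι → ℤ)))
    (h : ∀ l₁ x y l₂, ℓ = l₁ ++ x :: y :: l₂ → dd k x y ^ M ∈ I) : vdl k ℓ ^ 2 ∈ I := by
  have h1 : vdl k ℓ ^ 2 ∈ adjI k ℓ ^ (ℓ.length.choose 2 * 2) := by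
    rw [pow_mul]
    exact Ideal.pow_mem_pow (vdl_mem_adjI_pow ℓ) 2
  have h2 : (adjD k ℓ).length * M + 1 ≤ ℓ.length.choose 2 * 2 := by
    rw [adjD_length, Nat.choose_two_right]
    obtain ⟨q, hq⟩ : ∃ q, ℓ.length = q + 1 := ⟨ℓ.length - 1, by omega⟩
    rw [hq] at hℓ ⊢
    have h3 : (q + 1) * (q + 1 - 1) / 2 * 2 = (q + 1) * q := by
      have : Even ((q + 1) * q) := by rw [mul_comm]; exact Nat.even_mul_succ_self q
      rw [Nat.add_sub_cancel]
      exact Nat.div_mul_cancel this.two_dvd
    rw [h3, Nat.add_sub_cancel]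
    have : M ≤ q := by omega
    nlinarith
  have h4 : vdl k ℓ ^ 2 ∈ Ideal.span {z | ∃ y ∈ adjD k ℓ, z = y ^ M} :=
    span_list_pow _ _ (Ideal.pow_le_pow_right h2 h1)
  refine Ideal.span_le.mpr ?_ h4
  rintro z ⟨y, hy, rfl⟩
  obtain ⟨l₁, x, y', l₂, h5, rfl⟩ := mem_adjD hy
  exact h l₁ x y' l₂ h5

end Pool.Agent.H48.Witt
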