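import Pool.Agent.H48.Witt.Defs

/-!
# The delta-function modules of the Witt algebra

`M_n = k[D_1, ..., D_n]` with `e_m f = ∑ i, λ_i^m • S_i^m (D_i f)`, `S_i^m : D_i ↦ D_i - m`.
-/

set_option autoImplicit false

namespace Pool.Agent.H48.Witt

open Finset MvPolynomial

variable {k : Type*} [Field k]

/-- shift `D_i ↦ D_i - m`. -/
noncomputable def sh (k : Type*) [Field k] {n : ℕ} (i : Fin n) (m : ℤ) :
    MvPolynomial (Fin n) k →ₐ[k] MvPolynomial (Fin n) k :=
  MvPolynomial.aeval (fun j => MvPolynomial.X j - if j = i then MvPolynomial.C (m : k) else 0)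

/-- `e_m f = ∑ i, λ_i^m • S_i^m (D_i f)`. -/
noncomputable def opM {n : ℕ} (lam : Fin n → kˣ) (m : ℤ) :
    Module.End k (MvPolynomial (Fin n) k) :=
  ∑ i, ((lam i ^ m : kˣ) : k) •
    ((sh k i m).toLinearMap ∘ₗ LinearMap.mulLeft k (MvPolynomial.X i))

lemma sh_X {n : ℕ} (i j : Fin n) (m : ℤ) :
    sh k i m (X j) = X j - if j = i then C (m : k) else 0 := by
  simp [sh]

lemma sh_X_self {n : ℕ} (i : Fin n) (m : ℤ) :
    sh k i m (X i) = X i - C (m : k) := by
  simp [sh]

lemma sh_X_ne {n : ℕ} {i j : Fin n} (h : i ≠ j) (m : ℤ) :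
    sh k i m (X j) = X j := by
  simp [sh, h.symm]

lemma sh_C {n : ℕ} (i : Fin n) (m : ℤ) (c : k) : sh k i m (C c) = C c := by
  rw [← MvPolynomial.algebraMap_eq]; exact AlgHom.commutes _ _

lemma sh_zero {n : ℕ} (i : Fin n) (f : MvPolynomial (Fin n) k) : sh k i 0 f = f := by
  have : sh k i 0 = AlgHom.id k _ := by
    apply MvPolynomial.algHom_ext
    intro j
    rw [sh_X]
    simp
  rw [this]; rfl

lemma sh_sh {n : ℕ} (i j : Fin n) (m m' : ℤ) (f : MvPolynomial (Fin n) k) :
    sh k i m (sh k j m' f) = sh k j m' (sh k i m f) := by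
  rw [← AlgHom.comp_apply, ← AlgHom.comp_apply]
  congr 1
  apply MvPolynomial.algHom_ext
  intro l
  simp only [AlgHom.comp_apply, sh_X, map_sub]
  split_ifs <;> simp [*] <;> ring

lemma sh_add {n : ℕ} (i : Fin n) (m m' : ℤ) (f : MvPolynomial (Fin n) k) :
    sh k i m (sh k i m' f) = sh k i (m + m') f := by
  rw [← AlgHom.comp_apply]
  congr 1
  apply MvPolynomial.algHom_ext
  intro l
  simp only [AlgHom.comp_apply, sh_X, map_sub]
  split_ifs with h
  · simp; ring
  · simp

lemma opM_apply {n : ℕ} (lam : Fin n → kˣ) (m : ℤ) (f : MvPolynomial (Fin n) k) :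
    opM lam m f = ∑ i, ((lam i ^ m : kˣ) : k) • sh k i m (X i * f) := by
  simp [opM, LinearMap.sum_apply]

/-- the one-point operators. -/
noncomputable def opT {n : ℕ} (lam : Fin n → kˣ) (i : Fin n) (m : ℤ) :
    Module.End k (MvPolynomial (Fin n) k) :=
  ((lam i ^ m : kˣ) : k) • ((sh k i m).toLinearMap ∘ₗ LinearMap.mulLeft k (MvPolynomial.X i))

lemma opT_apply {n : ℕ} (lam : Fin n → kˣ) (i : Fin n) (m : ℤ) (f : MvPolynomial (Fin n) k) :
    opT lam i m f = ((lam i ^ m : kˣ) : k) • sh k i m (X i * f) := by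
  simp [opT]

lemma opM_eq_sum {n : ℕ} (lam : Fin n → kˣ) (m : ℤ) : opM lam m = ∑ i, opT lam i m := rfl

lemma opT_comm {n : ℕ} (lam : Fin n → kˣ) {i j : Fin n} (hij : i ≠ j) (m m' : ℤ) :
    opT lam i m * opT lam j m' = opT lam j m' * opT lam i m := by
  apply LinearMap.ext
  intro f
  have h1 : sh k i m (sh k j m' (X j)) = X j - C (m' : k) := by
    rw [sh_X_self, map_sub, sh_C, sh_X_ne hij]
  have h2 : sh k j m' (sh k i m (X i)) = X i - C (m : k) := by
    rw [sh_X_self, map_sub, sh_C, sh_X_ne hij.symm]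
  simp only [Module.End.mul_apply, opT_apply, map_smul, map_mul, smul_smul]
  rw [h1, h2, sh_X_self, sh_X_self, sh_sh i j, mul_comm (((lam i ^ m : kˣ) : k))]
  congr 1
  ring

lemma opT_mul_self {n : ℕ} (lam : Fin n → kˣ) (i : Fin n) (m m' : ℤ)
    (f : MvPolynomial (Fin n) k) :
    opT lam i m (opT lam i m' f) = ((lam i ^ (m + m') : kˣ) : k) •
      ((X i - C (m : k)) * (X i - C ((m + m' : ℤ) : k)) * sh k i (m + m') f) := by
  rw [opT_apply, opT_apply, mul_smul_comm, map_smul, smul_smul, zpow_add, Units.val_mul]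
  congr 1
  rw [map_mul, map_mul, map_mul, sh_X_self, sh_X_self, map_sub, sh_C, sh_X_self, sh_add]
  push_cast
  simp only [map_add]
  ring

theorem opM_wittRel {n : ℕ} (lam : Fin n → kˣ) : WittRel k (opM lam) := by
  intro m m'
  simp only [opM_eq_sum, Finset.sum_mul_sum]
  rw [Finset.sum_comm (f := fun i j => opT lam i m' * opT lam j m)]
  rw [← Finset.sum_sub_distrib, Finset.smul_sum]
  refine Finset.sum_congr rfl fun i _ => ?_
  rw [← Finset.sum_sub_distrib]
  rw [Finset.sum_eq_single i]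
  · apply LinearMap.ext
    intro f
    simp only [LinearMap.sub_apply, Module.End.mul_apply, opT_mul_self, LinearMap.smul_apply]
    rw [opT_apply, add_comm m' m, ← smul_sub]
    rw [smul_comm]
    congr 1
    rw [map_mul, sh_X_self, MvPolynomial.smul_eq_C_mul]
    push_cast
    simp only [map_add, map_sub]
    ring
  · intro j _ hj
    rw [opT_comm lam hj.symm, sub_self]
  · simp

end Pool.Agent.H48.Witt
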