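import Pool.Agent.H48.Witt.DDefs

/-!
# The annihilator of the delta-function modules does not depend on `lam`
(Module D4 of MP_f251f6_al)
-/

set_option autoImplicit false

namespace Pool.Agent.H48.Witt

open Finset MvPolynomial

section Indep

variable {k : Type*} [Field k] {n : ℕ}

/-- The multi-shift `f ↦ f(X - ν)`. -/
noncomputable def shA (k : Type*) [Field k] {n : ℕ} (ν : Fin n → ℤ) :
    MvPolynomial (Fin n) k →ₐ[k] MvPolynomial (Fin n) k :=
  MvPolynomial.aeval (fun j => MvPolynomial.X j - MvPolynomial.C (ν j : k))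

lemma shA_X (ν : Fin n → ℤ) (j : Fin n) : shA k ν (X j) = X j - C (ν j : k) := by
  simp [shA]

lemma shA_C (ν : Fin n → ℤ) (c : k) : shA k ν (C c) = C c := by
  rw [← MvPolynomial.algebraMap_eq]; exact AlgHom.commutes _ _

lemma shA_zero (f : MvPolynomial (Fin n) k) : shA k (0 : Fin n → ℤ) f = f := by
  have : shA k (0 : Fin n → ℤ) = AlgHom.id k _ := by
    apply MvPolynomial.algHom_ext
    intro j
    rw [shA_X]
    simp
  rw [this]; rfl

lemma shA_shA (ν μ : Fin n → ℤ) (f : MvPolynomial (Fin n) k) :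
    shA k ν (shA k μ f) = shA k (ν + μ) f := by
  rw [← AlgHom.comp_apply]
  congr 1
  apply MvPolynomial.algHom_ext
  intro j
  rw [AlgHom.comp_apply, shA_X, map_sub, shA_C, shA_X, shA_X, Pi.add_apply]
  push_cast
  rw [map_add]
  ring

lemma sh_eq_shA (i : Fin n) (m : ℤ) (f : MvPolynomial (Fin n) k) :
    sh k i m f = shA k (Pi.single i m) f := by
  have : sh k i m = shA k (Pi.single i m) := by
    apply MvPolynomial.algHom_ext
    intro j
    rw [sh_X, shA_X]
    by_cases hj : j = i
    · subst hj; simp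
    · simp [hj]
  rw [this]

lemma shA_injective [CharZero k] :
    Function.Injective (fun ν : Fin n → ℤ =>
      ((shA k ν : MvPolynomial (Fin n) k →ₐ[k] MvPolynomial (Fin n) k) :
        MvPolynomial (Fin n) k →* MvPolynomial (Fin n) k)) := by
  intro ν μ h
  funext j
  have h1 := DFunLike.congr_fun h (X j)
  have h2 : shA k ν (X j) = shA k μ (X j) := h1
  rw [shA_X, shA_X, sub_right_inj, C_inj] at h2
  exact_mod_cast h2

/-- `lam ^ ν`. -/
noncomputable def lamP (lam : Fin n → kˣ) (ν : Fin n → ℤ) : k := ((∏ i, lam i ^ ν i : kˣ) : k)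

lemma lamP_ne_zero (lam : Fin n → kˣ) (ν : Fin n → ℤ) : lamP lam ν ≠ 0 := Units.ne_zero _

lemma lamP_zero (lam : Fin n → kˣ) : lamP lam 0 = 1 := by simp [lamP]

lemma lamP_add (lam : Fin n → kˣ) (ν μ : Fin n → ℤ) :
    lamP lam (ν + μ) = lamP lam ν * lamP lam μ := by
  simp only [lamP, Pi.add_apply, zpow_add, Finset.prod_mul_distrib, Units.val_mul]

lemma lamP_single (lam : Fin n → kˣ) (i : Fin n) (m : ℤ) :
    lamP lam (Pi.single i m) = ((lam i ^ m : kˣ) : k) := by
  unfold lamP
  rw [Finset.prod_eq_single i]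
  · simp
  · intro j _ hj
    simp [hj]
  · simp

/-- The action of a skew Laurent polynomial `∑ ν, p_ν S^ν` at the point `lam`. -/
noncomputable def actL (lam : Fin n → kˣ) (f : MvPolynomial (Fin n) k) :
    ((Fin n → ℤ) →₀ MvPolynomial (Fin n) k) →ₗ[k] MvPolynomial (Fin n) k :=
  Finsupp.lsum k (fun ν => lamP lam ν • LinearMap.mulRight k (shA k ν f))

lemma actL_apply (lam : Fin n → kˣ) (f : MvPolynomial (Fin n) k)
    (P : (Fin n → ℤ) →₀ MvPolynomial (Fin n) k) :
    actL lam f P = P.sum fun ν p => lamP lam ν • (p * shA k ν f) := by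
  unfold actL
  rw [Finsupp.lsum_apply]
  rfl

lemma actL_single (lam : Fin n → kˣ) (f : MvPolynomial (Fin n) k) (ν : Fin n → ℤ)
    (p : MvPolynomial (Fin n) k) :
    actL lam f (Finsupp.single ν p) = lamP lam ν • (p * shA k ν f) := by
  simp [actL]

lemma actL_mul (lam : Fin n → kˣ) (f : MvPolynomial (Fin n) k)
    (P Q : (Fin n → ℤ) →₀ MvPolynomial (Fin n) k) :
    actL lam f (P.sum fun ν p => Q.sum fun μ q => Finsupp.single (ν + μ) (p * shA k ν q)) =
      actL lam (actL lam f Q) P := by
  rw [map_finsuppSum, actL_apply lam (actL lam f Q)]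
  refine Finset.sum_congr rfl fun ν _ => ?_
  dsimp only
  rw [map_finsuppSum, actL_apply, map_finsuppSum, Finsupp.mul_sum, Finsupp.smul_sum]
  refine Finset.sum_congr rfl fun μ _ => ?_
  dsimp only
  rw [actL_single, map_smul, map_mul, shA_shA, lamP_add, mul_smul_comm, smul_smul, mul_assoc]

lemma exists_actL (x : FreeAlgebra k ℤ) :
    ∃ P : (Fin n → ℤ) →₀ MvPolynomial (Fin n) k, ∀ (lam : Fin n → kˣ)
      (f : MvPolynomial (Fin n) k), FreeAlgebra.lift k (opM lam) x f = actL lam f P := by
  induction x using FreeAlgebra.induction with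
  | grade0 r =>
    refine ⟨Finsupp.single 0 (C r), fun lam f => ?_⟩
    rw [actL_single, lamP_zero, shA_zero, AlgHom.commutes, Module.algebraMap_end_apply, one_smul,
      MvPolynomial.smul_eq_C_mul]
  | grade1 m =>
    refine ⟨∑ i, Finsupp.single (Pi.single i m) (X i - C (m : k)), fun lam f => ?_⟩
    rw [FreeAlgebra.lift_ι_apply, opM_apply, map_sum]
    refine Finset.sum_congr rfl fun i _ => ?_
    rw [actL_single, lamP_single, map_mul, sh_X_self, sh_eq_shA]
  | mul a b ha hb =>
    obtain ⟨P, hP⟩ := ha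
    obtain ⟨Q, hQ⟩ := hb
    refine ⟨P.sum fun ν p => Q.sum fun μ q => Finsupp.single (ν + μ) (p * shA k ν q),
      fun lam f => ?_⟩
    rw [actL_mul, map_mul, Module.End.mul_apply, hQ, hP]
  | add a b ha hb =>
    obtain ⟨P, hP⟩ := ha
    obtain ⟨Q, hQ⟩ := hb
    refine ⟨P + Q, fun lam f => ?_⟩
    rw [map_add, map_add, LinearMap.add_apply, hP, hQ]

lemma eq_zero_of_actL [CharZero k] (lam : Fin n → kˣ)
    (P : (Fin n → ℤ) →₀ MvPolynomial (Fin n) k)
    (h : ∀ f : MvPolynomial (Fin n) k, actL lam f P = 0) : P = 0 := by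
  have hli := (linearIndependent_monoidHom (MvPolynomial (Fin n) k)
    (MvPolynomial (Fin n) k)).comp _ (shA_injective (k := k) (n := n))
  rw [linearIndependent_iff'] at hli
  have key := hli P.support (fun ν => lamP lam ν • P ν) ?_
  · ext1 ν
    by_cases hν : ν ∈ P.support
    · have := key ν hν
      rcases smul_eq_zero.mp this with h1 | h1
      · exact absurd h1 (lamP_ne_zero lam ν)
      · simpa using h1
    · simpa using hν
  · funext f
    have := h f
    rw [actL_apply] at this
    rw [Finset.sum_apply, Pi.zero_apply, ← this]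
    refine Finset.sum_congr rfl fun ν _ => ?_
    simp only [Function.comp_apply, Pi.smul_apply, smul_eq_mul, smul_mul_assoc]
    rfl

/-- D4 -/
theorem opM_indep [CharZero k] {n : ℕ} (lam lam' : Fin n → kˣ) (x : FreeAlgebra k ℤ)
    (h : FreeAlgebra.lift k (opM lam) x = 0) : FreeAlgebra.lift k (opM lam') x = 0 := by
  obtain ⟨P, hP⟩ := exists_actL (n := n) x
  have h0 : P = 0 := by
    apply eq_zero_of_actL lam P
    intro f
    rw [← hP, h, LinearMap.zero_apply]
  apply LinearMap.ext
  intro f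
  rw [hP, h0, map_zero, LinearMap.zero_apply]

end Indep

end Pool.Agent.H48.Witt
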