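import Pool.Agent.H48.Witt.DDefs

/-!
# Simplicity of the delta-function modules of the Witt algebra (Module D2 of MP_f251f6_al)
-/

set_option autoImplicit false

namespace Pool.Agent.H48.Witt

open Finset MvPolynomial

section Simple

variable {k : Type*} [Field k] {n : ℕ}

/-- The difference operator `S_i - 1`. -/
noncomputable def dif (k : Type*) [Field k] {n : ℕ} (i : Fin n) :
    Module.End k (MvPolynomial (Fin n) k) :=
  (sh k i 1).toLinearMap - 1

lemma dif_apply (i : Fin n) (f : MvPolynomial (Fin n) k) :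
    dif k i f = sh k i 1 f - f := by
  simp [dif]

lemma dif_mul_X (i j : Fin n) (f : MvPolynomial (Fin n) k) :
    dif k i (f * X j) = dif k i f * X j - (if j = i then (1 : k) else 0) • (dif k i f + f) := by
  rw [dif_apply, dif_apply, map_mul, sh_X]
  split_ifs
  · simp; ring
  · simp; ring

lemma dif_pow_mul_X (i j : Fin n) (N : ℕ) : ∀ f : MvPolynomial (Fin n) k,
    (dif k i ^ N) f = 0 → (dif k i ^ (N + 1)) (f * X j) = 0 := by
  induction N with
  | zero =>
    intro f hf
    have : f = 0 := by simpa using hf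
    simp [this]
  | succ N ih =>
    intro f hf
    have h1 : (dif k i ^ N) (dif k i f) = 0 := by
      rw [pow_succ] at hf
      exact hf
    have h2 := ih _ h1
    rw [pow_succ (dif k i) (N + 1), Module.End.mul_apply, dif_mul_X, map_sub, h2, map_smul,
      map_add, hf]
    have h3 : (dif k i ^ (N + 1)) (dif k i f) = 0 := by
      rw [pow_succ', Module.End.mul_apply, h1, map_zero]
    rw [h3]
    simp

lemma dif_pow_mono (i : Fin n) (f : MvPolynomial (Fin n) k) {a b : ℕ} (hab : a ≤ b)
    (h : (dif k i ^ a) f = 0) : (dif k i ^ b) f = 0 := by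
  obtain ⟨c, rfl⟩ := Nat.exists_eq_add_of_le hab
  rw [add_comm, pow_add, Module.End.mul_apply, h, map_zero]

lemma exists_dif_pow (i : Fin n) (f : MvPolynomial (Fin n) k) :
    ∃ N, (dif k i ^ N) f = 0 := by
  induction f using MvPolynomial.induction_on with
  | C c =>
    refine ⟨1, ?_⟩
    rw [pow_one, dif_apply, sh_C, sub_self]
  | add p q hp hq =>
    obtain ⟨a, ha⟩ := hp
    obtain ⟨b, hb⟩ := hq
    refine ⟨max a b, ?_⟩
    rw [map_add, dif_pow_mono i p (le_max_left a b) ha, dif_pow_mono i q (le_max_right a b) hb,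
      add_zero]
  | mul_X p j hp =>
    obtain ⟨a, ha⟩ := hp
    exact ⟨a + 1, dif_pow_mul_X i j a p ha⟩

/-- The shift operator on sequences. -/
def seqShift (k : Type*) [Field k] (Q : Type*) [AddCommGroup Q] [Module k Q] :
    Module.End k (ℤ → Q) where
  toFun a := fun m => a (m + 1)
  map_add' _ _ := rfl
  map_smul' _ _ := rfl

lemma seqShift_apply {Q : Type*} [AddCommGroup Q] [Module k Q] (a : ℤ → Q) (m : ℤ) :
    seqShift k Q a m = a (m + 1) := rfl

/-- The sequence `m ↦ c^m • [S_i^m g]`. -/
noncomputable def seqOf (N : Submodule k (MvPolynomial (Fin n) k)) (c : kˣ) (i : Fin n)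
    (g : MvPolynomial (Fin n) k) : ℤ → (MvPolynomial (Fin n) k ⧸ N) :=
  fun m => ((c ^ m : kˣ) : k) • N.mkQ (sh k i m g)

lemma seqShift_sub_seqOf (N : Submodule k (MvPolynomial (Fin n) k)) (c : kˣ) (i : Fin n)
    (g : MvPolynomial (Fin n) k) :
    (seqShift k (MvPolynomial (Fin n) k ⧸ N) - (c : k) • 1) (seqOf N c i g) =
      (c : k) • seqOf N c i (dif k i g) := by
  funext m
  rw [LinearMap.sub_apply, Pi.sub_apply, seqShift_apply, LinearMap.smul_apply,
    Module.End.one_apply, Pi.smul_apply, Pi.smul_apply]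
  unfold seqOf
  rw [dif_apply, map_sub, sh_add, map_sub, smul_sub, smul_sub, smul_smul, smul_smul,
    zpow_add, Units.val_mul, zpow_one, mul_comm]

lemma seqShift_sub_pow_seqOf (N : Submodule k (MvPolynomial (Fin n) k)) (c : kˣ) (i : Fin n)
    (M : ℕ) : ∀ (g : MvPolynomial (Fin n) k),
    ((seqShift k (MvPolynomial (Fin n) k ⧸ N) - (c : k) • 1) ^ M) (seqOf N c i g) =
      ((c : k) ^ M) • seqOf N c i ((dif k i ^ M) g) := by
  induction M with
  | zero => intro g; simp
  | succ M ih =>
    intro g
    rw [pow_succ, Module.End.mul_apply, seqShift_sub_seqOf, map_smul, ih, smul_smul,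
      pow_succ (dif k i), Module.End.mul_apply, pow_succ']

lemma seqOf_mem (N : Submodule k (MvPolynomial (Fin n) k)) (c : kˣ) (i : Fin n)
    (g : MvPolynomial (Fin n) k) :
    seqOf N c i g ∈ (seqShift k (MvPolynomial (Fin n) k ⧸ N)).maxGenEigenspace (c : k) := by
  rw [Module.End.mem_maxGenEigenspace]
  obtain ⟨M, hM⟩ := exists_dif_pow i g
  refine ⟨M, ?_⟩
  rw [seqShift_sub_pow_seqOf, hM]
  have : seqOf N c i (0 : MvPolynomial (Fin n) k) = 0 := by
    funext m; simp [seqOf]
  rw [this, smul_zero]

/-- Separation of the points: each summand of `opM lam m f` lies in `N`. -/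
lemma sh_mem (lam : Fin n → kˣ) (hl : Function.Injective lam)
    (N : Submodule k (MvPolynomial (Fin n) k)) (hN : ∀ m : ℤ, ∀ f ∈ N, opM lam m f ∈ N)
    {f : MvPolynomial (Fin n) k} (hf : f ∈ N) (i : Fin n) (m : ℤ) :
    sh k i m (X i * f) ∈ N := by
  have hind := (seqShift k (MvPolynomial (Fin n) k ⧸ N)).independent_maxGenEigenspace
  have hinj : Function.Injective (fun i : Fin n => (lam i : k)) :=
    fun a b hab => hl (Units.ext hab)
  have hind2 := hind.comp hinj
  rw [iSupIndep_iff_finsetSum_eq_zero_imp_eq_zero] at hind2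
  have key := hind2 Finset.univ (fun i => seqOf N (lam i) i (X i * f))
    (fun i _ => seqOf_mem N (lam i) i (X i * f)) ?_ i (Finset.mem_univ i)
  · have h1 := congrFun key m
    unfold seqOf at h1
    rw [Pi.zero_apply] at h1
    have h2 : N.mkQ (sh k i m (X i * f)) = 0 := by
      rcases smul_eq_zero.mp h1 with h | h
      · exact absurd h (Units.ne_zero _)
      · exact h
    rwa [Submodule.mkQ_apply, Submodule.Quotient.mk_eq_zero] at h2
  · funext m
    rw [Finset.sum_apply, Pi.zero_apply]
    have h1 : N.mkQ (opM lam m f) = 0 := by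
      rw [Submodule.mkQ_apply, Submodule.Quotient.mk_eq_zero]
      exact hN m f hf
    rw [opM_apply, map_sum] at h1
    rw [← h1]
    refine Finset.sum_congr rfl fun i _ => ?_
    rw [map_smul]
    rfl

lemma mul_mem_of (lam : Fin n → kˣ) (hl : Function.Injective lam)
    (N : Submodule k (MvPolynomial (Fin n) k)) (hN : ∀ m : ℤ, ∀ f ∈ N, opM lam m f ∈ N)
    (p : MvPolynomial (Fin n) k) : ∀ f ∈ N, p * f ∈ N := by
  induction p using MvPolynomial.induction_on with
  | C c =>
    intro f hf
    rw [← MvPolynomial.smul_eq_C_mul]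
    exact N.smul_mem _ hf
  | add p q hp hq =>
    intro f hf
    rw [add_mul]
    exact N.add_mem (hp f hf) (hq f hf)
  | mul_X p j hp =>
    intro f hf
    rw [mul_assoc]
    apply hp
    have := sh_mem lam hl N hN hf j 0
    rwa [sh_zero] at this

/-- The shift by the part of `ν` supported in `s`. -/
noncomputable def shS (k : Type*) [Field k] {n : ℕ} (s : Finset (Fin n)) (ν : Fin n → ℤ) :
    MvPolynomial (Fin n) k →ₐ[k] MvPolynomial (Fin n) k :=
  MvPolynomial.aeval (fun j => MvPolynomial.X j - if j ∈ s then MvPolynomial.C (ν j : k) else 0)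

lemma shS_X (s : Finset (Fin n)) (ν : Fin n → ℤ) (j : Fin n) :
    shS k s ν (X j) = X j - if j ∈ s then C (ν j : k) else 0 := by
  simp [shS]

lemma shS_C (s : Finset (Fin n)) (ν : Fin n → ℤ) (c : k) :
    shS k s ν (C c) = C c := by
  rw [← MvPolynomial.algebraMap_eq]; exact AlgHom.commutes _ _

lemma shS_empty (ν : Fin n → ℤ) (f : MvPolynomial (Fin n) k) :
    shS k ∅ ν f = f := by
  have : shS k (∅ : Finset (Fin n)) ν = AlgHom.id k _ := by
    apply MvPolynomial.algHom_ext
    intro j
    rw [shS_X]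
    simp
  rw [this]; rfl

lemma shS_insert {s : Finset (Fin n)} {i : Fin n} (hi : i ∉ s) (ν : Fin n → ℤ)
    (f : MvPolynomial (Fin n) k) :
    shS k (insert i s) ν f = sh k i (ν i) (shS k s ν f) := by
  rw [← AlgHom.comp_apply]
  congr 1
  apply MvPolynomial.algHom_ext
  intro j
  rw [AlgHom.comp_apply, shS_X, shS_X]
  by_cases hj : j = i
  · subst hj
    simp [hi, sh_X_self]
  · rw [map_sub, sh_X_ne (Ne.symm hj)]
    simp only [Finset.mem_insert, hj, false_or]
    split_ifs
    · rw [sh_C]
    · simp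

lemma shS_prod_mem (lam : Fin n → kˣ) (hl : Function.Injective lam)
    (N : Submodule k (MvPolynomial (Fin n) k)) (hN : ∀ m : ℤ, ∀ f ∈ N, opM lam m f ∈ N)
    (ν : Fin n → ℤ) {f : MvPolynomial (Fin n) k} (hf : f ∈ N) (s : Finset (Fin n)) :
    shS k s ν ((∏ i ∈ s, X i) * f) ∈ N := by
  induction s using Finset.induction_on with
  | empty => simpa [shS_empty] using hf
  | insert i s hi ih =>
    rw [Finset.prod_insert hi, shS_insert hi, mul_assoc, map_mul, shS_X]
    simp only [hi, if_false, sub_zero]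
    exact sh_mem lam hl N hN ih i (ν i)

theorem opM_simple [CharZero k] {n : ℕ} (lam : Fin n → kˣ) (hl : Function.Injective lam)
    (N : Submodule k (MvPolynomial (Fin n) k)) (hN : ∀ m : ℤ, ∀ f ∈ N, opM lam m f ∈ N)
    (h0 : N ≠ ⊥) : N = ⊤ := by
  classical
  obtain ⟨f, hf, hf0⟩ := (Submodule.ne_bot_iff _).mp h0
  by_contra hne
  -- `N` as an ideal
  let I : Ideal (MvPolynomial (Fin n) k) :=
    { carrier := N
      add_mem' := fun ha hb => N.add_mem ha hb
      zero_mem' := N.zero_mem
      smul_mem' := fun p q hq => mul_mem_of lam hl N hN p q hq }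
  have hI : I ≠ ⊤ := by
    intro h
    apply hne
    rw [eq_top_iff]
    intro x _
    have : x ∈ I := by rw [h]; trivial
    exact this
  obtain ⟨m, hm, hIm⟩ := Ideal.exists_le_maximal I hI
  have := hm
  let _ : Field (MvPolynomial (Fin n) k ⧸ m) := Ideal.Quotient.field m
  set π : MvPolynomial (Fin n) k →+* (MvPolynomial (Fin n) k ⧸ m) := Ideal.Quotient.mk m with hπ
  let φ : k →+* (MvPolynomial (Fin n) k ⧸ m) := π.comp C
  have : CharZero (MvPolynomial (Fin n) k ⧸ m) := charZero_of_injective_ringHom φ.injective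
  set g : MvPolynomial (Fin n) k := (∏ i, X i) * f with hg
  have hg0 : g ≠ 0 := by
    rw [hg]
    refine mul_ne_zero ?_ hf0
    rw [Finset.prod_ne_zero_iff]
    intro i _
    exact X_ne_zero i
  have hgm : ∀ ν : Fin n → ℤ, π (shS k Finset.univ ν g) = 0 := by
    intro ν
    rw [hπ, Ideal.Quotient.eq_zero_iff_mem]
    exact hIm (shS_prod_mem lam hl N hN ν hf Finset.univ)
  have hev : ∀ ν : Fin n → ℤ, ∀ p : MvPolynomial (Fin n) k,
      π (shS k Finset.univ ν p) = eval (fun j => π (X j) - (ν j : MvPolynomial (Fin n) k ⧸ m))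
        (MvPolynomial.map φ p) := by
    intro ν p
    induction p using MvPolynomial.induction_on with
    | C c => rw [shS_C, map_C, eval_C]; rfl
    | add p q hp hq => rw [map_add, map_add, map_add, map_add, hp, hq]
    | mul_X p j hp =>
      rw [map_mul, map_mul, map_mul, map_mul, hp, map_X, eval_X, shS_X]
      simp
  have hz : MvPolynomial.map φ g = 0 := by
    refine MvPolynomial.funext_set
      (fun j => Set.range (fun ν : ℤ => π (X j) - (ν : MvPolynomial (Fin n) k ⧸ m))) ?_ ?_
    · intro j
      apply Set.infinite_range_of_injective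
      intro a b hab
      have : ((a : ℤ) : MvPolynomial (Fin n) k ⧸ m) = (b : ℤ) := by
        simpa using hab
      exact_mod_cast this
    · intro x hx
      choose ν hν using fun j => hx j (Set.mem_univ j)
      have hx' : x = fun j => π (X j) - (ν j : MvPolynomial (Fin n) k ⧸ m) := by
        funext j; exact (hν j).symm
      rw [map_zero, hx', ← hev, hgm]
  exact hg0 (MvPolynomial.map_injective φ φ.injective (by rw [hz, map_zero]))

end Simple

end Pool.Agent.H48.Witt
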