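import Mathlib

/-!
# Common definitions for MP_f251f6_al (helper48)

`LP k G` = group algebra of an additive commutative group `G`; for `G = ι → ℤ` this is the ring of
Laurent polynomials in the variables `ι`.  `lin f` is the linear extension of `f : G → V`.
`WittRel k a` says that the family `a n` satisfies the relations of the Witt algebra.
`fprod e ℓ μ = e (μ ℓ₁) * e (μ ℓ₂) * ...`, and `EE e ℓ H = ∑ H_μ • fprod e ℓ μ`.
-/

set_option autoImplicit false

namespace Pool.Agent.H48.Witt

open Finset

section Lin

variable {k : Type*} [Field k]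

/-- The group algebra of an additive group. -/
abbrev LP (k : Type*) [Field k] (G : Type*) := AddMonoidAlgebra k G

/-- The monomial `t^g`. -/
noncomputable def mon {G : Type*} (g : G) : LP k G := AddMonoidAlgebra.single g 1

/-- Linear extension of a function given on monomials. -/
noncomputable def lin {G V : Type*} [AddCommGroup V] [Module k V] (f : G → V) :
    LP k G →ₗ[k] V :=
  (Finsupp.linearCombination k f).comp (AddMonoidAlgebra.coeffLinearEquiv k).toLinearMap

variable {G V : Type*} [AddCommGroup V] [Module k V]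

lemma lin_single (f : G → V) (g : G) (c : k) :
    lin f (AddMonoidAlgebra.single g c) = c • f g := by
  simp [lin]

@[simp] lemma lin_mon (f : G → V) (g : G) : lin f (mon g : LP k G) = f g := by
  simp [mon, lin_single]

lemma LP_induction {motive : LP k G → Prop} (h0 : motive 0)
    (hadd : ∀ x y, motive x → motive y → motive (x + y))
    (hmon : ∀ g (c : k), motive (c • mon g)) (x : LP k G) : motive x := by
  refine AddMonoidAlgebra.induction_linear x h0 (fun x y hx hy => hadd x y hx hy) ?_
  intro g c
  have := hmon g c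
  simpa [mon] using this

lemma lin_ext_apply (f : G → V) (x : LP k G) (φ : LP k G →ₗ[k] V) (h : ∀ g, φ (mon g) = f g) :
    φ x = lin f x := by
  induction x using LP_induction with
  | h0 => simp
  | hadd x y hx hy => simp [hx, hy]
  | hmon g c => simp [h]

lemma lhom_ext {φ ψ : LP k G →ₗ[k] V} (h : ∀ g, φ (mon g) = ψ (mon g)) : φ = ψ := by
  ext x
  have := h x
  simpa [mon] using this

lemma lin_add (f g : G → V) (x : LP k G) :
    lin (fun y => f y + g y) x = lin f x + lin g x := by
  rw [← LinearMap.add_apply]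
  refine (lin_ext_apply _ _ _ ?_).symm
  intro y; simp

lemma lin_sub (f g : G → V) (x : LP k G) :
    lin (fun y => f y - g y) x = lin f x - lin g x := by
  rw [← LinearMap.sub_apply]
  refine (lin_ext_apply _ _ _ ?_).symm
  intro y; simp

lemma lin_smul (c : k) (f : G → V) (x : LP k G) :
    lin (fun y => c • f y) x = c • lin f x := by
  rw [← LinearMap.smul_apply]
  refine (lin_ext_apply _ _ _ ?_).symm
  intro y; simp

lemma lin_zero (x : LP k G) : lin (fun _ => (0 : V)) x = 0 := by
  have := lin_smul (0 : k) (fun _ : G => (0 : V)) x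
  simpa using this

lemma map_lin {V' : Type*} [AddCommGroup V'] [Module k V'] (φ : V →ₗ[k] V') (f : G → V)
    (x : LP k G) : φ (lin f x) = lin (fun y => φ (f y)) x := by
  rw [← LinearMap.comp_apply]
  refine (lin_ext_apply _ _ _ ?_)
  intro y; simp

variable [AddCommGroup G]

lemma mon_mul_mon (g h : G) : (mon g * mon h : LP k G) = mon (g + h) := by
  simp [mon, AddMonoidAlgebra.single_mul_single]

@[simp] lemma mon_zero : (mon (0 : G) : LP k G) = 1 := rfl

lemma mon_neg_mul_mon (g : G) : (mon (-g) * mon g : LP k G) = 1 := by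
  simp [mon_mul_mon]

lemma isUnit_mon (g : G) : IsUnit (mon g : LP k G) :=
  IsUnit.of_mul_eq_one (mon (-g)) (by simp [mon_mul_mon])

lemma lin_mon_mul (f : G → V) (g : G) (x : LP k G) :
    lin f (mon g * x) = lin (fun y => f (g + y)) x := by
  induction x using LP_induction with
  | h0 => simp
  | hadd x y hx hy => simp [mul_add, hx, hy]
  | hmon y c =>
    rw [mul_smul_comm, mon_mul_mon]
    simp

/-- `{a | ∀ x, lin f (a * x) ∈ N}`: the ideal of multipliers killing `f` modulo `N`. -/
def kill (f : G → V) (N : Submodule k V) : Ideal (LP k G) where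
  carrier := {a | ∀ x, lin f (a * x) ∈ N}
  add_mem' := by
    intro a b ha hb x
    rw [add_mul, map_add]
    exact N.add_mem (ha x) (hb x)
  zero_mem' := by intro x; simp
  smul_mem' := by
    intro c a ha x
    have : c • a * x = a * (c * x) := by
      rw [smul_eq_mul]; ring
    rw [this]
    exact ha _

lemma mem_kill {f : G → V} {N : Submodule k V} {a : LP k G} :
    a ∈ kill f N ↔ ∀ x, lin f (a * x) ∈ N := Iff.rfl

lemma mem_kill_iff_mon {f : G → V} {N : Submodule k V} {a : LP k G} :
    a ∈ kill f N ↔ ∀ g, lin f (a * mon g) ∈ N := by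
  constructor
  · intro h g; exact h _
  · intro h x
    induction x using LP_induction with
    | h0 => simp
    | hadd x y hx hy => rw [mul_add, map_add]; exact N.add_mem hx hy
    | hmon g c => rw [mul_smul_comm, map_smul]; exact N.smul_mem _ (h g)

end Lin

section Multi

variable {k : Type*} [Field k]

/-- The variable `t_i` in `k[ℤ^ι]`. -/
noncomputable def tt (k : Type*) [Field k] {ι : Type*} [DecidableEq ι] (i : ι) : LP k (ι → ℤ) :=
  mon (Pi.single i 1)

/-- `t_a - t_b`. -/
noncomputable def dd (k : Type*) [Field k] {ι : Type*} [DecidableEq ι] (a b : ι) :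
    LP k (ι → ℤ) := tt k a - tt k b

lemma dd_swap {ι : Type*} [DecidableEq ι] (a b : ι) : dd k a b = - dd k b a := by
  simp [dd]

lemma dd_sq_swap {ι : Type*} [DecidableEq ι] (a b : ι) : dd k a b ^ 2 = dd k b a ^ 2 := by
  rw [dd_swap]; ring

/-- The Vandermonde product of a list of variables. -/
noncomputable def vdl (k : Type*) [Field k] {ι : Type*} [DecidableEq ι] :
    List ι → LP k (ι → ℤ)
  | [] => 1
  | a :: l => (l.map (fun b => dd k a b)).prod * vdl k l

/-- The Vandermonde product of all variables in `Fin d`. -/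
noncomputable def vdm (k : Type*) [Field k] (d : ℕ) : LP k (Fin d → ℤ) :=
  vdl k (List.finRange d)

end Multi

section Witt

variable {k : Type*} [Field k] {A : Type*} [Ring A] [Algebra k A]

/-- The relations of the Witt algebra for a family in an associative algebra. -/
def WittRel (k : Type*) [Field k] {A : Type*} [Ring A] [Algebra k A] (a : ℤ → A) : Prop :=
  ∀ m n : ℤ, a m * a n - a n * a m = ((n - m : ℤ) : k) • a (m + n)

/-- `e (μ ℓ₁) * e (μ ℓ₂) * ...`. -/
def fprod (e : ℤ → A) {ι : Type*} (ℓ : List ι) (μ : ι → ℤ) : A := (ℓ.map (fun i => e (μ i))).prod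

@[simp] lemma fprod_nil (e : ℤ → A) {ι : Type*} (μ : ι → ℤ) : fprod e ([] : List ι) μ = 1 := rfl

@[simp] lemma fprod_cons (e : ℤ → A) {ι : Type*} (a : ι) (ℓ : List ι) (μ : ι → ℤ) :
    fprod e (a :: ℓ) μ = e (μ a) * fprod e ℓ μ := by simp [fprod]

@[simp] lemma fprod_append (e : ℤ → A) {ι : Type*} (ℓ ℓ' : List ι) (μ : ι → ℤ) :
    fprod e (ℓ ++ ℓ') μ = fprod e ℓ μ * fprod e ℓ' μ := by simp [fprod]

/-- The smeared product `∑ H_μ e_{μ ℓ₁} e_{μ ℓ₂} ...`. -/
noncomputable def EE (e : ℤ → A) {ι : Type*} (ℓ : List ι) : LP k (ι → ℤ) →ₗ[k] A :=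
  lin (fprod e ℓ)

/-- The relation `E_d(Δ^M H) ∈ N` for all `H`. -/
def Rel (e : ℤ → A) (N : Submodule k A) (d M : ℕ) : Prop :=
  vdm k d ^ M ∈ kill (fprod e (List.finRange d)) N

end Witt

end Pool.Agent.H48.Witt
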