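import Pool.Agent.H48.Witt.Window

/-!
# Prime and primitive ideals
-/

set_option autoImplicit false

namespace Pool.Agent.H48.Witt

open Finset

universe u

section General

variable {R : Type u} [Ring R]

/-- `P` is a prime two-sided ideal. -/
def IsPrimeIdeal (P : TwoSidedIdeal R) : Prop :=
  P ≠ ⊤ ∧ ∀ I J : TwoSidedIdeal R, (∀ a ∈ I, ∀ b ∈ J, a * b ∈ P) → I ≤ P ∨ J ≤ P

/-- `Q` is the annihilator of a simple left module. -/
def IsPrimitiveIdeal (Q : TwoSidedIdeal R) : Prop :=
  ∃ (M : Type u) (_ : AddCommGroup M) (_ : Module R M), IsSimpleModule R M ∧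
    ∀ r : R, r ∈ Q ↔ ∀ m : M, r • m = 0

lemma IsPrimeIdeal.one_not_mem {P : TwoSidedIdeal R} (hP : IsPrimeIdeal P) : (1 : R) ∉ P := by
  intro h
  apply hP.1
  rw [eq_top_iff]
  intro x _
  have := P.mul_mem_left x 1 h
  rwa [mul_one] at this

lemma IsPrimeIdeal.elementwise {P : TwoSidedIdeal R} (hP : IsPrimeIdeal P) (x y : R)
    (h : ∀ v, x * v * y ∈ P) : x ∈ P ∨ y ∈ P := by
  let I : TwoSidedIdeal R := TwoSidedIdeal.mk' {a | ∀ v, a * v * y ∈ P}
    (by intro v; rw [zero_mul, zero_mul]; exact P.zero_mem)
    (by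
      intro a b ha hb v
      rw [add_mul, add_mul]; exact P.add_mem (ha v) (hb v))
    (by
      intro a ha v
      rw [neg_mul, neg_mul]; exact P.neg_mem (ha v))
    (by
      intro r a ha v
      rw [mul_assoc, mul_assoc, ← mul_assoc a]; exact P.mul_mem_left _ _ (ha v))
    (by
      intro a r ha v
      have := ha (r * v)
      rwa [← mul_assoc a] at this)
  let J : TwoSidedIdeal R := TwoSidedIdeal.mk' {b | ∀ a, (∀ v, a * v * y ∈ P) → ∀ v, a * v * b ∈ P}
    (by intro a _ v; rw [mul_zero]; exact P.zero_mem)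
    (by
      intro b c hb hc a ha v
      rw [mul_add]; exact P.add_mem (hb a ha v) (hc a ha v))
    (by
      intro b hb a ha v
      rw [mul_neg]; exact P.neg_mem (hb a ha v))
    (by
      intro r b hb a ha v
      have := hb a ha (v * r)
      rwa [← mul_assoc, mul_assoc (a * v)] at this)
    (by
      intro b r hb a ha v
      rw [← mul_assoc]; exact P.mul_mem_right _ _ (hb a ha v))
  have hI : ∀ a, a ∈ I ↔ ∀ v, a * v * y ∈ P := fun a => TwoSidedIdeal.mem_mk' _ _ _ _ _ _ a
  have hJ : ∀ b, b ∈ J ↔ ∀ a, (∀ v, a * v * y ∈ P) → ∀ v, a * v * b ∈ P :=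
    fun b => TwoSidedIdeal.mem_mk' _ _ _ _ _ _ b
  rcases hP.2 I J (by
    intro a ha b hb
    have := (hJ b).mp hb a ((hI a).mp ha) 1
    rwa [mul_one] at this) with h' | h'
  · exact Or.inl (h' ((hI x).mpr h))
  · exact Or.inr (h' ((hJ y).mpr (fun a ha v => ha v)))

end General

section Ker

variable {k : Type u} [Field k] {A : Type u} [Ring A] [Algebra k A]

/-- The kernel of an irreducible representation is a primitive ideal. -/
lemma isPrimitive_ker {V : Type u} [AddCommGroup V] [Module k V] [Nontrivial V]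
    (ρ : A →ₐ[k] Module.End k V)
    (h : ∀ N : Submodule k V, (∀ a, ∀ f ∈ N, ρ a f ∈ N) → N = ⊥ ∨ N = ⊤) :
    IsPrimitiveIdeal (TwoSidedIdeal.ker ρ) := by
  let _ : Module A V := Module.compHom V (ρ : A →+* Module.End k V)
  have hsmul : ∀ (a : A) (v : V), a • v = ρ a v := fun a v => rfl
  refine ⟨V, inferInstance, inferInstance, ?_, ?_⟩
  · rw [isSimpleModule_iff]
    refine ⟨fun N => ?_⟩
    let N' : Submodule k V :=
      { carrier := N
        add_mem' := fun ha hb => N.add_mem ha hb
        zero_mem' := N.zero_mem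
        smul_mem' := by
          intro c x hx
          have := N.smul_mem (algebraMap k A c) hx
          rw [hsmul, AlgHom.commutes, Module.algebraMap_end_apply] at this
          exact this }
    rcases h N' (fun a f hf => N.smul_mem a hf) with h1 | h1
    · left
      rw [eq_bot_iff]
      intro x hx
      have : x ∈ N' := hx
      rw [h1] at this
      simpa using this
    · right
      rw [eq_top_iff]
      intro x _
      have : x ∈ N' := by rw [h1]; trivial
      exact this
  · intro r
    rw [TwoSidedIdeal.mem_ker]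
    constructor
    · intro hr m
      rw [hsmul, hr]; rfl
    · intro hr
      apply LinearMap.ext
      intro m
      exact hr m

end Ker

/-- `P` as a subspace. -/
def toSub {k : Type u} [Field k] {A : Type u} [Ring A] [Algebra k A] (P : TwoSidedIdeal A) :
    Submodule k A where
  carrier := {x | x ∈ P}
  add_mem' := fun ha hb => P.add_mem ha hb
  zero_mem' := P.zero_mem
  smul_mem' := by
    intro c x hx
    change c • x ∈ P
    rw [Algebra.smul_def]
    exact P.mul_mem_left _ _ hx

lemma toSub_isTS {k : Type u} [Field k] {A : Type u} [Ring A] [Algebra k A]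
    (P : TwoSidedIdeal A) : IsTS (toSub (k := k) P) where
  left := fun a x hx => P.mul_mem_left a x hx
  right := fun a x hx => P.mul_mem_right x a hx

end Pool.Agent.H48.Witt
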