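import Pool.Agent.H48.Witt.Defs

/-!
# The enveloping algebra of the Witt algebra (MP_f251f6_al, helper5 for helper48)

The Witt algebra is the Lie algebra of derivations of `k[T, T⁻¹]`; the derivations
`e_n = T^n (T d/dT)` satisfy the relations `WittRel`, generate the enveloping algebra, and every
family satisfying `WittRel` in an associative algebra comes from an algebra homomorphism.
-/

set_option autoImplicit false

namespace Pool.Agent.H48.Witt

open Finset

attribute [local instance 100] LieRing.ofAssociativeRing

section U
variable (k : Type*) [Field k]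

/-- The Witt algebra: derivations of the Laurent polynomial ring. -/
abbrev WittAlg := Derivation k (LaurentPolynomial k) (LaurentPolynomial k)

/-- Its enveloping algebra. -/
abbrev UWitt := UniversalEnvelopingAlgebra k (WittAlg k)

/-- The linear map `T^m ↦ m T^(m+n)`. -/
noncomputable def eDlin (n : ℤ) : LaurentPolynomial k →ₗ[k] LaurentPolynomial k :=
  lin (fun m : ℤ => (m : k) • LaurentPolynomial.T (m + n))

lemma eDlin_T (n m : ℤ) :
    eDlin k n (LaurentPolynomial.T m) = (m : k) • LaurentPolynomial.T (m + n) := by
  unfold eDlin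
  exact lin_mon (k := k) (fun m : ℤ => (m : k) • LaurentPolynomial.T (m + n)) m

lemma eDlin_leibniz (n : ℤ) (a b : LaurentPolynomial k) :
    eDlin k n (a * b) = a • eDlin k n b + b • eDlin k n a := by
  induction a using LP_induction with
  | h0 => simp
  | hadd x y hx hy =>
    rw [add_mul, map_add, hx, hy, map_add]
    simp only [smul_eq_mul]
    ring
  | hmon g c =>
    induction b using LP_induction with
    | h0 => simp
    | hadd x y hx hy =>
      rw [mul_add, map_add, hx, hy, map_add]
      simp only [smul_eq_mul]
      ring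
    | hmon h d =>
      have hg : (mon g : LP k ℤ) = LaurentPolynomial.T g := rfl
      have hh : (mon h : LP k ℤ) = LaurentPolynomial.T h := rfl
      rw [smul_mul_smul_comm, mon_mul_mon]
      have hgh : (mon (g + h) : LP k ℤ) = LaurentPolynomial.T (g + h) := rfl
      rw [hg, hh, hgh, map_smul, map_smul, map_smul, eDlin_T, eDlin_T, eDlin_T]
      simp only [smul_eq_mul, smul_mul_assoc, mul_smul_comm, smul_smul, ← LaurentPolynomial.T_add]
      have e1 : g + (h + n) = g + h + n := by ring
      have e2 : h + (g + n) = g + h + n := by ring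
      rw [e1, e2, ← add_smul]
      congr 1
      push_cast
      ring

/-- `e_n = T^n * (T d/dT)`. -/
noncomputable def eD (n : ℤ) : WittAlg k :=
  Derivation.mk' (eDlin k n) (eDlin_leibniz k n)

theorem eD_apply_T (n m : ℤ) :
    eD k n (LaurentPolynomial.T m) = (m : k) • LaurentPolynomial.T (m + n) :=
  eDlin_T k n m

/-- A derivation of the Laurent polynomials is determined by its value at `T`. -/
lemma der_ext {D D' : WittAlg k}
    (h : D (LaurentPolynomial.T 1) = D' (LaurentPolynomial.T 1)) : D = D' := by
  have hm : D (LaurentPolynomial.T (-1)) = D' (LaurentPolynomial.T (-1)) := by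
    have h1 : (LaurentPolynomial.T (-1) * LaurentPolynomial.T 1 : LaurentPolynomial k) = 1 := by
      rw [← LaurentPolynomial.T_add]; simp
    rw [D.leibniz_of_mul_eq_one h1, D'.leibniz_of_mul_eq_one h1, h]
  have key : ∀ m : ℤ, D (LaurentPolynomial.T m) = D' (LaurentPolynomial.T m) := by
    intro m
    induction m using Int.induction_on with
    | zero => simp
    | succ i hi => rw [LaurentPolynomial.T_add, D.leibniz, D'.leibniz, hi, h]
    | pred i hi =>
      have e : (-(i : ℤ) - 1) = -(i : ℤ) + (-1) := by ring
      rw [e, LaurentPolynomial.T_add, D.leibniz, D'.leibniz, hi, hm]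
  refine Derivation.ext (fun x => ?_)
  induction x using LP_induction with
  | h0 => simp
  | hadd x y hx hy => rw [map_add, map_add, hx, hy]
  | hmon g c =>
    rw [Derivation.map_smul, Derivation.map_smul]
    have := key g
    exact congrArg (fun z => c • z) this

lemma der_smul_lie (c : k) (x y : WittAlg k) : ⁅c • x, y⁆ = c • ⁅x, y⁆ := by
  refine Derivation.ext (fun a => ?_)
  simp only [Derivation.commutator_apply, Derivation.smul_apply, Derivation.map_smul, smul_sub]

lemma der_lie_smul (c : k) (x y : WittAlg k) : ⁅x, c • y⁆ = c • ⁅x, y⁆ := by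
  refine Derivation.ext (fun a => ?_)
  simp only [Derivation.commutator_apply, Derivation.smul_apply, Derivation.map_smul, smul_sub]

lemma der_zero_lie (y : WittAlg k) : ⁅(0 : WittAlg k), y⁆ = 0 := by
  refine Derivation.ext (fun a => ?_)
  simp [Derivation.commutator_apply]

lemma der_lie_zero (y : WittAlg k) : ⁅y, (0 : WittAlg k)⁆ = 0 := by
  refine Derivation.ext (fun a => ?_)
  simp [Derivation.commutator_apply]

lemma eD_comm (m n : ℤ) : ⁅eD k m, eD k n⁆ = ((n - m : ℤ) : k) • eD k (m + n) := by
  apply der_ext
  rw [Derivation.commutator_apply, Derivation.smul_apply, eD_apply_T, eD_apply_T, eD_apply_T,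
    Derivation.map_smul, Derivation.map_smul, eD_apply_T, eD_apply_T]
  simp only [smul_smul]
  have e1 : (1 : ℤ) + n + m = 1 + (m + n) := by ring
  have e2 : (1 : ℤ) + m + n = 1 + (m + n) := by ring
  rw [e1, e2, ← sub_smul]
  congr 1
  push_cast
  ring

/-- Expansion of a derivation in the `e_n`. -/
lemma der_expand (D : WittAlg k) :
    D = lin (fun j : ℤ => eD k (j - 1)) (D (LaurentPolynomial.T 1)) := by
  apply der_ext
  generalize D (LaurentPolynomial.T 1) = p
  induction p using LP_induction with
  | h0 => simp
  | hadd x y hx hy =>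
    rw [map_add, Derivation.add_apply, ← hx, ← hy]
  | hmon g c =>
    rw [map_smul, lin_mon, Derivation.smul_apply, eD_apply_T]
    have e1 : (1 : ℤ) + (g - 1) = g := by ring
    rw [e1, Int.cast_one, one_smul]
    rfl

lemma der_induction {motive : WittAlg k → Prop} (h0 : motive 0)
    (hadd : ∀ x y, motive x → motive y → motive (x + y))
    (hmon : ∀ (n : ℤ) (c : k), motive (c • eD k n)) (D : WittAlg k) : motive D := by
  rw [der_expand k D]
  generalize D (LaurentPolynomial.T 1) = p
  induction p using LP_induction with
  | h0 => rw [map_zero]; exact h0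
  | hadd x y hx hy => rw [map_add]; exact hadd _ _ hx hy
  | hmon g c => rw [map_smul, lin_mon]; exact hmon _ _

/-- the generators of `U(W)` -/
noncomputable def eU (n : ℤ) : UWitt k := UniversalEnvelopingAlgebra.ι k (eD k n)

theorem eU_wittRel : WittRel k (eU k) := by
  intro m n
  have h := LieHom.map_lie (UniversalEnvelopingAlgebra.ι k) (eD k m) (eD k n)
  rw [eD_comm, map_smul, LieRing.of_associative_ring_bracket] at h
  exact h.symm

/-- The enveloping algebra is generated by the image of the Lie algebra. -/
lemma adjoin_range_ι : Algebra.adjoin k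
    (Set.range (UniversalEnvelopingAlgebra.ι k : WittAlg k → UWitt k)) = ⊤ := by
  set S := Algebra.adjoin k
    (Set.range (UniversalEnvelopingAlgebra.ι k : WittAlg k → UWitt k)) with hS
  let f : WittAlg k →ₗ⁅k⁆ S :=
    { toFun := fun D => ⟨UniversalEnvelopingAlgebra.ι k D, Algebra.subset_adjoin ⟨D, rfl⟩⟩
      map_add' := by intro x y; ext; simp
      map_smul' := by intro c x; ext; simp
      map_lie' := by
        intro x y
        ext
        simp only [LieHom.map_lie, LieRing.of_associative_ring_bracket]
        rfl }
  let ρ : UWitt k →ₐ[k] S := UniversalEnvelopingAlgebra.lift k f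
  have h : S.val.comp ρ = AlgHom.id k (UWitt k) := by
    apply UniversalEnvelopingAlgebra.hom_ext
    ext D
    have : ρ (UniversalEnvelopingAlgebra.ι k D) = f D := UniversalEnvelopingAlgebra.lift_ι_apply k f D
    simp only [LieHom.coe_comp, AlgHom.coe_toLieHom, Function.comp_apply, AlgHom.coe_comp,
      AlgHom.coe_id, id_eq]
    rw [this]
    rfl
  rw [eq_top_iff]
  intro u _
  have := DFunLike.congr_fun h u
  simp only [AlgHom.coe_comp, Function.comp_apply, AlgHom.coe_id, id_eq] at this
  rw [← this]
  exact (ρ u).2

theorem eU_adjoin : Algebra.adjoin k (Set.range (eU k)) = ⊤ := by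
  rw [eq_top_iff, ← adjoin_range_ι k]
  apply Algebra.adjoin_le
  rintro _ ⟨D, rfl⟩
  refine der_induction k (motive := fun D => (UniversalEnvelopingAlgebra.ι k D : UWitt k) ∈
    Algebra.adjoin k (Set.range (eU k))) ?_ ?_ ?_ D
  · simp
  · intro x y hx hy
    rw [map_add]
    exact add_mem hx hy
  · intro n c
    rw [map_smul]
    have hmem : (UniversalEnvelopingAlgebra.ι k (eD k n) : UWitt k) ∈
        Algebra.adjoin k (Set.range (eU k)) := Algebra.subset_adjoin ⟨n, rfl⟩
    exact Subalgebra.smul_mem _ hmem c

/-- universal property -/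
theorem exists_hom {A : Type*} [Ring A] [Algebra k A] (a : ℤ → A) (ha : WittRel k a) :
    ∃ ρ : UWitt k →ₐ[k] A, ∀ n, ρ (eU k n) = a n := by
  let φ : WittAlg k →ₗ[k] A :=
    { toFun := fun D => lin (fun j : ℤ => a (j - 1)) (D (LaurentPolynomial.T 1))
      map_add' := by intro x y; rw [Derivation.add_apply, map_add]
      map_smul' := by intro c x; rw [Derivation.smul_apply, map_smul]; rfl }
  have hφ : ∀ n, φ (eD k n) = a n := by
    intro n
    change lin (fun j : ℤ => a (j - 1)) (eD k n (LaurentPolynomial.T 1)) = a n
    rw [eD_apply_T]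
    have : (LaurentPolynomial.T (1 + n) : LaurentPolynomial k) = mon (1 + n) := rfl
    rw [map_smul, this, lin_mon]
    simp
  let f : WittAlg k →ₗ⁅k⁆ A :=
    { φ with
      map_lie' := by
        intro x y
        change φ ⁅x, y⁆ = ⁅φ x, φ y⁆
        refine der_induction k (motive := fun x => φ ⁅x, y⁆ = ⁅φ x, φ y⁆) ?_ ?_ ?_ x
        · rw [der_zero_lie, map_zero, zero_lie]
        · intro x x' hx hx'
          rw [LieRing.add_lie, map_add, hx, hx', map_add, LieRing.add_lie]
        · intro m c
          refine der_induction k (motive := fun y => φ ⁅c • eD k m, y⁆ = ⁅φ (c • eD k m), φ y⁆)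
            ?_ ?_ ?_ y
          · rw [der_lie_zero, map_zero, lie_zero]
          · intro y y' hy hy'
            rw [LieRing.lie_add, map_add, hy, hy', map_add, LieRing.lie_add]
          · intro n d
            rw [der_smul_lie, der_lie_smul, eD_comm, map_smul, map_smul, map_smul, map_smul,
              map_smul, hφ, hφ, hφ, LieRing.of_associative_ring_bracket, smul_mul_smul_comm,
              smul_mul_smul_comm, mul_comm d c, ← smul_sub, ha m n, smul_smul c d] }
  refine ⟨UniversalEnvelopingAlgebra.lift k f, ?_⟩
  intro n
  unfold eU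
  rw [UniversalEnvelopingAlgebra.lift_ι_apply]
  exact hφ n

end U

end Pool.Agent.H48.Witt
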