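import Pool.Agent.H48.Witt.Nonzero
import Pool.Agent.H48.Witt.UWitt
import Pool.Agent.H48.Witt.PrimeDefs

/-!
# A highest weight vector of nonzero weight makes the zero ideal primitive
-/

set_option autoImplicit false

namespace Pool.Agent.H48.Witt

open Finset

universe u

section Words

variable {k : Type*} [Field k] {V : Type*} [AddCommGroup V] [Module k V]

/-- the vector `a_{w₁} a_{w₂} ... v` -/
def wv (a : ℤ → Module.End k V) (v : V) (w : List ℤ) : V := (w.map a).prod v

lemma wv_nil (a : ℤ → Module.End k V) (v : V) : wv a v [] = v := rfl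

lemma wv_cons (a : ℤ → Module.End k V) (v : V) (m : ℤ) (w : List ℤ) :
    wv a v (m :: w) = a m (wv a v w) := by
  simp [wv]

/-- commuting `a m` to the right -/
lemma wv_comm (a : ℤ → Module.End k V) (ha : WittRel k a) (v : V) (m : ℤ) (hm : a m v = 0)
    (w : List ℤ) :
    wv a v (m :: w) ∈ Submodule.span k {x | ∃ w' : List ℤ, w'.length = w.length ∧
      w'.sum = m + w.sum ∧ x = wv a v w'} := by
  induction w with
  | nil =>
    rw [wv_cons, wv_nil, hm]
    exact Submodule.zero_mem _
  | cons n w ih =>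
    have h1 : wv a v (m :: n :: w) = a n (wv a v (m :: w)) +
        ((n - m : ℤ) : k) • wv a v ((m + n) :: w) := by
      have h2 := ha m n
      rw [sub_eq_iff_eq_add] at h2
      rw [wv_cons, wv_cons, wv_cons, wv_cons, ← Module.End.mul_apply, h2, LinearMap.add_apply,
        Module.End.mul_apply, LinearMap.smul_apply, add_comm]
    rw [h1]
    refine Submodule.add_mem _ ?_ ?_
    · have h3 : a n (wv a v (m :: w)) ∈ Submodule.map (a n) (Submodule.span k
          {x | ∃ w' : List ℤ, w'.length = w.length ∧ w'.sum = m + w.sum ∧ x = wv a v w'}) :=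
        Submodule.mem_map_of_mem ih
      rw [Submodule.map_span] at h3
      refine Submodule.span_mono ?_ h3
      rintro _ ⟨_, ⟨w', h4, h5, rfl⟩, rfl⟩
      refine ⟨n :: w', by simp [h4], ?_, (wv_cons a v n w').symm⟩
      simp only [List.sum_cons, h5]; ring
    · apply Submodule.smul_mem
      apply Submodule.subset_span
      refine ⟨(m + n) :: w, by simp, ?_, rfl⟩
      simp only [List.sum_cons]; ring

/-- every word vector is a combination of word vectors with nonpositive entries -/
lemma wv_mem (a : ℤ → Module.End k V) (ha : WittRel k a) (v : V)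
    (hv : ∀ m : ℤ, 0 < m → a m v = 0) (r : ℕ) : ∀ w : List ℤ, w.length ≤ r →
    wv a v w ∈ Submodule.span k {x | ∃ w' : List ℤ, w'.length ≤ r ∧ (∀ m ∈ w', m ≤ 0) ∧
      w'.sum = w.sum ∧ x = wv a v w'} := by
  induction r with
  | zero =>
    intro w hw
    have : w = [] := List.length_eq_zero_iff.mp (by omega)
    subst this
    exact Submodule.subset_span ⟨[], by simp, by simp, rfl, rfl⟩
  | succ r ih =>
    intro w hw
    cases w with
    | nil => exact Submodule.subset_span ⟨[], by simp, by simp, rfl, rfl⟩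
    | cons m w =>
      have hw' : w.length ≤ r := by simpa using hw
      have h1 := ih w hw'
      have h2 : a m (wv a v w) ∈ Submodule.map (a m) (Submodule.span k
          {x | ∃ w' : List ℤ, w'.length ≤ r ∧ (∀ m ∈ w', m ≤ 0) ∧
          w'.sum = w.sum ∧ x = wv a v w'}) := Submodule.mem_map_of_mem h1
      rw [Submodule.map_span] at h2
      rw [wv_cons]
      refine Submodule.span_le.mpr ?_ h2
      rintro _ ⟨_, ⟨w', h3, h4, h5, rfl⟩, rfl⟩
      by_cases hm : m ≤ 0
      · apply Submodule.subset_span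
        refine ⟨m :: w', by simpa using h3, ?_, by simp [h5], (wv_cons a v m w').symm⟩
        intro x hx
        rcases List.mem_cons.mp hx with rfl | hx
        · exact hm
        · exact h4 x hx
      · have h6 := wv_comm a ha v m (hv m (by omega)) w'
        rw [wv_cons] at h6
        refine Submodule.span_le.mpr ?_ h6
        rintro _ ⟨w'', h7, h8, rfl⟩
        have h9 := ih w'' (by omega)
        refine Submodule.span_mono ?_ h9
        rintro _ ⟨w3, h10, h11, h12, rfl⟩
        refine ⟨w3, by omega, h11, ?_, rfl⟩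
        rw [h12, h8, h5, List.sum_cons]

lemma wv_eq_zero (a : ℤ → Module.End k V) (ha : WittRel k a) (v : V)
    (hv : ∀ m : ℤ, 0 < m → a m v = 0) (w : List ℤ) (hw : 0 < w.sum) : wv a v w = 0 := by
  have h := wv_mem a ha v hv w.length w le_rfl
  have : {x | ∃ w' : List ℤ, w'.length ≤ w.length ∧ (∀ m ∈ w', m ≤ 0) ∧
      w'.sum = w.sum ∧ x = wv a v w'} = ∅ := by
    rw [Set.eq_empty_iff_forall_notMem]
    rintro _ ⟨w', hlen, h2, h3, rfl⟩
    have h4 : w'.sum ≤ 0 := by
      clear h3 hlen
      induction w' with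
      | nil => simp
      | cons m w' ih =>
        rw [List.sum_cons]
        have h5 := h2 m List.mem_cons_self
        have h6 := ih (fun x hx => h2 x (List.mem_cons_of_mem _ hx))
        omega
    omega
  rw [this, Submodule.span_empty, Submodule.mem_bot] at h
  exact h

end Words

section Homog

variable {k : Type*} [Field k]

/-- homogeneous of total degree 0 -/
noncomputable def Hz (k : Type*) [Field k] (d : ℕ) : Submodule k (LP k (Fin d → ℤ)) :=
  Submodule.span k {x | ∃ μ : Fin d → ℤ, ∑ i, μ i = 0 ∧ x = mon μ}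

/-- homogeneous of total degree 0 with negative exponents of `t_0` -/
noncomputable def Tz (k : Type*) [Field k] (d : ℕ) : Submodule k (LP k (Fin (d + 1) → ℤ)) :=
  Submodule.span k {x | ∃ μ : Fin (d + 1) → ℤ, ∑ i, μ i = 0 ∧ μ 0 < 0 ∧ x = mon μ}

lemma Hz_mul {d : ℕ} {x y : LP k (Fin d → ℤ)} (hx : x ∈ Hz k d) (hy : y ∈ Hz k d) :
    x * y ∈ Hz k d := by
  induction hx using Submodule.span_induction with
  | mem x hx =>
    obtain ⟨μ, hμ, rfl⟩ := hx
    induction hy using Submodule.span_induction with
    | mem y hy =>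
      obtain ⟨ν, hν, rfl⟩ := hy
      rw [mon_mul_mon]
      refine Submodule.subset_span ⟨μ + ν, ?_, rfl⟩
      simp [Finset.sum_add_distrib, hμ, hν]
    | zero => simp
    | add x y _ _ hx hy => rw [mul_add]; exact Submodule.add_mem _ hx hy
    | smul c x _ hx => rw [mul_smul_comm]; exact Submodule.smul_mem _ _ hx
  | zero => simp
  | add x y _ _ hx hy => rw [add_mul]; exact Submodule.add_mem _ hx hy
  | smul c x _ hx => rw [smul_mul_assoc]; exact Submodule.smul_mem _ _ hx

lemma Tz_mul {d : ℕ} {x y : LP k (Fin (d + 1) → ℤ)} (hx : x ∈ Tz k d) (hy : y ∈ Tz k d) :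
    x * y ∈ Tz k d := by
  induction hx using Submodule.span_induction with
  | mem x hx =>
    obtain ⟨μ, hμ, hμ0, rfl⟩ := hx
    induction hy using Submodule.span_induction with
    | mem y hy =>
      obtain ⟨ν, hν, hν0, rfl⟩ := hy
      rw [mon_mul_mon]
      refine Submodule.subset_span ⟨μ + ν, ?_, ?_, rfl⟩
      · simp [Finset.sum_add_distrib, hμ, hν]
      · rw [Pi.add_apply]; omega
    | zero => simp
    | add x y _ _ hx hy => rw [mul_add]; exact Submodule.add_mem _ hx hy
    | smul c x _ hx => rw [mul_smul_comm]; exact Submodule.smul_mem _ _ hx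
  | zero => simp
  | add x y _ _ hx hy => rw [add_mul]; exact Submodule.add_mem _ hx hy
  | smul c x _ hx => rw [smul_mul_assoc]; exact Submodule.smul_mem _ _ hx

/-- `1 + Tz` is multiplicatively closed -/
lemma one_add_Tz_mul {d : ℕ} {x y : LP k (Fin (d + 1) → ℤ)} (hx : x - 1 ∈ Tz k d)
    (hy : y - 1 ∈ Tz k d) : x * y - 1 ∈ Tz k d := by
  have : x * y - 1 = (x - 1) * (y - 1) + (x - 1) + (y - 1) := by ring
  rw [this]
  exact Submodule.add_mem _ (Submodule.add_mem _ (Tz_mul hx hy) hx) hy

lemma one_add_Tz_pow {d : ℕ} {x : LP k (Fin (d + 1) → ℤ)} (hx : x - 1 ∈ Tz k d) (M : ℕ) :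
    x ^ M - 1 ∈ Tz k d := by
  induction M with
  | zero => simp
  | succ M ih => rw [pow_succ]; exact one_add_Tz_mul ih hx

lemma one_add_Tz_list {d : ℕ} (L : List (LP k (Fin (d + 1) → ℤ)))
    (h : ∀ x ∈ L, x - 1 ∈ Tz k d) : L.prod - 1 ∈ Tz k d := by
  induction L with
  | nil => simp
  | cons a L ih =>
    rw [List.prod_cons]
    exact one_add_Tz_mul (h a List.mem_cons_self) (ih (fun x hx => h x (List.mem_cons_of_mem _ hx)))

lemma dd_zero_succ {d : ℕ} (j : Fin d) :
    mon (Pi.single 0 (-1)) * dd k (0 : Fin (d + 1)) j.succ - 1 ∈ Tz k d := by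
  have : mon (Pi.single 0 (-1)) * dd k (0 : Fin (d + 1)) j.succ - 1 =
      - mon (Pi.single 0 (-1) + Pi.single j.succ 1) := by
    rw [dd, mul_sub, tt, tt, mon_mul_mon, mon_mul_mon, ← Pi.single_add]
    simp
  rw [this]
  refine Submodule.neg_mem _ (Submodule.subset_span ⟨_, ?_, ?_, rfl⟩)
  · simp [Finset.sum_add_distrib]
  · simp [(Fin.succ_ne_zero j).symm]

lemma vdm_succ (d : ℕ) : vdm k (d + 1) =
    ((List.finRange d).map (fun j => dd k (0 : Fin (d + 1)) j.succ)).prod *
      renL k Fin.succ (vdm k d) := by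
  rw [vdm, List.finRange_succ, vdl, List.map_map, vdm, renL_vdl (Fin.succ_injective d)]
  rfl

/-- `t_0^{-d} ∏ (t_0 - t_j)` -/
lemma first_factor (d : ℕ) :
    mon (Pi.single 0 (-(d : ℤ))) * ((List.finRange d).map
      (fun j => dd k (0 : Fin (d + 1)) j.succ)).prod - 1 ∈ Tz k d := by
  have h : ∀ L : List (Fin d), (mon (Pi.single (0 : Fin (d + 1)) (-(L.length : ℤ))) :
      LP k (Fin (d + 1) → ℤ)) * (L.map (fun j => dd k (0 : Fin (d + 1)) j.succ)).prod =
      (L.map (fun j => mon (Pi.single 0 (-1)) * dd k (0 : Fin (d + 1)) j.succ)).prod := by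
    intro L
    induction L with
    | nil => simp
    | cons a L ih =>
      rw [List.map_cons, List.prod_cons, List.map_cons, List.prod_cons, ← ih]
      have : (mon (Pi.single (0 : Fin (d + 1)) (-((a :: L).length : ℤ))) :
          LP k (Fin (d + 1) → ℤ)) = mon (Pi.single 0 (-1)) *
          mon (Pi.single 0 (-(L.length : ℤ))) := by
        rw [mon_mul_mon, ← Pi.single_add]
        congr 2
        simp only [List.length_cons]; push_cast; ring
      rw [this]; ring
  have h2 := h (List.finRange d)
  rw [List.length_finRange] at h2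
  rw [h2]
  apply one_add_Tz_list
  intro x hx
  obtain ⟨j, _, rfl⟩ := List.mem_map.mp hx
  exact dd_zero_succ j

end Homog

section Eigen

variable {k : Type*} [Field k] {V : Type*} [AddCommGroup V] [Module k V]

lemma fprod_eq_wv (a : ℤ → Module.End k V) (v : V) {d : ℕ} (μ : Fin d → ℤ) :
    fprod a (List.finRange d) μ v = wv a v ((List.finRange d).map μ) := by
  rw [fprod, wv, List.map_map]; rfl

lemma sum_map_finRange {d : ℕ} (μ : Fin d → ℤ) : ((List.finRange d).map μ).sum = ∑ i, μ i := by
  rw [Fin.sum_univ_def]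

/-- applying a smeared product to `v` -/
noncomputable def Ev (a : ℤ → Module.End k V) (v : V) (d : ℕ) : LP k (Fin d → ℤ) →ₗ[k] V :=
  lin (fun μ => wv a v ((List.finRange d).map μ))

lemma Ev_eq (a : ℤ → Module.End k V) (v : V) (d : ℕ) (G : LP k (Fin d → ℤ)) :
    lin (fprod a (List.finRange d)) G v = Ev a v d G := by
  have := map_lin (LinearMap.applyₗ (R := k) v) (fprod a (List.finRange d)) G
  refine this.trans ?_
  rw [Ev]
  congr 2
  funext μ
  exact fprod_eq_wv a v μ

lemma extZ_succ_zero {d : ℕ} (μ : Fin d → ℤ) : extZ (Fin.succ : Fin d → Fin (d + 1)) μ 0 = 0 :=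
  extZ_apply' μ (by rintro ⟨a, ha⟩; exact Fin.succ_ne_zero a ha)

lemma extZ_succ_succ {d : ℕ} (μ : Fin d → ℤ) (i : Fin d) :
    extZ (Fin.succ : Fin d → Fin (d + 1)) μ i.succ = μ i :=
  extZ_apply (Fin.succ_injective d) μ i

/-- terms with negative exponent of `t_0` and total degree zero act by zero -/
lemma Ev_Tz (a : ℤ → Module.End k V) (ha : WittRel k a) (v : V)
    (hv : ∀ m : ℤ, 0 < m → a m v = 0) {d : ℕ} {q : LP k (Fin (d + 1) → ℤ)} (hq : q ∈ Tz k d)
    {G : LP k (Fin d → ℤ)} (hG : G ∈ Hz k d) :
    Ev a v (d + 1) (q * renL k Fin.succ G) = 0 := by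
  induction hq using Submodule.span_induction with
  | mem x hx =>
    obtain ⟨ν, hν, hν0, rfl⟩ := hx
    induction hG using Submodule.span_induction with
    | mem y hy =>
      obtain ⟨μ, hμ, rfl⟩ := hy
      rw [renL_mon, mon_mul_mon, Ev, lin_mon, List.finRange_succ, List.map_cons, wv_cons,
        List.map_map]
      have : wv a v ((List.finRange d).map ((ν + extZ Fin.succ μ) ∘ Fin.succ)) = 0 := by
        apply wv_eq_zero a ha v hv
        rw [sum_map_finRange]
        have h1 : ∑ i : Fin d, ((ν + extZ Fin.succ μ) ∘ Fin.succ) i =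
            ∑ i : Fin d, ν i.succ + ∑ i : Fin d, μ i := by
          rw [← Finset.sum_add_distrib]
          refine Finset.sum_congr rfl fun i _ => ?_
          rw [Function.comp_apply, Pi.add_apply, extZ_succ_succ]
        rw [h1, hμ, add_zero]
        rw [Fin.sum_univ_succ] at hν
        omega
      rw [this, map_zero]
    | zero => simp
    | add x y _ _ hx hy => rw [map_add, mul_add, map_add, hx, hy, add_zero]
    | smul c x _ hx => rw [renL_smul, mul_smul_comm, map_smul, hx, smul_zero]
  | zero => simp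
  | add x y _ _ hx hy => rw [add_mul, map_add, hx, hy, add_zero]
  | smul c x _ hx => rw [smul_mul_assoc, map_smul, hx, smul_zero]

lemma Ev_one (a : ℤ → Module.End k V) (v : V) {d : ℕ} (G : LP k (Fin d → ℤ)) :
    Ev a v (d + 1) (renL k Fin.succ G) = a 0 (Ev a v d G) := by
  induction G using LP_induction with
  | h0 => simp
  | hadd x y hx hy => rw [map_add, map_add, map_add, map_add, hx, hy]
  | hmon μ c =>
    rw [renL_smul, map_smul, map_smul, map_smul]
    congr 1
    rw [renL_mon, Ev, Ev, lin_mon, lin_mon, List.finRange_succ, List.map_cons, wv_cons,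
      List.map_map, extZ_succ_zero]
    congr 2
    apply List.map_congr_left
    intro i _
    rw [Function.comp_apply, extZ_succ_succ]

lemma renL_Hz {d : ℕ} {G : LP k (Fin d → ℤ)} (hG : G ∈ Hz k d) :
    renL k (Fin.succ : Fin d → Fin (d + 1)) G ∈ Hz k (d + 1) := by
  induction hG using Submodule.span_induction with
  | mem x hx =>
    obtain ⟨μ, hμ, rfl⟩ := hx
    rw [renL_mon]
    refine Submodule.subset_span ⟨_, ?_, rfl⟩
    rw [Fin.sum_univ_succ, extZ_succ_zero, zero_add, ← hμ]
    exact Finset.sum_congr rfl fun i _ => extZ_succ_succ μ i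
  | zero => simp
  | add x y _ _ hx hy => rw [map_add]; exact Submodule.add_mem _ hx hy
  | smul c x _ hx => rw [renL_smul]; exact Submodule.smul_mem _ _ hx

lemma one_mem_Hz (d : ℕ) : (1 : LP k (Fin d → ℤ)) ∈ Hz k d :=
  Submodule.subset_span ⟨0, by simp, by simp⟩

lemma Tz_le_Hz (d : ℕ) : Tz k d ≤ Hz k (d + 1) := by
  apply Submodule.span_mono
  rintro _ ⟨μ, h1, _, rfl⟩
  exact ⟨μ, h1, rfl⟩

/-- a highest weight vector of weight 1 is reproduced by some smeared product in every relation -/
theorem exists_fix (a : ℤ → Module.End k V) (ha : WittRel k a) (v : V)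
    (hv : ∀ m : ℤ, 0 < m → a m v = 0) (h0 : a 0 v = v) (M : ℕ) (d : ℕ) :
    ∃ G : LP k (Fin d → ℤ), vdm k d ^ M * G ∈ Hz k d ∧
      Ev a v d (vdm k d ^ M * G) = v := by
  induction d with
  | zero =>
    refine ⟨1, ?_, ?_⟩
    · have : vdm k 0 = 1 := rfl
      rw [this, one_pow, one_mul]
      exact one_mem_Hz 0
    · have : vdm k 0 = 1 := rfl
      rw [this, one_pow, one_mul, ← mon_zero, Ev, lin_mon]
      rfl
  | succ d ih =>
    obtain ⟨G, hG1, hG2⟩ := ih
    set P : LP k (Fin (d + 1) → ℤ) := mon (Pi.single 0 (-(d : ℤ))) * ((List.finRange d).map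
      (fun j => dd k (0 : Fin (d + 1)) j.succ)).prod with hP
    have hP1 : P ^ M - 1 ∈ Tz k d := one_add_Tz_pow (first_factor d) M
    refine ⟨mon (Pi.single 0 (-(d : ℤ))) ^ M * renL k Fin.succ G, ?_, ?_⟩
    all_goals
      have e1 : vdm k (d + 1) ^ M * (mon (Pi.single 0 (-(d : ℤ))) ^ M * renL k Fin.succ G) =
          P ^ M * renL k Fin.succ (vdm k d ^ M * G) := by
        rw [vdm_succ, hP, map_mul, map_pow]; ring
      rw [e1]
    · apply Hz_mul _ (renL_Hz hG1)
      have : P ^ M = (P ^ M - 1) + 1 := by ring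
      rw [this]
      exact Submodule.add_mem _ (Tz_le_Hz d hP1) (one_mem_Hz _)
    · have : P ^ M * renL k Fin.succ (vdm k d ^ M * G) =
          (P ^ M - 1) * renL k Fin.succ (vdm k d ^ M * G) +
          renL k Fin.succ (vdm k d ^ M * G) := by ring
      rw [this, map_add, Ev_Tz a ha v hv hP1 hG1, zero_add, Ev_one, hG2, h0]

end Eigen

/-- The zero ideal of `U(W)` is primitive, given a highest weight vector of weight 1. -/
theorem bot_primitive_of_highest (k : Type u) [Field k] [CharZero k]
    (h : ∃ (V : Type u) (_ : AddCommGroup V) (_ : Module k V) (a : ℤ → Module.End k V) (v : V),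
      WittRel k a ∧ v ≠ 0 ∧ (∀ n : ℤ, 0 < n → a n v = 0) ∧ a 0 v = v) :
    IsPrimitiveIdeal (⊥ : TwoSidedIdeal (UWitt k)) := by
  obtain ⟨V, _, _, a, v, ha, hv0, hv, h0⟩ := h
  obtain ⟨ρ, hρ⟩ := exists_hom k a ha
  -- the left ideal of `v`
  let L : Ideal (UWitt k) :=
    { carrier := {u | ρ u v = 0}
      add_mem' := by
        intro x y hx hy
        simp only [Set.mem_ofPred_eq] at hx hy ⊢
        rw [map_add, LinearMap.add_apply, hx, hy, add_zero]
      zero_mem' := by simp
      smul_mem' := by
        intro c x hx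
        simp only [Set.mem_ofPred_eq] at hx ⊢
        rw [smul_eq_mul, map_mul, Module.End.mul_apply, hx, map_zero] }
  have hL : L ≠ ⊤ := by
    rw [Ne, Ideal.eq_top_iff_one]
    intro h1
    have h2 : ρ 1 v = 0 := h1
    rw [map_one] at h2
    exact hv0 h2
  obtain ⟨𝔪, hmax, hle⟩ := Ideal.exists_le_maximal L hL
  refine ⟨UWitt k ⧸ 𝔪, inferInstance, inferInstance, ?_, ?_⟩
  · rw [isSimpleModule_iff_isCoatom]
    exact Ideal.isMaximal_def.mp hmax
  · intro r
    constructor
    · intro hr m
      have : r = 0 := hr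
      rw [this, zero_smul]
    · intro hr
      by_contra hr0
      -- the annihilator of the quotient
      let N : Submodule k (UWitt k) :=
        { carrier := {x | ∀ m : UWitt k ⧸ 𝔪, x • m = 0}
          add_mem' := by
            intro x y hx hy m
            rw [add_smul, hx m, hy m, add_zero]
          zero_mem' := by intro m; rw [zero_smul]
          smul_mem' := by
            intro c x hx m
            rw [Algebra.smul_def, mul_smul, hx m, smul_zero] }
      have hN : IsTS N := by
        refine ⟨?_, ?_⟩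
        · intro y x hx m
          rw [mul_smul, hx m, smul_zero]
        · intro y x hx m
          rw [mul_smul]
          exact hx _
      have hN0 : N ≠ ⊥ := by
        rw [Submodule.ne_bot_iff]
        exact ⟨r, hr, fun h => hr0 (by rw [h]; exact TwoSidedIdeal.zero_mem _)⟩
      obtain ⟨d, M, hR⟩ := nonzero_rel (eU k) (eU_wittRel k) (eU_adjoin k) hN hN0
      obtain ⟨G, _, hG⟩ := exists_fix a ha v hv h0 M d
      have hx := hR G
      set x := lin (fprod (eU k) (List.finRange d)) (vdm k d ^ M * G) with hxdef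
      have hxv : ρ x v = v := by
        have h1 : ρ x = lin (fprod a (List.finRange d)) (vdm k d ^ M * G) := by
          have := map_lin ρ.toLinearMap (fprod (eU k) (List.finRange d)) (vdm k d ^ M * G)
          rw [hxdef]
          refine this.trans ?_
          congr 2
          funext μ
          simp [fprod, map_list_prod, Function.comp_def, hρ]
        rw [h1, Ev_eq, hG]
      have h2 : x - 1 ∈ 𝔪 := by
        apply hle
        change ρ (x - 1) v = 0
        rw [map_sub, map_one, LinearMap.sub_apply, hxv, Module.End.one_apply, sub_self]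
      have h3 : x ∈ 𝔪 := by
        have h4 := hx (Submodule.Quotient.mk 1)
        rw [← Submodule.Quotient.mk_smul, smul_eq_mul, mul_one,
          Submodule.Quotient.mk_eq_zero] at h4
        exact h4
      apply hmax.ne_top
      rw [Ideal.eq_top_iff_one]
      have := 𝔪.sub_mem h3 h2
      rwa [sub_sub_cancel] at this

end Pool.Agent.H48.Witt
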