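import Pool.Agent.H48.Witt.Sym
import Pool.Agent.H48.Witt.Adj
import Pool.Agent.H48.Witt.Window

/-!
# Multiplication operators from iterated commutators (MP_f251f6_al, MODULE A1)

Iterated commutators with `e (m a)`, `a ∈ Fin L × Bool`, smeared with a suitable
`H ∈ k[ℤ^(2L)]`, kill the products of fewer than `L` factors and act on products of `L` factors as
multiplication by `Δ^(2K) sym(G)`.
-/

set_option autoImplicit false

namespace Pool.Agent.H48.Witt

open Finset

namespace MO

variable {k : Type*} [Field k]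

/-! ### Diagonal operators -/

section Dia

variable {G : Type*} [AddCommGroup G]

/-- diagonal operator `t^g ↦ f g t^g` -/
noncomputable def dia (k : Type*) [Field k] {G : Type*} (f : G → ℤ) : LP k G →ₗ[k] LP k G :=
  lin (fun g => ((f g : ℤ) : k) • mon g)

lemma dia_mon (f : G → ℤ) (g : G) : dia k f (mon g) = ((f g : ℤ) : k) • (mon g : LP k G) := by
  rw [dia, lin_mon]

lemma dia_dia (f g : G → ℤ) (x : LP k G) : dia k f (dia k g x) = dia k (fun y => f y * g y) x := by
  induction x using LP_induction with
  | h0 => simp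
  | hadd x y hx hy => simp only [map_add, hx, hy]
  | hmon y c =>
    rw [map_smul, map_smul, map_smul, dia_mon, map_smul, dia_mon, dia_mon, smul_smul (g y : k)]
    congr 2
    push_cast
    ring

lemma dia_one (x : LP k G) : dia k (fun _ => 1) x = x := by
  induction x using LP_induction with
  | h0 => simp
  | hadd x y hx hy => simp only [map_add, hx, hy]
  | hmon y c => rw [map_smul, dia_mon]; simp

/-- Leibniz rule for affine diagonal operators -/
lemma dia_mul (lam : G →+ ℤ) (c : ℤ) (x y : LP k G) :
    dia k (fun g => lam g + c) (x * y) = x * dia k (fun g => lam g + c) y + y * dia k lam x := by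
  induction x using LP_induction with
  | h0 => simp
  | hadd x z hx hz => rw [add_mul, map_add, map_add, hx, hz]; ring
  | hmon g d =>
    induction y using LP_induction with
    | h0 => simp
    | hadd x z hx hz => rw [mul_add, map_add, map_add, hx, hz]; ring
    | hmon h d' =>
      rw [smul_mul_smul_comm, map_smul, map_smul, map_smul, mon_mul_mon, dia_mon, dia_mon,
        dia_mon, smul_smul, smul_smul, smul_smul, smul_mul_smul_comm, smul_mul_smul_comm,
        mon_mul_mon, mon_mul_mon, add_comm h g, ← add_smul, map_add]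
      congr 1
      push_cast
      ring

lemma dia_pow_dvd (lam : G →+ ℤ) (c : ℤ) (p x : LP k G) (n : ℕ) (h : p ^ (n + 1) ∣ x) :
    p ^ n ∣ dia k (fun g => lam g + c) x := by
  obtain ⟨y, rfl⟩ := h
  have hp : p ^ n ∣ dia k lam (p ^ (n + 1)) := by
    induction n with
    | zero => simp
    | succ n ih =>
      have h1 := dia_mul (k := k) lam 0 p (p ^ (n + 1))
      simp only [add_zero] at h1
      have h2 : dia k lam (p ^ (n + 1 + 1)) = p * dia k lam (p ^ (n + 1)) +
          p ^ (n + 1) * dia k lam p := by
        rw [pow_succ' p (n + 1)]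
        exact h1
      rw [h2]
      refine dvd_add ?_ (dvd_mul_right _ _)
      have h3 := mul_dvd_mul_left p ih
      rwa [← pow_succ'] at h3
  rw [dia_mul]
  refine dvd_add ?_ (dvd_mul_of_dvd_right hp _)
  exact dvd_mul_of_dvd_left (pow_dvd_pow p (Nat.le_succ n)) _

end Dia

/-! ### Specialisation of the variables -/

section Pi

variable {G G' : Type*} [AddCommGroup G] [AddCommGroup G']

/-- `t^g ↦ t^(γ g)` -/
noncomputable def piL (k : Type*) [Field k] {G G' : Type*} [AddCommGroup G] [AddCommGroup G']
    (γ : G →+ G') : LP k G →+* LP k G' :=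
  AddMonoidAlgebra.mapDomainRingHom k γ

lemma piL_mon (γ : G →+ G') (g : G) : piL k γ (mon g) = mon (γ g) := by
  simp [piL, mon]

lemma piL_smul (γ : G →+ G') (c : k) (x : LP k G) : piL k γ (c • x) = c • piL k γ x := by
  induction x using LP_induction with
  | h0 => simp
  | hadd x y hx hy => simp [hx, hy]
  | hmon g d =>
    rw [smul_smul]
    simp [piL, mon]

end Pi

/-! ### The operators `T_i(m)` and products with prescribed colours -/

section Ops

variable {κ : Type*} [DecidableEq κ] {α : Type*} [DecidableEq α]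

/-- `T_i(m) t^μ = (μ_i - m) t^(μ + m ε_i)` -/
noncomputable def TA (k : Type*) [Field k] {κ : Type*} [DecidableEq κ] (i : κ) (m : ℤ) :
    Module.End k (LP k (κ → ℤ)) :=
  lin (fun μ => ((μ i - m : ℤ) : k) • mon (μ + Pi.single i m))

lemma TA_mon (i : κ) (m : ℤ) (μ : κ → ℤ) :
    TA k i m (mon μ) = ((μ i - m : ℤ) : k) • (mon (μ + Pi.single i m) : LP k (κ → ℤ)) := by
  rw [TA, lin_mon]

lemma Dop_eq_sum [Fintype κ] (n : ℤ) : Dop k (ι := κ) n = ∑ i, TA k i n := by
  apply lhom_ext
  intro μ
  rw [Dop_mon, LinearMap.sum_apply]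
  exact Finset.sum_congr rfl fun i _ => (TA_mon i n μ).symm

/-- the exponent map for the colouring `c` -/
def gam (c : α → κ × κ) : List α → ((α × Bool → ℤ) →+ (κ → ℤ))
  | [] => 0
  | j :: J => gam c J +
      ((AddMonoidHom.single (fun _ : κ => ℤ) (c j).2).comp
        (Pi.evalAddMonoidHom (fun _ : α × Bool => ℤ) (j, true)) +
      (AddMonoidHom.single (fun _ : κ => ℤ) (c j).1).comp
        (Pi.evalAddMonoidHom (fun _ : α × Bool => ℤ) (j, false)))

/-- the linear form belonging to `(j, true)` -/
def lam1 (c : α → κ × κ) (j : α) (J : List α) : (α × Bool → ℤ) →+ ℤ :=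
  (Pi.evalAddMonoidHom (fun _ : κ => ℤ) (c j).2).comp (gam c J) -
    Pi.evalAddMonoidHom (fun _ : α × Bool => ℤ) (j, true)

/-- the linear form belonging to `(j, false)` -/
def lam0 (c : α → κ × κ) (j : α) (J : List α) : (α × Bool → ℤ) →+ ℤ :=
  (Pi.evalAddMonoidHom (fun _ : κ => ℤ) (c j).1).comp (gam c J +
      (AddMonoidHom.single (fun _ : κ => ℤ) (c j).2).comp
        (Pi.evalAddMonoidHom (fun _ : α × Bool => ℤ) (j, true))) -
    Pi.evalAddMonoidHom (fun _ : α × Bool => ℤ) (j, false)

/-- the scalar -/
def scal (c : α → κ × κ) (μ : κ → ℤ) : List α → (α × Bool → ℤ) → ℤ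
  | [] => fun _ => 1
  | j :: J => fun m => (lam0 c j J m + μ (c j).1) * ((lam1 c j J m + μ (c j).2) * scal c μ J m)

/-- the product of the operators with prescribed colours -/
noncomputable def cpr (k : Type*) [Field k] {κ : Type*} [DecidableEq κ] {α : Type*}
    (c : α → κ × κ) (J : List α) (m : α × Bool → ℤ) : Module.End k (LP k (κ → ℤ)) :=
  (J.map (fun j => TA k (c j).1 (m (j, false)) * TA k (c j).2 (m (j, true)))).prod

omit [DecidableEq α] in
lemma cpr_mon (c : α → κ × κ) (J : List α) (m : α × Bool → ℤ) (μ : κ → ℤ) :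
    cpr k c J m (mon μ) = ((scal c μ J m : ℤ) : k) • (mon (μ + gam c J m) : LP k (κ → ℤ)) := by
  induction J with
  | nil => simp [cpr, scal, gam]
  | cons j J ih =>
    have h1 : cpr k c (j :: J) m = TA k (c j).1 (m (j, false)) * TA k (c j).2 (m (j, true)) *
        cpr k c J m := by
      simp [cpr]
    rw [h1, Module.End.mul_apply, Module.End.mul_apply, ih, map_smul, TA_mon, map_smul, map_smul,
      TA_mon, smul_smul, smul_smul]
    congr 1
    · simp only [scal, lam0, lam1, AddMonoidHom.sub_apply, AddMonoidHom.comp_apply,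
        AddMonoidHom.add_apply, Pi.evalAddMonoidHom_apply, AddMonoidHom.single_apply, Pi.add_apply]
      push_cast
      ring
    · simp only [gam, AddMonoidHom.comp_apply,
        AddMonoidHom.add_apply, Pi.evalAddMonoidHom_apply, AddMonoidHom.single_apply]
      congr 1
      abel

omit [DecidableEq α] in
lemma lin_cpr (c : α → κ × κ) (J : List α) (μ : κ → ℤ) (H : LP k (α × Bool → ℤ)) :
    lin (fun m => cpr k c J m (mon μ)) H =
      mon μ * piL k (gam c J) (dia k (scal c μ J) H) := by
  induction H using LP_induction with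
  | h0 => simp
  | hadd x y hx hy => simp only [map_add, hx, hy, mul_add]
  | hmon m d =>
    rw [map_smul, lin_mon, cpr_mon, map_smul, dia_mon, piL_smul, piL_smul, piL_mon, mul_smul_comm,
      mul_smul_comm, mon_mul_mon]

omit [DecidableEq α] in
lemma dia_scal_cons (c : α → κ × κ) (μ : κ → ℤ) (j : α) (J : List α)
    (x : LP k (α × Bool → ℤ)) :
    dia k (scal c μ (j :: J)) x = dia k (fun m => lam0 c j J m + μ (c j).1)
      (dia k (fun m => lam1 c j J m + μ (c j).2) (dia k (scal c μ J) x)) := by
  rw [dia_dia, dia_dia]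
  simp only [mul_assoc]
  rfl

omit [DecidableEq α] in
lemma dia_scal_dvd (c : α → κ × κ) (μ : κ → ℤ) (p : LP k (α × Bool → ℤ)) (J : List α) (n : ℕ)
    (x : LP k (α × Bool → ℤ)) (h : p ^ (n + 2 * J.length) ∣ x) :
    p ^ n ∣ dia k (scal c μ J) x := by
  induction J generalizing n with
  | nil =>
    have : dia k (scal c μ []) x = x := dia_one x
    rw [this]
    simpa using h
  | cons j J ih =>
    rw [dia_scal_cons]
    apply dia_pow_dvd
    apply dia_pow_dvd
    apply ih
    convert h using 2
    simp only [List.length_cons]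
    ring


/-- the colour of a variable -/
def col (c : α → κ × κ) (a : α × Bool) : κ := if a.2 then (c a.1).2 else (c a.1).1

omit [DecidableEq κ] in
lemma single_ne {a : α × Bool} {j : α} (h : a.1 ≠ j) (x : Bool) (z : ℤ) :
    (Pi.single a z : α × Bool → ℤ) (j, x) = 0 := by
  have h' : (j, x) ≠ a := by
    rintro rfl
    exact h rfl
  simp [h']

omit [DecidableEq κ] in
lemma single_ne' (j : α) {x y : Bool} (h : y ≠ x) (z : ℤ) :
    (Pi.single (j, x) z : α × Bool → ℤ) (j, y) = 0 := by
  have h' : ((j, y) : α × Bool) ≠ (j, x) := by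
    intro h'
    exact h (congrArg Prod.snd h')
  simp [h]

lemma gam_single_not_mem (c : α → κ × κ) (J : List α) (a : α × Bool) (z : ℤ) (h : a.1 ∉ J) :
    gam c J (Pi.single a z) = 0 := by
  induction J with
  | nil => simp [gam]
  | cons j J ih =>
    have hj : a.1 ≠ j := fun h' => h (by simp [h'])
    have hJ : a.1 ∉ J := fun h' => h (by simp [h'])
    have e1 := single_ne hj true z
    have e2 := single_ne hj false z
    simp only [gam, AddMonoidHom.add_apply, AddMonoidHom.comp_apply, Pi.evalAddMonoidHom_apply,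
      e1, e2, map_zero, ih hJ, add_zero]

lemma gam_single (c : α → κ × κ) (J : List α) (hJ : J.Nodup) (a : α × Bool) (z : ℤ)
    (h : a.1 ∈ J) : gam c J (Pi.single a z) = Pi.single (col c a) z := by
  induction J with
  | nil => simp at h
  | cons j J ih =>
    obtain ⟨hj, hJ'⟩ := List.nodup_cons.1 hJ
    by_cases h1 : a.1 = j
    · have h2 : a.1 ∉ J := by rw [h1]; exact hj
      obtain ⟨a1, a2⟩ := a
      simp only at h1 h2
      subst h1
      cases a2
      · have e1 := single_ne' a1 (x := false) (y := true) (by decide) z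
        simp only [gam, AddMonoidHom.add_apply, AddMonoidHom.comp_apply,
          Pi.evalAddMonoidHom_apply, e1, map_zero, gam_single_not_mem c J (a1, false) z h2,
          zero_add, Pi.single_eq_same, AddMonoidHom.single_apply]
        rfl
      · have e1 := single_ne' a1 (x := true) (y := false) (by decide) z
        simp only [gam, AddMonoidHom.add_apply, AddMonoidHom.comp_apply,
          Pi.evalAddMonoidHom_apply, e1, map_zero, gam_single_not_mem c J (a1, true) z h2,
          zero_add, Pi.single_eq_same, AddMonoidHom.single_apply, add_zero]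
        rfl
    · have h2 : a.1 ∈ J := (List.mem_cons.1 h).resolve_left h1
      have e1 := single_ne h1 true z
      have e2 := single_ne h1 false z
      simp only [gam, AddMonoidHom.add_apply, AddMonoidHom.comp_apply, Pi.evalAddMonoidHom_apply,
        e1, e2, map_zero, ih hJ' h2, add_zero]

lemma piL_tt (c : α → κ × κ) (J : List α) (hJ : J.Nodup) (a : α × Bool) (h : a.1 ∈ J) :
    piL k (gam c J) (tt k a) = tt k (col c a) := by
  rw [tt, piL_mon, gam_single c J hJ a 1 h, tt]

/-- a collision of colours kills the multiples of a high power -/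
lemma lin_cpr_collision (c : α → κ × κ) (J : List α) (hJ : J.Nodup) (μ : κ → ℤ)
    {a b : α × Bool} (ha : a.1 ∈ J) (hb : b.1 ∈ J) (hab : col c a = col c b)
    {H : LP k (α × Bool → ℤ)} (hH : dd k a b ^ (1 + 2 * J.length) ∣ H) :
    lin (fun m => cpr k c J m (mon μ)) H = 0 := by
  rw [lin_cpr]
  obtain ⟨x, hx⟩ := dia_scal_dvd c μ (dd k a b) J 1 H hH
  rw [hx, pow_one, map_mul, dd, map_sub, piL_tt c J hJ a ha, piL_tt c J hJ b hb, hab, sub_self,
    zero_mul, mul_zero]

lemma dia_tt (lam : (α × Bool → ℤ) →+ ℤ) (a : α × Bool) :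
    dia k lam (tt k a) = ((lam (Pi.single a 1) : ℤ) : k) • (tt k a : LP k (α × Bool → ℤ)) := by
  rw [tt, dia_mon]

omit [DecidableEq α] in
lemma dia_mul_of_const (lam : (α × Bool → ℤ) →+ ℤ) (c : ℤ) {p : LP k (α × Bool → ℤ)}
    (hp : dia k lam p = 0) (x : LP k (α × Bool → ℤ)) :
    dia k (fun g => lam g + c) (p * x) = p * dia k (fun g => lam g + c) x := by
  rw [dia_mul, hp, mul_zero, add_zero]

/-- the square of the difference of the two variables of a pair -/
noncomputable def pp (k : Type*) [Field k] {α : Type*} [DecidableEq α] (j : α) :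
    LP k (α × Bool → ℤ) := dd k (j, false) (j, true)

lemma dia_lam0_pp (c : α → κ × κ) (i j : α) (J : List α) (hij : i ≠ j) (hi : i ∉ J) :
    dia k (lam0 c j J) (pp k i) = 0 := by
  have h : ∀ x, lam0 c j J (Pi.single (i, x) 1) = 0 := by
    intro x
    have e1 : (Pi.single (i, x) 1 : α × Bool → ℤ) (j, true) = 0 :=
      Pi.single_eq_of_ne (fun h' => hij (by simpa using (congrArg Prod.fst h').symm)) 1
    have e2 : (Pi.single (i, x) 1 : α × Bool → ℤ) (j, false) = 0 :=
      Pi.single_eq_of_ne (fun h' => hij (by simpa using (congrArg Prod.fst h').symm)) 1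
    simp only [lam0, AddMonoidHom.sub_apply, AddMonoidHom.comp_apply, AddMonoidHom.add_apply,
      Pi.evalAddMonoidHom_apply, e1, e2, gam_single_not_mem c J (i, x) 1 hi, map_zero, add_zero,
      sub_zero]
  rw [pp, dd, map_sub, dia_tt, dia_tt, h, h]
  simp

lemma dia_lam1_pp (c : α → κ × κ) (i j : α) (J : List α) (hij : i ≠ j) (hi : i ∉ J) :
    dia k (lam1 c j J) (pp k i) = 0 := by
  have h : ∀ x, lam1 c j J (Pi.single (i, x) 1) = 0 := by
    intro x
    have e1 : (Pi.single (i, x) 1 : α × Bool → ℤ) (j, true) = 0 :=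
      Pi.single_eq_of_ne (fun h' => hij (by simpa using (congrArg Prod.fst h').symm)) 1
    simp only [lam1, AddMonoidHom.sub_apply, AddMonoidHom.comp_apply,
      Pi.evalAddMonoidHom_apply, e1, gam_single_not_mem c J (i, x) 1 hi,
      Pi.zero_apply, sub_zero]
  rw [pp, dd, map_sub, dia_tt, dia_tt, h, h]
  simp

lemma dia_scal_pp (c : α → κ × κ) (μ : κ → ℤ) (i : α) (J : List α) (hi : i ∉ J)
    (x : LP k (α × Bool → ℤ)) :
    dia k (scal c μ J) (pp k i * x) = pp k i * dia k (scal c μ J) x := by
  induction J with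
  | nil =>
    have : ∀ y, dia k (scal c μ ([] : List α)) y = y := fun y => dia_one y
    rw [this, this]
  | cons j J ih =>
    have hij : i ≠ j := fun h => hi (by simp [h])
    have hJ : i ∉ J := fun h => hi (by simp [h])
    rw [dia_scal_cons, dia_scal_cons, ih hJ, dia_mul_of_const _ _ (dia_lam1_pp c i j J hij hJ),
      dia_mul_of_const _ _ (dia_lam0_pp c i j J hij hJ)]

lemma dia_lam1_self (σ : α → κ) (j : α) (J : List α) (hj : j ∉ J) :
    dia k (lam1 (fun j => (σ j, σ j)) j J) (pp k j) = tt k (j, true) := by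
  have h0 : lam1 (fun j => (σ j, σ j)) j J (Pi.single (j, false) 1) = 0 := by
    have e1 : (Pi.single (j, false) 1 : α × Bool → ℤ) (j, true) = 0 :=
      Pi.single_eq_of_ne (by simp) 1
    simp only [lam1, AddMonoidHom.sub_apply, AddMonoidHom.comp_apply,
      Pi.evalAddMonoidHom_apply, e1, gam_single_not_mem _ J (j, false) 1 hj,
      Pi.zero_apply, sub_zero]
  have h1 : lam1 (fun j => (σ j, σ j)) j J (Pi.single (j, true) 1) = -1 := by
    simp only [lam1, AddMonoidHom.sub_apply, AddMonoidHom.comp_apply,
      Pi.evalAddMonoidHom_apply, gam_single_not_mem _ J (j, true) 1 hj,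
      Pi.zero_apply, Pi.single_eq_same, zero_sub]
  rw [pp, dd, map_sub, dia_tt, dia_tt, h0, h1]
  simp

lemma dia_lam0_self (σ : α → κ) (j : α) (J : List α) (hj : j ∉ J) :
    dia k (lam0 (fun j => (σ j, σ j)) j J) (pp k j) = -tt k (j, false) - tt k (j, true) := by
  have h0 : lam0 (fun j => (σ j, σ j)) j J (Pi.single (j, false) 1) = -1 := by
    have e1 : (Pi.single (j, false) 1 : α × Bool → ℤ) (j, true) = 0 :=
      Pi.single_eq_of_ne (by simp) 1
    simp only [lam0, AddMonoidHom.sub_apply, AddMonoidHom.comp_apply, AddMonoidHom.add_apply,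
      Pi.evalAddMonoidHom_apply, e1, gam_single_not_mem _ J (j, false) 1 hj, map_zero,
      add_zero, Pi.single_eq_same, zero_sub]
  have h1 : lam0 (fun j => (σ j, σ j)) j J (Pi.single (j, true) 1) = 1 := by
    have e1 : (Pi.single (j, true) 1 : α × Bool → ℤ) (j, false) = 0 :=
      Pi.single_eq_of_ne (by simp) 1
    simp only [lam0, AddMonoidHom.sub_apply, AddMonoidHom.comp_apply, AddMonoidHom.add_apply,
      Pi.evalAddMonoidHom_apply, e1, gam_single_not_mem _ J (j, true) 1 hj,
      zero_add, Pi.single_eq_same, sub_zero, AddMonoidHom.single_apply]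
  rw [pp, dd, map_sub, dia_tt, dia_tt, h0, h1]
  simp

/-- the multiplication operator -/
lemma spec_scal {R : Type*} [CommRing R] (σ : α → κ) (μ : κ → ℤ)
    (π : LP k (α × Bool → ℤ) →+* R) (t : κ → R) (J : List α) (hJ : J.Nodup)
    (hπ : ∀ j ∈ J, ∀ x, π (tt k (j, x)) = t (σ j)) (x : LP k (α × Bool → ℤ)) :
    π (dia k (scal (fun j => (σ j, σ j)) μ J) ((J.map (fun j => pp k j ^ 2)).prod * x)) =
      (J.map (fun j => -4 * t (σ j) ^ 2)).prod * π x := by
  induction J with
  | nil =>
    have : ∀ y, dia k (scal (fun j => (σ j, σ j)) μ ([] : List α)) y = y := fun y => dia_one y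
    rw [this]
    simp
  | cons j J ih =>
    obtain ⟨hj, hJ'⟩ := List.nodup_cons.1 hJ
    have ih' := ih hJ' (fun i hi => hπ i (List.mem_cons_of_mem _ hi))
    rw [dia_scal_cons, List.map_cons, List.prod_cons, List.map_cons, List.prod_cons]
    have e1 : pp k j ^ 2 * (J.map (fun j => pp k j ^ 2)).prod * x =
        pp k j * (pp k j * ((J.map (fun j => pp k j ^ 2)).prod * x)) := by ring
    rw [e1, dia_scal_pp _ _ _ _ hj, dia_scal_pp _ _ _ _ hj]
    set Z := dia k (scal (fun j => (σ j, σ j)) μ J) ((J.map (fun j => pp k j ^ 2)).prod * x)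
      with hZ
    rw [dia_mul, dia_mul, dia_lam1_self σ j J hj]
    have e2 : pp k j * (pp k j * dia k (fun g => lam1 (fun j => (σ j, σ j)) j J g +
          μ ((fun j => (σ j, σ j)) j).2) Z + Z * tt k (j, true)) + pp k j * Z * tt k (j, true) =
        pp k j * (pp k j * dia k (fun g => lam1 (fun j => (σ j, σ j)) j J g +
          μ ((fun j => (σ j, σ j)) j).2) Z + 2 * (Z * tt k (j, true))) := by ring
    rw [e2, dia_mul, dia_lam0_self σ j J hj]
    have hp : π (pp k j) = 0 := by
      rw [pp, dd, map_sub, hπ j (by simp), hπ j (by simp), sub_self]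
    simp only [map_add, map_mul, map_sub, map_neg, map_ofNat, hp, hπ j (by simp), ih', zero_mul,
      zero_add]
    ring

/-! ### The products of differences of variables in different pairs -/

/-- Vandermonde product with two labellings -/
noncomputable def vd2 (k : Type*) [Field k] {α : Type*} [DecidableEq α] (x y : Bool) :
    List α → LP k (α × Bool → ℤ)
  | [] => 1
  | j :: J => (J.map (fun b => dd k (j, x) (b, y))).prod * vd2 k x y J

/-- product of differences of all variables in different pairs -/
noncomputable def PP (k : Type*) [Field k] {α : Type*} [DecidableEq α] (J : List α) :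
    LP k (α × Bool → ℤ) :=
  vd2 k false false J * vd2 k false true J * (vd2 k true false J * vd2 k true true J)

omit [DecidableEq κ] in
lemma dd_dvd_vd2 (J : List α) {i j : α} (hi : i ∈ J) (hj : j ∈ J) (hij : i ≠ j) (x y : Bool) :
    dd k (i, x) (j, y) ∣ vd2 k x y J ∨ dd k (i, x) (j, y) ∣ vd2 k y x J := by
  induction J with
  | nil => simp at hi
  | cons a J ih =>
    by_cases h1 : i = a
    · left
      subst h1
      have h2 : j ∈ J := (List.mem_cons.1 hj).resolve_left (fun h => hij h.symm)
      rw [vd2]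
      exact dvd_mul_of_dvd_left (List.dvd_prod (List.mem_map.2 ⟨j, h2, rfl⟩)) _
    · have hi' : i ∈ J := (List.mem_cons.1 hi).resolve_left h1
      by_cases h2 : j = a
      · right
        subst h2
        rw [vd2, dd_swap, neg_dvd]
        exact dvd_mul_of_dvd_left (List.dvd_prod (List.mem_map.2 ⟨i, hi', rfl⟩)) _
      · have hj' : j ∈ J := (List.mem_cons.1 hj).resolve_left h2
        rcases ih hi' hj' with h | h
        · left; rw [vd2]; exact dvd_mul_of_dvd_right h _
        · right; rw [vd2]; exact dvd_mul_of_dvd_right h _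

omit [DecidableEq κ] in
lemma vd2_dvd_PP (J : List α) (x y : Bool) : vd2 k x y J ∣ PP k J := by
  unfold PP
  cases x
  · cases y
    · exact Dvd.dvd.mul_right (dvd_mul_right _ _) _
    · exact Dvd.dvd.mul_right (dvd_mul_left _ _) _
  · cases y
    · exact Dvd.dvd.mul_left (dvd_mul_right _ _) _
    · exact Dvd.dvd.mul_left (dvd_mul_left _ _) _

omit [DecidableEq κ] in
lemma dd_dvd_PP (J : List α) {a b : α × Bool} (ha : a.1 ∈ J) (hb : b.1 ∈ J)
    (hab : a.1 ≠ b.1) : dd k a b ∣ PP k J := by
  rcases dd_dvd_vd2 (k := k) J ha hb hab a.2 b.2 with h | h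
  · exact h.trans (vd2_dvd_PP J _ _)
  · exact h.trans (vd2_dvd_PP J _ _)

lemma map_vd2 {σ : α → κ} (π : LP k (α × Bool → ℤ) →+* LP k (κ → ℤ)) (J : List α)
    (hπ : ∀ j ∈ J, ∀ x, π (tt k (j, x)) = tt k (σ j)) (x y : Bool) :
    π (vd2 k x y J) = vdl k (J.map σ) := by
  induction J with
  | nil => simp [vd2, vdl]
  | cons j J ih =>
    rw [vd2, map_mul, ih (fun i hi => hπ i (List.mem_cons_of_mem _ hi)), List.map_cons, vdl,
      map_list_prod, List.map_map, List.map_map]
    congr 2
    refine List.map_congr_left ?_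
    intro b hb
    simp only [Function.comp_apply, dd, map_sub]
    rw [hπ j (by simp), hπ b (List.mem_cons_of_mem _ hb)]

lemma map_PP {σ : α → κ} (π : LP k (α × Bool → ℤ) →+* LP k (κ → ℤ)) (J : List α)
    (hπ : ∀ j ∈ J, ∀ x, π (tt k (j, x)) = tt k (σ j)) :
    π (PP k J) = vdl k (J.map σ) ^ 4 := by
  rw [PP, map_mul, map_mul, map_mul, map_vd2 π J hπ, map_vd2 π J hπ, map_vd2 π J hπ,
    map_vd2 π J hπ]
  ring

end Ops

/-! ### Expansion of the iterated operators -/

lemma list_prod_expand {R : Type*} [Semiring R] {β : Type*} [Fintype β] (l : ℕ)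
    (g : Fin l → β → R) :
    ((List.finRange l).map (fun a => ∑ i, g a i)).prod =
      ∑ c : Fin l → β, ((List.finRange l).map (fun a => g a (c a))).prod := by
  induction l with
  | zero => simp
  | succ l ih =>
    rw [List.finRange_succ, List.map_cons, List.prod_cons, List.map_map]
    have h1 : (List.map ((fun a => ∑ i, g a i) ∘ Fin.succ) (List.finRange l)).prod =
        ∑ c : Fin l → β, ((List.finRange l).map (fun a => g a.succ (c a))).prod := by
      rw [← ih (fun a i => g a.succ i)]
      rfl
    rw [h1, Finset.sum_mul_sum, ← Fintype.sum_prod_type',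
      ← (Fin.consEquiv (fun _ : Fin (l + 1) => β)).sum_comp]
    refine Finset.sum_congr rfl fun x _ => ?_
    rw [List.map_cons, List.prod_cons, List.map_map]
    simp only [Fin.consEquiv_apply, Fin.cons_zero]
    rfl

/-- the iterated operators -/
noncomputable def opJ (k : Type*) [Field k] (l : ℕ) {α : Type*} (J : List α)
    (m : α × Bool → ℤ) : Module.End k (LP k (Fin l → ℤ)) :=
  (J.map (fun j => (Dop k (m (j, false)) * Dop k (m (j, true)) :
    Module.End k (LP k (Fin l → ℤ))))).prod

lemma opJ_expand (l L : ℕ) (m : Fin L × Bool → ℤ) :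
    opJ k l (List.finRange L) m =
      ∑ c : Fin L → Fin l × Fin l, cpr k c (List.finRange L) m := by
  have h : ∀ j : Fin L, (Dop k (m (j, false)) * Dop k (m (j, true)) :
      Module.End k (LP k (Fin l → ℤ))) =
      ∑ i : Fin l × Fin l, TA k i.1 (m (j, false)) * TA k i.2 (m (j, true)) := by
    intro j
    rw [Dop_eq_sum, Dop_eq_sum, Finset.sum_mul_sum, Fintype.sum_prod_type]
  unfold opJ cpr
  simp only [h]
  exact list_prod_expand L (fun j (i : Fin l × Fin l) => TA k i.1 (m (j, false)) *
    TA k i.2 (m (j, true)))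

/-- smeared iterated operators -/
noncomputable def smear (k : Type*) [Field k] (l L : ℕ) (H : LP k (Fin L × Bool → ℤ))
    (F : LP k (Fin l → ℤ)) : LP k (Fin l → ℤ) :=
  lin (fun m => opJ k l (List.finRange L) m F) H

lemma smear_add (l L : ℕ) (H : LP k (Fin L × Bool → ℤ)) (F F' : LP k (Fin l → ℤ)) :
    smear k l L H (F + F') = smear k l L H F + smear k l L H F' := by
  unfold smear
  rw [← lin_add]
  simp only [map_add]

lemma smear_smul (l L : ℕ) (H : LP k (Fin L × Bool → ℤ)) (c : k) (F : LP k (Fin l → ℤ)) :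
    smear k l L H (c • F) = c • smear k l L H F := by
  unfold smear
  rw [← lin_smul]
  simp only [map_smul]

lemma smear_zero (l L : ℕ) (H : LP k (Fin L × Bool → ℤ)) :
    smear k l L H (0 : LP k (Fin l → ℤ)) = 0 := by
  unfold smear
  simp only [map_zero]
  exact lin_zero H

lemma smear_mon (l L : ℕ) (H : LP k (Fin L × Bool → ℤ)) (μ : Fin l → ℤ) :
    smear k l L H (mon μ) = ∑ c : Fin L → Fin l × Fin l,
      lin (fun m => cpr k c (List.finRange L) m (mon μ)) H := by
  unfold smear
  simp only [opJ_expand, LinearMap.sum_apply]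
  induction H using LP_induction with
  | h0 => simp
  | hadd x y hx hy => simp only [map_add, hx, hy, Finset.sum_add_distrib]
  | hmon m d =>
    simp only [map_smul, lin_mon, Finset.smul_sum]

/-- shorter products are killed -/
lemma smear_short {l L : ℕ} (hl : l < L) {H : LP k (Fin L × Bool → ℤ)}
    (hH : PP k (List.finRange L) ^ (1 + 2 * L) ∣ H) (F : LP k (Fin l → ℤ)) :
    smear k l L H F = 0 := by
  induction F using LP_induction with
  | h0 => exact smear_zero l L H
  | hadd x y hx hy => rw [smear_add, hx, hy, add_zero]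
  | hmon μ d =>
    rw [smear_smul, smear_mon]
    rw [Finset.sum_eq_zero, smul_zero]
    intro c _
    obtain ⟨i, j, hij, hc⟩ := Fintype.exists_ne_map_eq_of_card_lt (fun j : Fin L => (c j).1)
      (by simpa using hl)
    refine lin_cpr_collision c (List.finRange L) (List.nodup_finRange L) μ
      (a := (i, false)) (b := (j, false)) (List.mem_finRange _) (List.mem_finRange _) hc ?_
    rw [List.length_finRange]
    exact (pow_dvd_pow_of_dvd (dd_dvd_PP _ (List.mem_finRange _) (List.mem_finRange _) hij)
      _).trans hH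

lemma no_collision {L : ℕ} (c : Fin L → Fin L × Fin L)
    (h : ∀ a b : Fin L × Bool, a.1 ≠ b.1 → col c a ≠ col c b) :
    ∃ σ : Equiv.Perm (Fin L), c = fun j => (σ j, σ j) := by
  have hinj : Function.Injective (fun j : Fin L => (c j).1) := by
    intro i j hij
    by_contra hne
    exact h (i, false) (j, false) hne hij
  have hbij : Function.Bijective (fun j : Fin L => (c j).1) := Finite.injective_iff_bijective.1 hinj
  refine ⟨Equiv.ofBijective _ hbij, ?_⟩
  funext j
  obtain ⟨i, hi⟩ := hbij.2 (c j).2
  have hij : i = j := by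
    by_contra hne
    exact h (i, false) (j, true) hne hi
  subst hij
  simp only [Equiv.ofBijective_apply]
  exact Prod.ext rfl hi.symm

lemma piL_renL {L : ℕ} (σ : Equiv.Perm (Fin L)) (G : LP k (Fin L → ℤ)) :
    piL k (gam (fun j => (σ j, σ j)) (List.finRange L)) (renL k (fun j : Fin L => (j, false)) G) =
      permL k σ.symm G := by
  have hinj : Function.Injective (fun j : Fin L => ((j, false) : Fin L × Bool)) := by
    intro i j hij
    simpa using hij
  induction G using LP_induction with
  | h0 => simp
  | hadd x y hx hy => simp only [map_add, hx, hy]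
  | hmon μ d =>
    rw [renL_smul, piL_smul, map_smul, renL_mon, piL_mon, permL_mon]
    congr 2
    have e : ∀ ν : Fin L → ℤ, extZ (fun j : Fin L => ((j, false) : Fin L × Bool)) ν =
        ∑ j, Pi.single (j, false) (ν j) := by
      intro ν
      funext a
      rw [Finset.sum_apply]
      by_cases ha : ∃ b : Fin L, ((b, false) : Fin L × Bool) = a
      · obtain ⟨b, rfl⟩ := ha
        rw [extZ_apply hinj, Finset.sum_eq_single b]
        · simp
        · intro i _ hi
          rw [Pi.single_eq_of_ne]
          intro h'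
          exact hi (by simpa using h'.symm)
        · simp
      · rw [extZ_apply' _ ha, Finset.sum_eq_zero]
        intro i _
        rw [Pi.single_eq_of_ne]
        intro h'
        exact ha ⟨i, h'.symm⟩
    rw [e, map_sum]
    have e2 : ∀ j : Fin L, gam (fun j => (σ j, σ j)) (List.finRange L)
        (Pi.single (j, false) (μ j)) = (Pi.single (σ j) (μ j) : Fin L → ℤ) := by
      intro j
      rw [gam_single _ _ (List.nodup_finRange L) _ _ (List.mem_finRange _)]
      rfl
    simp only [e2]
    funext i
    rw [Finset.sum_apply, Finset.sum_eq_single (σ.symm i)]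
    · simp
    · intro j _ hj
      rw [Pi.single_eq_of_ne]
      intro h'
      apply hj
      rw [h']
      simp
    · simp

lemma vdl_map_perm {L : ℕ} (σ : Equiv.Perm (Fin L)) (N : ℕ) :
    (vdl k ((List.finRange L).map σ) ^ 4) ^ N = vdm k L ^ (4 * N) := by
  have h := vdl_sq_perm (k := k) (finRange_perm σ)
  have e1 : vdl k ((List.finRange L).map σ) ^ 4 = (vdl k ((List.finRange L).map σ) ^ 2) ^ 2 := by
    ring
  rw [e1, h, vdm]
  ring

/-- products of the right length -/
lemma smear_long {L : ℕ} (N : ℕ) (hN : 1 + 2 * L ≤ N) (G : LP k (Fin L → ℤ))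
    (F : LP k (Fin L → ℤ)) :
    smear k L L (((List.finRange L).map (fun j => pp k j ^ 2)).prod * (PP k (List.finRange L) ^ N *
      renL k (fun j : Fin L => (j, false)) G)) F =
    ((List.finRange L).map (fun j => -4 * tt k j ^ 2)).prod * (vdm k L ^ (4 * N) *
      symL k G) * F := by
  set H := ((List.finRange L).map (fun j => pp k j ^ 2)).prod * (PP k (List.finRange L) ^ N *
      renL k (fun j : Fin L => (j, false)) G) with hH
  induction F using LP_induction with
  | h0 => rw [smear_zero, mul_zero]
  | hadd x y hx hy => rw [smear_add, hx, hy]; ring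
  | hmon μ d =>
    rw [smear_smul, smear_mon, mul_smul_comm]
    congr 1
    -- terms with a collision vanish
    have hcol : ∀ c : Fin L → Fin L × Fin L,
        (¬ ∃ σ : Equiv.Perm (Fin L), c = fun j => (σ j, σ j)) →
        lin (fun m => cpr k c (List.finRange L) m (mon μ)) H = 0 := by
      intro c hc
      by_contra hne
      apply hc
      apply no_collision
      intro a b hab hcab
      apply hne
      refine lin_cpr_collision c (List.finRange L) (List.nodup_finRange L) μ
        (List.mem_finRange _) (List.mem_finRange _) hcab ?_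
      rw [List.length_finRange]
      refine ((pow_dvd_pow _ hN).trans (pow_dvd_pow_of_dvd
        (dd_dvd_PP _ (List.mem_finRange _) (List.mem_finRange _) hab) N)).trans ?_
      rw [hH]
      exact dvd_mul_of_dvd_right (dvd_mul_right _ _) _
    have hval : ∀ σ : Equiv.Perm (Fin L),
        lin (fun m => cpr k (fun j => (σ j, σ j)) (List.finRange L) m (mon μ)) H =
        ((List.finRange L).map (fun j => -4 * tt k j ^ 2)).prod * (vdm k L ^ (4 * N) *
          permL k σ.symm G) * mon μ := by
      intro σ
      have hπ : ∀ j ∈ List.finRange L, ∀ x, piL k (gam (fun j => (σ j, σ j)) (List.finRange L))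
          (tt k (j, x)) = tt k (σ j) := by
        intro j hj x
        rw [piL_tt _ _ (List.nodup_finRange L) (j, x) hj]
        cases x <;> rfl
      rw [lin_cpr, hH, spec_scal σ μ _ (tt k) (List.finRange L) (List.nodup_finRange L) hπ,
        map_mul, map_pow, map_PP _ _ hπ, vdl_map_perm, piL_renL]
      have e : ((List.finRange L).map (fun j => -4 * tt k (σ j) ^ 2)).prod =
          ((List.finRange L).map (fun j => -4 * tt k j ^ 2)).prod := by
        have := ((finRange_perm σ).map (fun j => -4 * (tt k j : LP k (Fin L → ℤ)) ^ 2)).prod_eq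
        rw [List.map_map] at this
        exact this
      rw [e]
      ring
    have hinj : Function.Injective (fun (σ : Equiv.Perm (Fin L)) (j : Fin L) => (σ j, σ j)) := by
      intro σ τ h
      ext j
      have := congrArg Prod.fst (congrFun h j)
      simpa using congrArg Fin.val this
    classical
    have hsub : ∑ c : Fin L → Fin L × Fin L,
        lin (fun m => cpr k c (List.finRange L) m (mon μ)) H =
        ∑ σ : Equiv.Perm (Fin L),
        lin (fun m => cpr k (fun j => (σ j, σ j)) (List.finRange L) m (mon μ)) H := by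
      rw [← Finset.sum_image (s := Finset.univ) (g := fun (σ : Equiv.Perm (Fin L)) (j : Fin L) =>
        (σ j, σ j)) (f := fun c => lin (fun m => cpr k c (List.finRange L) m (mon μ)) H)
        (fun σ _ τ _ h => hinj h)]
      symm
      apply Finset.sum_subset (Finset.subset_univ _)
      intro c _ hc
      apply hcol
      rintro ⟨σ, rfl⟩
      exact hc (Finset.mem_image.2 ⟨σ, Finset.mem_univ _, rfl⟩)
    rw [hsub, Finset.sum_congr rfl (fun σ _ => hval σ), ← Finset.sum_mul, ← Finset.mul_sum,
      ← Finset.mul_sum, symL_apply]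
    congr 3
    exact Equiv.sum_comp (Equiv.inv (Equiv.Perm (Fin L))) (fun σ => permL k σ G)

/-! ### Iterated commutators -/

section Ad

variable {A : Type*} [Ring A] [Algebra k A]

/-- the commutator with `e n` -/
def adE (k : Type*) [Field k] {A : Type*} [Ring A] [Algebra k A] (e : ℤ → A) (n : ℤ) :
    Module.End k A :=
  LinearMap.mulLeft k (e n) - LinearMap.mulRight k (e n)

lemma adE_apply (e : ℤ → A) (n : ℤ) (u : A) : adE k e n u = e n * u - u * e n := rfl

/-- iterated commutators -/
def adJ (k : Type*) [Field k] {A : Type*} [Ring A] [Algebra k A] (e : ℤ → A) {α : Type*}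
    (J : List α) (m : α × Bool → ℤ) : Module.End k A :=
  (J.map (fun j => adE k e (m (j, false)) * adE k e (m (j, true)))).prod

lemma adJ_cons (e : ℤ → A) {α : Type*} (j : α) (J : List α) (m : α × Bool → ℤ) (u : A) :
    adJ k e (j :: J) m u = adE k e (m (j, false)) (adE k e (m (j, true)) (adJ k e J m u)) := by
  simp [adJ]

lemma adJ_mem (e : ℤ → A) {N : Submodule k A} (hN : IsTS N) {α : Type*} (J : List α)
    (m : α × Bool → ℤ) {u : A} (hu : u ∈ N) : adJ k e J m u ∈ N := by
  have h1 : ∀ n x, x ∈ N → adE k e n x ∈ N := by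
    intro n x hx
    rw [adE_apply]
    exact N.sub_mem (hN.left _ _ hx) (hN.right _ _ hx)
  induction J with
  | nil => simpa [adJ] using hu
  | cons j J ih => rw [adJ_cons]; exact h1 _ _ (h1 _ _ ih)

lemma adJ_EE (e : ℤ → A) (he : WittRel k e) (l : ℕ) {α : Type*} (J : List α)
    (m : α × Bool → ℤ) (F : LP k (Fin l → ℤ)) :
    adJ k e J m (EE e (List.finRange l) F) = EE e (List.finRange l) (opJ k l J m F) := by
  induction J with
  | nil => simp [adJ, opJ]
  | cons j J ih =>
    have h1 : opJ k l (j :: J) m F = Dop k (m (j, false)) (Dop k (m (j, true)) (opJ k l J m F)) := by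
      simp [opJ]
    rw [adJ_cons, ih, adE_apply e (m (j, true)), ad_EE e he, adE_apply, ad_EE e he, h1]

/-- smeared iterated commutators -/
noncomputable def adS (k : Type*) [Field k] {A : Type*} [Ring A] [Algebra k A] (e : ℤ → A)
    (L : ℕ) (H : LP k (Fin L × Bool → ℤ)) (u : A) : A :=
  lin (fun m => adJ k e (List.finRange L) m u) H

lemma adS_add (e : ℤ → A) (L : ℕ) (H : LP k (Fin L × Bool → ℤ)) (u v : A) :
    adS k e L H (u + v) = adS k e L H u + adS k e L H v := by
  unfold adS
  rw [← lin_add]
  simp only [map_add]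

lemma adS_smul (e : ℤ → A) (L : ℕ) (H : LP k (Fin L × Bool → ℤ)) (c : k) (u : A) :
    adS k e L H (c • u) = c • adS k e L H u := by
  unfold adS
  rw [← lin_smul]
  simp only [map_smul]

lemma adS_mem (e : ℤ → A) {N : Submodule k A} (hN : IsTS N) (L : ℕ)
    (H : LP k (Fin L × Bool → ℤ)) {u : A} (hu : u ∈ N) : adS k e L H u ∈ N := by
  unfold adS
  induction H using LP_induction with
  | h0 => rw [map_zero]; exact N.zero_mem
  | hadd x y hx hy => rw [map_add]; exact N.add_mem hx hy
  | hmon m d => rw [map_smul, lin_mon]; exact N.smul_mem _ (adJ_mem e hN _ _ hu)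

lemma adS_EE (e : ℤ → A) (he : WittRel k e) (l L : ℕ) (H : LP k (Fin L × Bool → ℤ))
    (F : LP k (Fin l → ℤ)) :
    adS k e L H (EE e (List.finRange l) F) = EE e (List.finRange l) (smear k l L H F) := by
  unfold adS smear
  simp only [adJ_EE e he]
  exact (map_lin (EE e (List.finRange l)) _ H).symm

lemma adS_short (e : ℤ → A) (he : WittRel k e) (L : ℕ) {H : LP k (Fin L × Bool → ℤ)}
    (hH : PP k (List.finRange L) ^ (1 + 2 * L) ∣ H) {u : A} (hu : u ∈ filLT k e L) :
    adS k e L H u = 0 := by
  induction hu using Submodule.span_induction with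
  | mem x hx =>
    obtain ⟨w, hw, rfl⟩ := hx
    have : (w.map e).prod = EE e (List.finRange w.length)
        (mon (fun i => w.get i) : LP k (Fin w.length → ℤ)) := by
      rw [EE, lin_mon, fprod]
      congr 1
      apply List.ext_getElem
      · simp
      · intro i h1 h2
        simp
    rw [this, adS_EE e he, smear_short hw hH, map_zero]
  | zero =>
    have := adS_smul e L H (0 : k) (0 : A)
    simpa using this
  | add x y _ _ hx hy => rw [adS_add, hx, hy, add_zero]
  | smul c x _ hx => rw [adS_smul, hx, smul_zero]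

end Ad

end MO

variable {k : Type*} [Field k] {A : Type*} [Ring A] [Algebra k A]

/-- If `E_L(F) + (shorter products)` lies in a two-sided ideal `N`, then `N` contains
`E_L(Δ^(2K) sym(G) F)` for all `G` (`K` depends only on `L`). -/
theorem mult_mem [CharZero k] (e : ℤ → A) (he : WittRel k e) (N : Submodule k A) (hN : IsTS N)
    (L : ℕ) (F : LP k (Fin L → ℤ)) (u' : A) (hu' : u' ∈ filLT k e L)
    (hu : EE e (List.finRange L) F + u' ∈ N) :
    ∃ K : ℕ, ∀ G : LP k (Fin L → ℤ),
      EE e (List.finRange L) (vdm k L ^ (2 * K) * symL k G * F) ∈ N := by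
  refine ⟨2 * (1 + 2 * L), fun G => ?_⟩
  -- the unit `∏ (-4) t_j^2`
  set u0 : LP k (Fin L → ℤ) := ((List.finRange L).map (fun j => -4 * tt k j ^ 2)).prod with hu0
  have hu0' : u0 = ((-4 : k) ^ L) • mon (fun _ => 2) := by
    have h1 : ∀ J : List (Fin L), (J.map (fun j => -4 * (tt k j : LP k (Fin L → ℤ)) ^ 2)).prod =
        ((-4 : k) ^ J.length) • mon ((J.map (fun j => (Pi.single j 2 : Fin L → ℤ))).sum) := by
      intro J
      induction J with
      | nil => simp
      | cons j J ih =>
        rw [List.map_cons, List.prod_cons, ih, List.map_cons, List.sum_cons, List.length_cons,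
          tt_pow_eq, ← mon_mul_mon, pow_succ']
        rw [mul_smul_comm, mul_assoc, mul_smul]
        have : (-4 : LP k (Fin L → ℤ)) * (mon (Pi.single j 2) *
            mon ((J.map (fun j => (Pi.single j 2 : Fin L → ℤ))).sum)) = (-4 : k) •
            (mon (Pi.single j 2) * mon ((J.map (fun j => (Pi.single j 2 : Fin L → ℤ))).sum)) := by
          rw [neg_smul, neg_mul, ofNat_smul_eq_nsmul]
          simp
        push_cast
        rw [this, smul_comm]
    rw [hu0, h1, List.length_finRange]
    congr 2
    rw [← Fin.sum_univ_def]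
    exact Finset.univ_sum_single (fun _ : Fin L => (2 : ℤ))
  set G' : LP k (Fin L → ℤ) := mon (fun _ => -2) * G with hG'
  have hsym : symL k G' = mon (fun _ => -2) * symL k G := by
    rw [hG']
    apply symL_mul_of_inv
    intro σ
    rw [permL_mon]
    rfl
  set H := ((List.finRange L).map (fun j => MO.pp k j ^ 2)).prod *
    (MO.PP k (List.finRange L) ^ (1 + 2 * L) *
      renL k (fun j : Fin L => (j, false)) G') with hH
  have hdvd : MO.PP k (List.finRange L) ^ (1 + 2 * L) ∣ H := by
    rw [hH]
    exact dvd_mul_of_dvd_right (dvd_mul_right _ _) _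
  have h1 := MO.adS_mem e hN L H hu
  rw [MO.adS_add, MO.adS_short e he L hdvd hu', add_zero, MO.adS_EE e he, hH,
    MO.smear_long _ le_rfl, hsym, ← hu0, hu0'] at h1
  have e2 : ((-4 : k) ^ L) • (mon (fun _ => 2) : LP k (Fin L → ℤ)) *
      (vdm k L ^ (4 * (1 + 2 * L)) * (mon (fun _ => -2) * symL k G)) * F =
      ((-4 : k) ^ L) • (vdm k L ^ (2 * (2 * (1 + 2 * L))) * symL k G * F) := by
    have e3 : (mon (fun _ => 2) * mon (fun _ => -2) : LP k (Fin L → ℤ)) = 1 := by
      rw [mon_mul_mon, ← mon_zero]
      congr 1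
    have e4 : 4 * (1 + 2 * L) = 2 * (2 * (1 + 2 * L)) := by ring
    rw [smul_mul_assoc, smul_mul_assoc, e4]
    congr 1
    calc (mon (fun _ => 2) : LP k (Fin L → ℤ)) * (vdm k L ^ (2 * (2 * (1 + 2 * L))) *
          (mon (fun _ => -2) * symL k G)) * F
        = (mon (fun _ => 2) * mon (fun _ => -2)) * (vdm k L ^ (2 * (2 * (1 + 2 * L))) *
          symL k G * F) := by ring
      _ = _ := by rw [e3, one_mul]
  rw [e2, map_smul] at h1
  have hne : ((-4 : k) ^ L) ≠ 0 := pow_ne_zero _ (by norm_num)
  have h2 := N.smul_mem ((-4 : k) ^ L)⁻¹ h1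
  rwa [smul_smul, inv_mul_cancel₀ hne, one_smul] at h2

end Pool.Agent.H48.Witt
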