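import Pool.Agent.H48.Witt.Defs2

/-!
# Ideals of Laurent polynomials stable under the vector fields `X_n` (MP_f251f6_al)

A nonzero ideal of `k[ℤ^L]` stable under all `X_n = ∑ t_i^n (t_i ∂_i)` contains a power of the
Vandermonde.
-/

set_option autoImplicit false

namespace Pool.Agent.H48.Witt

open Finset

section A2
variable {k : Type*} [Field k] {ι : Type*}

namespace XS

/-- The derivation `t_i ∂/∂t_i`. -/
noncomputable def Eop (k : Type*) [Field k] {ι : Type*} (i : ι) :
    LP k (ι → ℤ) →ₗ[k] LP k (ι → ℤ) :=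
  lin (fun μ => ((μ i : ℤ) : k) • mon μ)

lemma Eop_mon (i : ι) (μ : ι → ℤ) :
    Eop k i (mon μ) = ((μ i : ℤ) : k) • (mon μ : LP k (ι → ℤ)) := by
  unfold Eop
  rw [lin_mon]

lemma Eop_mul (i : ι) (a b : LP k (ι → ℤ)) :
    Eop k i (a * b) = a * Eop k i b + b * Eop k i a := by
  induction a using LP_induction with
  | h0 => simp
  | hadd x y hx hy =>
    rw [add_mul, map_add, hx, hy, map_add]
    ring
  | hmon g c =>
    induction b using LP_induction with
    | h0 => simp
    | hadd x y hx hy =>
      rw [mul_add, map_add, hx, hy, map_add]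
      ring
    | hmon h d =>
      rw [smul_mul_smul_comm, mon_mul_mon, map_smul, map_smul, map_smul, Eop_mon, Eop_mon, Eop_mon]
      simp only [smul_mul_assoc, mul_smul_comm, smul_smul, mon_mul_mon]
      rw [add_comm h g, ← add_smul]
      congr 1
      simp only [Pi.add_apply]
      push_cast
      ring

lemma Eop_one (i : ι) : Eop k i (1 : LP k (ι → ℤ)) = 0 := by
  rw [← mon_zero, Eop_mon]
  simp

lemma Eop_pow_dvd (i : ι) (D : LP k (ι → ℤ)) (K : ℕ) : D ^ K ∣ D * Eop k i (D ^ K) := by
  induction K with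
  | zero => simp
  | succ K ih =>
    rw [pow_succ, Eop_mul, mul_add]
    refine dvd_add ⟨Eop k i D, by ring⟩ ?_
    obtain ⟨c, hc⟩ := ih
    exact ⟨c, by rw [hc]; ring⟩

lemma coeff_Eop (i : ι) (F : LP k (ι → ℤ)) (μ : ι → ℤ) :
    (Eop k i F).coeff μ = ((μ i : ℤ) : k) * F.coeff μ := by
  classical
  induction F using LP_induction with
  | h0 => simp
  | hadd x y hx hy => simp [hx, hy, mul_add]
  | hmon g c =>
    rw [map_smul, Eop_mon]
    by_cases h : g = μ
    · subst h
      simp [mon, mul_comm]
    · simp [mon, h]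

lemma tt_pow [DecidableEq ι] (j : ι) (m : ℕ) :
    tt k j ^ m = (mon (Pi.single j (m : ℤ)) : LP k (ι → ℤ)) := by
  induction m with
  | zero => simp
  | succ m ih =>
    rw [pow_succ, ih, tt, mon_mul_mon, ← Pi.single_add]
    push_cast
    rfl

lemma Xop_eq [Fintype ι] [DecidableEq ι] (n : ℤ) (F : LP k (ι → ℤ)) :
    Xop k n F = ∑ i, mon (Pi.single i n) * Eop k i F := by
  induction F using LP_induction with
  | h0 => simp
  | hadd x y hx hy => simp [hx, hy, mul_add, Finset.sum_add_distrib]
  | hmon g c =>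
    rw [map_smul]
    unfold Xop
    rw [lin_mon, Finset.smul_sum]
    refine Finset.sum_congr rfl (fun i _ => ?_)
    rw [map_smul, Eop_mon, mul_smul_comm, mul_smul_comm, mon_mul_mon, add_comm g]

lemma prod_dd_dvd [DecidableEq ι] (i : ι) (ℓ : List ι) (hi : i ∈ ℓ) :
    ((ℓ.erase i).map (fun b => dd k i b)).prod ∣ vdl k ℓ := by
  induction ℓ with
  | nil => simp at hi
  | cons a ℓ ih =>
    by_cases h : a = i
    · subst h
      rw [List.erase_cons_head]
      exact dvd_mul_right _ _
    · have hi' : i ∈ ℓ := by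
        rcases List.mem_cons.mp hi with h' | h'
        · exact absurd h'.symm h
        · exact h'
      rw [List.erase_cons_tail (by simpa using h), List.map_cons, List.prod_cons]
      refine mul_dvd_mul ?_ (ih hi')
      rw [dd_swap, neg_dvd]
      exact List.dvd_prod (List.mem_map.mpr ⟨i, hi', rfl⟩)

/-- the key step: an ideal stable under all `X_n` is stable under `Δ t_i ∂_i` -/
lemma vdm_mul_Eop_mem {L : ℕ} {I : Ideal (LP k (Fin L → ℤ))}
    (hX : ∀ n : ℤ, ∀ F ∈ I, Xop k n F ∈ I) (i : Fin L) {F : LP k (Fin L → ℤ)} (hF : F ∈ I) :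
    vdm k L * Eop k i F ∈ I := by
  classical
  set f : Polynomial (LP k (Fin L → ℤ)) :=
    (((List.finRange L).erase i).map (fun b => Polynomial.X - Polynomial.C (tt k b))).prod with hf
  have heval : ∀ j, f.eval (tt k j) = (((List.finRange L).erase i).map (fun b => dd k j b)).prod := by
    intro j
    rw [hf, Polynomial.eval_list_prod, List.map_map]
    refine congrArg List.prod (List.map_congr_left ?_)
    intro b _
    simp [dd]
  have hsum : ∑ m ∈ range (f.natDegree + 1), f.coeff m * Xop k (m : ℤ) F =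
      (((List.finRange L).erase i).map (fun b => dd k i b)).prod * Eop k i F := by
    have h1 : ∑ m ∈ range (f.natDegree + 1), f.coeff m * Xop k (m : ℤ) F =
        ∑ j, f.eval (tt k j) * Eop k j F := by
      simp_rw [Polynomial.eval_eq_sum_range, Finset.sum_mul, Xop_eq, Finset.mul_sum]
      rw [Finset.sum_comm]
      refine Finset.sum_congr rfl (fun j _ => Finset.sum_congr rfl (fun m _ => ?_))
      rw [tt_pow]
      ring
    rw [h1, Finset.sum_eq_single i]
    · rw [heval]
    · intro j _ hj
      rw [heval]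
      have : j ∈ (List.finRange L).erase i :=
        (List.mem_erase_of_ne hj).mpr (List.mem_finRange j)
      rw [List.prod_eq_zero (List.mem_map.mpr ⟨j, this, by simp [dd]⟩), zero_mul]
    · simp
  obtain ⟨c, hc⟩ := prod_dd_dvd (k := k) i (List.finRange L) (List.mem_finRange i)
  have hmem : (((List.finRange L).erase i).map (fun b => dd k i b)).prod * Eop k i F ∈ I := by
    rw [← hsum]
    exact Ideal.sum_mem _ (fun m _ => I.mul_mem_left _ (hX _ _ hF))
  have : vdm k L * Eop k i F =
      c * ((((List.finRange L).erase i).map (fun b => dd k i b)).prod * Eop k i F) := by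
    rw [vdm, hc]; ring
  rw [this]
  exact I.mul_mem_left _ hmem

lemma vdm_pow_mul_Eop_mem {L : ℕ} {I : Ideal (LP k (Fin L → ℤ))}
    (hX : ∀ n : ℤ, ∀ F ∈ I, Xop k n F ∈ I) (i : Fin L) {F : LP k (Fin L → ℤ)} {K : ℕ}
    (hF : vdm k L ^ K * F ∈ I) : vdm k L ^ (K + 1) * Eop k i F ∈ I := by
  have h1 := vdm_mul_Eop_mem hX i hF
  rw [Eop_mul, mul_add] at h1
  obtain ⟨c, hc⟩ := Eop_pow_dvd (k := k) i (vdm k L) K
  have h2 : vdm k L * (F * Eop k i (vdm k L ^ K)) ∈ I := by
    have : vdm k L * (F * Eop k i (vdm k L ^ K)) = c * (vdm k L ^ K * F) := by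
      rw [mul_left_comm, hc]; ring
    rw [this]
    exact I.mul_mem_left _ hF
  have h3 := (I.add_mem_iff_left h2).mp h1
  have : vdm k L ^ (K + 1) * Eop k i F = vdm k L * (vdm k L ^ K * Eop k i F) := by ring
  rw [this]
  exact h3

end XS

open XS

/-- A nonzero ideal of `k[ℤ^L]` stable under all `X_n = ∑ t_i^n (t_i ∂_i)` contains a power of
the Vandermonde. -/
theorem vdm_pow_mem [CharZero k] (L : ℕ) (I : Ideal (LP k (Fin L → ℤ))) (hI : I ≠ ⊥)
    (hX : ∀ n : ℤ, ∀ F ∈ I, Xop k n F ∈ I) : ∃ K : ℕ, vdm k L ^ K ∈ I := by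
  classical
  have key : ∀ n : ℕ, ∀ F : LP k (Fin L → ℤ), F.coeff.support.card = n → F ≠ 0 →
      (∃ K : ℕ, vdm k L ^ K * F ∈ I) → ∃ K : ℕ, vdm k L ^ K ∈ I := by
    intro n
    induction n using Nat.strong_induction_on with
    | _ n ih =>
      intro F hn hF hK
      obtain ⟨K, hK⟩ := hK
      have hne : F.coeff ≠ 0 := by
        intro h
        apply hF
        ext μ
        simp [h]
      obtain ⟨μ, hμ⟩ := Finsupp.support_nonempty_iff.mpr hne
      by_cases hsup : ∃ ν ∈ F.coeff.support, ν ≠ μ
      · obtain ⟨ν, hν, hνμ⟩ := hsup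
        obtain ⟨i, hi⟩ := Function.ne_iff.mp hνμ
        set F' := Eop k i F - ((μ i : ℤ) : k) • F with hF'
        have hco : ∀ ρ, F'.coeff ρ = (((ρ i : ℤ) : k) - ((μ i : ℤ) : k)) * F.coeff ρ := by
          intro ρ
          rw [hF']
          simp [coeff_Eop, sub_mul]
        have hsub : F'.coeff.support ⊂ F.coeff.support := by
          refine Finset.ssubset_iff_subset_ne.mpr ⟨?_, ?_⟩
          · intro ρ hρ
            rw [Finsupp.mem_support_iff] at hρ ⊢
            intro h
            apply hρ
            rw [hco, h, mul_zero]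
          · intro h
            have : μ ∈ F'.coeff.support := by rw [h]; exact hμ
            rw [Finsupp.mem_support_iff, hco] at this
            simp at this
        have hF'0 : F' ≠ 0 := by
          intro h
          have h1 := hco ν
          rw [h] at h1
          have h2 : F.coeff ν ≠ 0 := Finsupp.mem_support_iff.mp hν
          have h3 : (((ν i : ℤ) : k) - ((μ i : ℤ) : k)) ≠ 0 := by
            rw [sub_ne_zero]
            exact_mod_cast hi
          exact mul_ne_zero h3 h2 (by simpa using h1.symm)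
        refine ih F'.coeff.support.card (by rw [← hn]; exact Finset.card_lt_card hsub) F' rfl hF'0
          ⟨K + 1, ?_⟩
        rw [hF', mul_sub]
        refine I.sub_mem (vdm_pow_mul_Eop_mem hX i hK) ?_
        have : vdm k L ^ (K + 1) * (((μ i : ℤ) : k) • F) =
            (((μ i : ℤ) : k) • vdm k L) * (vdm k L ^ K * F) := by
          rw [mul_smul_comm, smul_mul_assoc, pow_succ]
          congr 1
          ring
        rw [this]
        exact I.mul_mem_left _ hK
      · push Not at hsup
        have hc : F.coeff μ ≠ 0 := Finsupp.mem_support_iff.mp hμ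
        have hFe : F = F.coeff μ • mon μ := by
          ext ρ
          by_cases h : ρ = μ
          · subst h
            simp [mon]
          · have h0 : F.coeff ρ = 0 := by
              by_contra h'
              exact h (hsup ρ (Finsupp.mem_support_iff.mpr h'))
            rw [h0]
            simp [mon, Ne.symm h]
        refine ⟨K, ?_⟩
        have h1 : ((F.coeff μ)⁻¹ • mon (-μ)) * F = 1 := by
          have h2 : ((F.coeff μ)⁻¹ • mon (-μ)) * F =
              ((F.coeff μ)⁻¹ • mon (-μ)) * (F.coeff μ • (mon μ : LP k (Fin L → ℤ))) :=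
            congrArg (fun z => ((F.coeff μ)⁻¹ • mon (-μ)) * z) hFe
          rw [h2, smul_mul_smul_comm, mon_neg_mul_mon, inv_mul_cancel₀ hc, one_smul]
        have : vdm k L ^ K = ((F.coeff μ)⁻¹ • mon (-μ)) * (vdm k L ^ K * F) := by
          calc vdm k L ^ K = vdm k L ^ K * 1 := (mul_one _).symm
            _ = vdm k L ^ K * (((F.coeff μ)⁻¹ • mon (-μ)) * F) := by rw [h1]
            _ = _ := mul_left_comm _ _ _
        rw [this]
        exact I.mul_mem_left _ hK
  obtain ⟨F, hF, hF0⟩ := Submodule.exists_mem_ne_zero_of_ne_bot hI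
  exact key _ F rfl hF0 ⟨0, by simpa using hF⟩

end A2

end Pool.Agent.H48.Witt
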