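import Pool.Agent.H48.Witt.Sym
import Pool.Agent.H48.Witt.Adj
import Pool.Agent.H48.Witt.Div
import Pool.Agent.H48.Witt.Cluster
import Pool.Agent.H48.Witt.MultOp
import Pool.Agent.H48.Witt.XStable

/-!
# A nonzero two-sided ideal satisfies a relation
-/

set_option autoImplicit false

namespace Pool.Agent.H48.Witt

open Finset

variable {k : Type*} [Field k] {A : Type*} [Ring A] [Algebra k A]

/-- A nonzero two-sided ideal satisfies a relation `Rel`. -/
theorem nonzero_rel [CharZero k] (e : ℤ → A) (he : WittRel k e)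
    (hgen : Algebra.adjoin k (Set.range e) = ⊤) {N : Submodule k A} (hN : IsTS N) (h0 : N ≠ ⊥) :
    ∃ d M, Rel e N d M := by
  classical
  obtain ⟨u, huN, hu0⟩ := (Submodule.ne_bot_iff N).mp h0
  -- the minimal filtration degree
  have hex : ∃ l, u ∈ filLT k e l := by
    obtain ⟨l, hl⟩ := exists_filLT (k := k) e hgen u
    exact ⟨l + 1, hl⟩
  have hspec := Nat.find_spec hex
  have hmin : ∀ l < Nat.find hex, u ∉ filLT k e l := fun l hl => Nat.find_min hex hl
  generalize Nat.find hex = l' at hspec hmin
  cases l' with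
  | zero =>
    rw [filLT_zero] at hspec
    exact absurd ((Submodule.mem_bot k).mp hspec) hu0
  | succ L =>
    obtain ⟨F, hF⟩ := filLT_succ e hspec
    have hfac : ((L.factorial : ℕ) : k) ≠ 0 := Nat.cast_ne_zero.mpr (Nat.factorial_ne_zero L)
    have hsym : symL k F ≠ 0 := by
      intro h
      apply hmin L (Nat.lt_succ_self L)
      have h1 := EE_symL_mem e he F
      rw [h, map_zero, sub_zero] at h1
      have h2 : EE e (List.finRange L) F ∈ filLT k e L := by
        have := Submodule.smul_mem _ ((L.factorial : k)⁻¹) h1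
        rwa [smul_smul, inv_mul_cancel₀ hfac, one_smul] at this
      have := Submodule.add_mem _ hF h2
      simpa using this
    obtain ⟨K, hK⟩ := mult_mem e he N hN L F (u - EE e (List.finRange L) F) hF
      (by simpa using huN)
    -- the ideal of multipliers
    set I : Ideal (LP k (Fin L → ℤ)) :=
      colonI (kill (fprod e (List.finRange L)) N) (vdm k L ^ 2) with hI
    have hmemI : ∀ G, G ∈ I ↔ ∀ H, EE e (List.finRange L) (vdm k L ^ 2 * (G * H)) ∈ N := by
      intro G
      rw [hI, mem_colonI, mem_kill]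
      simp only [mul_assoc, EE]
    have hF0 : vdm k L ^ (2 * K) * symL k F ∈ I := by
      rw [hmemI]
      intro H
      have e1 : vdm k L ^ 2 * (vdm k L ^ (2 * K) * symL k F * H) =
          vdm k L ^ (2 * (K + 1)) * (symL k F * H) := by ring
      have hd : ∀ X : LP k (Fin L → ℤ), vdm k L ^ 2 ∣ vdm k L ^ (2 * (K + 1)) * X := fun X =>
        dvd_mul_of_dvd_left (pow_dvd_pow _ (by omega)) _
      -- symmetrise both expressions
      have s1 := EE_symL_of_dvd e he (hd (symL k F * H))
      rw [symL_mul_of_inv (fun σ => permL_vdm_even σ _),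
        symL_mul_of_inv (fun σ => permL_symL σ F)] at s1
      have s2 := EE_symL_of_dvd e he (hd (symL k H * F))
      rw [symL_mul_of_inv (fun σ => permL_vdm_even σ _),
        symL_mul_of_inv (fun σ => permL_symL σ H)] at s2
      have s3 : EE e (List.finRange L) (vdm k L ^ (2 * (K + 1)) * (symL k F * H)) =
          EE e (List.finRange L) (vdm k L ^ (2 * (K + 1)) * (symL k H * F)) := by
        have : (L.factorial : k) • EE e (List.finRange L) (vdm k L ^ (2 * (K + 1)) *
            (symL k F * H)) = (L.factorial : k) • EE e (List.finRange L)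
            (vdm k L ^ (2 * (K + 1)) * (symL k H * F)) := by
          rw [← s1, ← s2, mul_comm (symL k F)]
        exact (smul_right_injective A hfac) this
      rw [e1, s3]
      have s4 := hK (vdm k L ^ 2 * H)
      rw [symL_mul_of_inv (fun σ => permL_vdm_sq σ)] at s4
      convert s4 using 2
      ring
    have hI0 : I ≠ ⊥ := by
      intro h
      rw [h] at hF0
      exact mul_ne_zero (pow_ne_zero _ (vdm_ne_zero L)) hsym ((Submodule.mem_bot _).mp hF0)
    have hX : ∀ n : ℤ, ∀ G ∈ I, Xop k n G ∈ I := by
      intro n G hG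
      rw [hmemI] at hG ⊢
      intro H
      obtain ⟨c, hc⟩ := dvd_Xop_pow (vdl_dvd_Xop (k := k) n (List.finRange L)) 2
      change Xop k n (vdm k L ^ 2) = vdm k L ^ 2 * c at hc
      have e1 : vdm k L ^ 2 * (Xop k n G * H) =
          Dop k n (vdm k L ^ 2 * (G * H)) +
          vdm k L ^ 2 * (G * ((n : k) • ((∑ i : Fin L, mon (Pi.single i n)) * H) - c * H
            - Xop k n H)) := by
        rw [Dop_eq, Xop_mul, Xop_mul, hc]
        simp only [Algebra.smul_def]
        ring
      rw [e1, map_add]
      refine N.add_mem ?_ (hG _)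
      rw [← ad_EE e he]
      exact N.sub_mem (hN.left _ _ (hG H)) (hN.right _ _ (hG H))
    obtain ⟨K₂, hK₂⟩ := vdm_pow_mem L I hI0 hX
    refine ⟨L, 2 + K₂, ?_⟩
    unfold Rel
    rw [pow_add, mem_kill]
    intro H
    rw [hmemI] at hK₂
    have := hK₂ H
    rwa [← mul_assoc, EE] at this

end Pool.Agent.H48.Witt
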