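import Pool.Agent.H48.Witt.Prime
import Pool.Agent.H48.Witt.PrimeDefs
import Pool.Agent.H48.Witt.Nonzero
import Pool.Agent.H48.Witt.Ann
import Pool.Agent.H48.Witt.UWitt
import Pool.Agent.H48.Witt.DSimple
import Pool.Agent.H48.Witt.DIndep

/-!
# Assembly: every nonzero prime ideal of `U(W)` contains a nonzero primitive ideal
-/

set_option autoImplicit false

namespace Pool.Agent.H48.Witt

open Finset

universe u

section Eval

variable {k : Type*} [Field k]

lemma evalU_permL {l : ℕ} (x : Fin l → kˣ) (σ : Equiv.Perm (Fin l)) (G : LP k (Fin l → ℤ)) :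
    evalU x (permL k σ⁻¹ G) = evalU (fun j => x (σ j)) G := by
  induction G using LP_induction with
  | h0 => simp
  | hadd a b ha hb => rw [map_add, map_add, map_add, ha, hb]
  | hmon μ c =>
    rw [map_smul, map_smul, map_smul, permL_mon, evalU_mon, evalU_mon]
    congr 2
    rw [← Equiv.prod_comp σ]
    refine Finset.prod_congr rfl fun i _ => ?_
    simp

lemma evalU_vdl_ne_zero {ι : Type*} [Fintype ι] [DecidableEq ι] (x : ι → kˣ)
    (hx : Function.Injective x) {ℓ : List ι} (h : ℓ.Nodup) : evalU x (vdl k ℓ) ≠ 0 := by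
  induction ℓ with
  | nil => rw [vdl, map_one]; exact one_ne_zero
  | cons a ℓ ih =>
    rw [vdl, map_mul]
    apply mul_ne_zero _ (ih (List.nodup_cons.mp h).2)
    rw [map_list_prod]
    apply List.prod_ne_zero
    intro h0
    rw [List.map_map] at h0
    obtain ⟨b, hb, hb'⟩ := List.mem_map.mp h0
    simp only [Function.comp_apply, dd, map_sub, evalU_tt] at hb'
    rw [sub_eq_zero] at hb'
    have := hx (Units.ext hb')
    subst this
    exact (List.nodup_cons.mp h).1 hb

end Eval

theorem nonzero_case (k : Type u) [Field k] [CharZero k] (P : TwoSidedIdeal (UWitt k))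
    (hP : IsPrimeIdeal P) (h0 : P ≠ ⊥) :
    ∃ Q : TwoSidedIdeal (UWitt k), IsPrimitiveIdeal Q ∧ Q ≤ P ∧ Q ≠ ⊥ := by
  have he := eU_wittRel k
  have hgen := eU_adjoin k
  have hN : IsTS (toSub (k := k) P) := toSub_isTS P
  have hN0 : toSub (k := k) P ≠ ⊥ := by
    intro h
    apply h0
    rw [eq_bot_iff]
    intro x hx
    have : x ∈ toSub (k := k) P := hx
    rw [h, Submodule.mem_bot] at this
    rw [this]
    exact TwoSidedIdeal.zero_mem _
  obtain ⟨d, M, hR⟩ := nonzero_rel (eU k) he hgen hN hN0
  obtain ⟨n, hn⟩ := prime_rel (eU k) he hgen hN hP.one_not_mem hP.elementwise hR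
  -- the representations
  have hex : ∀ (n : ℕ) (lam : Fin n → kˣ),
      ∃ ρ : UWitt k →ₐ[k] Module.End k (MvPolynomial (Fin n) k), ∀ m, ρ (eU k m) = opM lam m :=
    fun n lam => exists_hom k (opM lam) (opM_wittRel lam)
  choose ρ hρ using hex
  have hlift : ∀ (n : ℕ) (lam : Fin n → kˣ) (x : FreeAlgebra k ℤ),
      ρ n lam (FreeAlgebra.lift k (eU k) x) = FreeAlgebra.lift k (opM lam) x := by
    intro n lam x
    rw [← AlgHom.comp_apply]
    congr 1
    ext m
    simp [hρ]
  have hsurj : ∀ u : UWitt k, ∃ x : FreeAlgebra k ℤ, FreeAlgebra.lift k (eU k) x = u := by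
    intro u
    have hu : u ∈ Algebra.adjoin k (Set.range (eU k)) := by rw [hgen]; trivial
    have hle : Algebra.adjoin k (Set.range (eU k)) ≤ (FreeAlgebra.lift k (eU k)).range := by
      rw [Algebra.adjoin_le_iff]
      rintro _ ⟨m, rfl⟩
      exact ⟨FreeAlgebra.ι k m, by simp⟩
    exact hle hu
  have hind : ∀ (n : ℕ) (lam lam' : Fin n → kˣ) (u : UWitt k), ρ n lam u = 0 → ρ n lam' u = 0 := by
    intro n lam lam' u hu
    obtain ⟨x, rfl⟩ := hsurj u
    rw [hlift] at hu ⊢
    exact opM_indep lam lam' x hu
  -- distinct parameters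
  have hdist : ∀ n : ℕ, ∃ lam : Fin n → kˣ, Function.Injective lam := by
    intro n
    refine ⟨fun i => Units.mk0 ((i : ℕ) + 1 : k)
      (by exact_mod_cast Nat.succ_ne_zero (i : ℕ)), ?_⟩
    intro i j hij
    have : ((i : ℕ) + 1 : k) = (j : ℕ) + 1 := by
      have := congrArg Units.val hij
      simpa using this
    have h2 : (i : ℕ) = j := by
      have h3 := add_right_cancel this
      exact_mod_cast h3
    exact Fin.ext h2
  obtain ⟨lam, hlam⟩ := hdist n
  refine ⟨TwoSidedIdeal.ker (ρ n lam), ?_, ?_, ?_⟩
  · apply isPrimitive_ker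
    intro N hNs
    by_cases hb : N = ⊥
    · exact Or.inl hb
    · right
      apply opM_simple lam hlam N _ hb
      intro m f hf
      rw [← hρ]
      exact hNs _ _ hf
  · intro u hu
    rw [TwoSidedIdeal.mem_ker] at hu
    exact ann_le (eU k) he hgen (toSub P) hN n hn (ρ n) (hρ n) (hind n) lam u hu
  · -- the annihilator is not zero
    obtain ⟨lam', hlam'⟩ := hdist (n + 1)
    intro hbot
    have hkill := opM_kill (k := k) lam 1
    have hmem : EE (eU k) (List.finRange (n + 1)) (vdm k (n + 1) ^ 2) ∈
        TwoSidedIdeal.ker (ρ n lam) := by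
      rw [TwoSidedIdeal.mem_ker]
      have h1 : ρ n lam (EE (eU k) (List.finRange (n + 1)) (vdm k (n + 1) ^ 2)) =
          EE (opM lam) (List.finRange (n + 1)) (vdm k (n + 1) ^ 2) := by
        have := map_lin (ρ n lam).toLinearMap (fprod (eU k) (List.finRange (n + 1)))
          (vdm k (n + 1) ^ 2)
        rw [EE, EE]
        refine this.trans ?_
        congr 2
        funext μ
        simp [fprod, map_list_prod, Function.comp_def, hρ]
      rw [h1, EE]
      rw [mul_one] at hkill
      simpa using hkill
    rw [hbot] at hmem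
    have hz : EE (eU k) (List.finRange (n + 1)) (vdm k (n + 1) ^ 2) = 0 := hmem
    have h2 : EE (opM lam') (List.finRange (n + 1)) (vdm k (n + 1) ^ 2) = 0 := by
      have := map_lin (ρ (n + 1) lam').toLinearMap (fprod (eU k) (List.finRange (n + 1)))
        (vdm k (n + 1) ^ 2)
      rw [← EE, hz, map_zero] at this
      rw [EE, this]
      congr 2
      funext μ
      simp [fprod, map_list_prod, Function.comp_def, hρ]
    have h3 := opM_top lam' (vdm k (n + 1) ^ 2)
    rw [← EE, h2] at h3
    rw [LinearMap.zero_apply, map_zero] at h3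
    -- evaluate at the all-ones vector
    have h4 := congrArg (MvPolynomial.eval (fun _ : Fin (n + 1) => (1 : k))) h3
    rw [map_zero, map_sum] at h4
    have h5 : ∀ c : Fin (n + 1) → Fin (n + 1),
        MvPolynomial.eval (fun _ : Fin (n + 1) => (1 : k))
          (evalU (fun j => lam' (c j)) (vdm k (n + 1) ^ 2) •
            ∏ j, (MvPolynomial.X (c j) : MvPolynomial (Fin (n + 1)) k)) =
        if Function.Injective c then evalU lam' (vdm k (n + 1) ^ 2) else 0 := by
      intro c
      rw [MvPolynomial.smul_eval, map_prod]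
      simp only [MvPolynomial.eval_X, Finset.prod_const_one, mul_one]
      split_ifs with hc
      · have hbij : Function.Bijective c := Finite.injective_iff_bijective.mp hc
        let σ : Equiv.Perm (Fin (n + 1)) := Equiv.ofBijective c hbij
        have h6 := evalU_permL lam' σ (vdm k (n + 1) ^ 2)
        rw [permL_vdm_sq] at h6
        exact h6.symm
      · rw [map_pow, vdm, evalU_vdl_eq_zero, zero_pow two_ne_zero]
        intro hnd
        apply hc
        have := List.inj_on_of_nodup_map hnd
        intro i j hij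
        exact this (List.mem_finRange i) (List.mem_finRange j) (by simp [hij])
    rw [Finset.sum_congr rfl (fun c _ => h5 c), ← Finset.sum_filter, Finset.sum_const, eq_comm,
      smul_eq_zero] at h4
    rcases h4 with h4 | h4
    · rw [Finset.card_eq_zero] at h4
      have : (id : Fin (n + 1) → Fin (n + 1)) ∈
          (Finset.univ.filter (fun c : Fin (n + 1) → Fin (n + 1) => Function.Injective c)) := by
        simp [Function.injective_id]
      rw [h4] at this
      simp at this
    · rw [map_pow] at h4
      exact pow_ne_zero 2 (evalU_vdl_ne_zero lam' hlam' (List.nodup_finRange _)) h4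

end Pool.Agent.H48.Witt
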