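import Pool.Agent.H48.Witt.Defs

/-!
# Reordering and windows

Multiplying the smearing function by `(t_a - t_b)^2` makes the adjacent factors `a`, `b` commute.
-/

set_option autoImplicit false

namespace Pool.Agent.H48.Witt

open Finset

variable {k : Type*} [Field k] {A : Type*} [Ring A] [Algebra k A]

lemma fprod_congr {ι : Type*} (e : ℤ → A) {ℓ : List ι} {μ ν : ι → ℤ} (h : ∀ i ∈ ℓ, μ i = ν i) :
    fprod e ℓ μ = fprod e ℓ ν := by
  unfold fprod
  congr 1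
  apply List.map_congr_left
  intro i hi
  rw [h i hi]

variable {ι : Type*} [DecidableEq ι]

lemma tt_sq_mul_mon (a : ι) (ν : ι → ℤ) :
    tt k a ^ 2 * mon ν = mon (Pi.single a 2 + ν) := by
  rw [tt, pow_two, mon_mul_mon, mon_mul_mon, ← Pi.single_add]
  norm_num

lemma tt_mul_tt_mul_mon (a b : ι) (ν : ι → ℤ) :
    tt k a * tt k b * mon ν = mon (Pi.single a 1 + Pi.single b 1 + ν) := by
  rw [tt, tt, mon_mul_mon, mon_mul_mon]

lemma lin_dd_sq_mon {V : Type*} [AddCommGroup V] [Module k V] (f : (ι → ℤ) → V) (a b : ι)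
    (ν : ι → ℤ) :
    lin f (dd k a b ^ 2 * mon ν) = f (Pi.single a 2 + ν)
      - (2 : k) • f (Pi.single a 1 + Pi.single b 1 + ν) + f (Pi.single b 2 + ν) := by
  have : dd k a b ^ 2 * mon ν = tt k a ^ 2 * mon ν - (2 : k) • (tt k a * tt k b * mon ν)
      + tt k b ^ 2 * mon ν := by
    rw [dd, ← algebraMap_smul (LP k (ι → ℤ)) (2 : k), smul_eq_mul, map_ofNat]
    ring
  rw [this, tt_sq_mul_mon, tt_sq_mul_mon, tt_mul_tt_mul_mon]
  simp

omit [DecidableEq ι] in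
/-- The difference of the two orders. -/
lemma fprod_swap (e : ℤ → A) (he : WittRel k e) (ℓ₁ ℓ₂ : List ι) (a b : ι) (μ : ι → ℤ) :
    fprod e (ℓ₁ ++ a :: b :: ℓ₂) μ = fprod e (ℓ₁ ++ b :: a :: ℓ₂) μ +
      ((μ b - μ a : ℤ) : k) • (fprod e ℓ₁ μ * (e (μ a + μ b) * fprod e ℓ₂ μ)) := by
  have h := he (μ a) (μ b)
  rw [sub_eq_iff_eq_add] at h
  simp only [fprod_append, fprod_cons]
  rw [← mul_assoc (e (μ a)), h, add_mul, mul_add, smul_mul_assoc, mul_smul_comm, mul_assoc (e (μ b))]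
  rw [add_comm]

lemma kill_swap (e : ℤ → A) (he : WittRel k e) (N : Submodule k A) {ℓ₁ ℓ₂ : List ι} {a b : ι}
    (hab : a ≠ b) (ha₁ : a ∉ ℓ₁) (ha₂ : a ∉ ℓ₂) (hb₁ : b ∉ ℓ₁) (hb₂ : b ∉ ℓ₂)
    {G : LP k (ι → ℤ)} (hG : G ∈ kill (fprod e (ℓ₁ ++ b :: a :: ℓ₂)) N) :
    dd k a b ^ 2 * G ∈ kill (fprod e (ℓ₁ ++ a :: b :: ℓ₂)) N := by
  have key : ∀ x, lin (fprod e (ℓ₁ ++ a :: b :: ℓ₂)) (dd k a b ^ 2 * x) =
      lin (fprod e (ℓ₁ ++ b :: a :: ℓ₂)) (dd k a b ^ 2 * x) := by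
    intro x
    induction x using LP_induction with
    | h0 => simp
    | hadd x y hx hy => simp only [mul_add, map_add, hx, hy]
    | hmon ν c =>
      rw [mul_smul_comm, map_smul, map_smul]
      congr 1
      have hf : (fprod e (ℓ₁ ++ a :: b :: ℓ₂)) = fun μ => fprod e (ℓ₁ ++ b :: a :: ℓ₂) μ +
        ((μ b - μ a : ℤ) : k) • (fprod e ℓ₁ μ * (e (μ a + μ b) * fprod e ℓ₂ μ)) := by
        funext μ; exact fprod_swap e he ℓ₁ ℓ₂ a b μ
      rw [hf, lin_add]
      rw [add_eq_left, lin_dd_sq_mon]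
      have e1 : ∀ (ρ : ι → ℤ), (∀ i, i ≠ a → i ≠ b → ρ i = 0) →
          fprod e ℓ₁ (ρ + ν) = fprod e ℓ₁ ν ∧ fprod e ℓ₂ (ρ + ν) = fprod e ℓ₂ ν := by
        intro ρ hρ
        constructor
        · apply fprod_congr
          intro i hi
          have h1 : i ≠ a := fun h => ha₁ (h ▸ hi)
          have h2 : i ≠ b := fun h => hb₁ (h ▸ hi)
          simp [hρ i h1 h2]
        · apply fprod_congr
          intro i hi
          have h1 : i ≠ a := fun h => ha₂ (h ▸ hi)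
          have h2 : i ≠ b := fun h => hb₂ (h ▸ hi)
          simp [hρ i h1 h2]
      obtain ⟨p1, p2⟩ := e1 (Pi.single a 2) (by intro i h1 h2; simp [h1])
      obtain ⟨q1, q2⟩ := e1 (Pi.single b 2) (by intro i h1 h2; simp [h2])
      obtain ⟨r1, r2⟩ := e1 (Pi.single a 1 + Pi.single b 1)
        (by intro i h1 h2; simp [h1, h2])
      rw [p1, p2, q1, q2, r1, r2]
      simp only [Pi.add_apply, Pi.single_apply, hab, hab.symm, if_true, if_false]
      have s1 : (2 + ν a + (0 + ν b)) = ν a + ν b + 2 := by ring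
      have s2 : (1 + 0 + ν a + (0 + 1 + ν b)) = ν a + ν b + 2 := by ring
      have s3 : (0 + ν a + (2 + ν b)) = ν a + ν b + 2 := by ring
      rw [s1, s2, s3, smul_smul, ← sub_smul, ← add_smul]
      convert zero_smul k _
      push_cast
      ring
  intro x
  rw [mul_assoc, key, show dd k a b ^ 2 * (G * x) = G * (dd k a b ^ 2 * x) by ring]
  exact hG _

/-- moving `a` to the right across `ℓ`. -/
lemma kill_move (e : ℤ → A) (he : WittRel k e) (N : Submodule k A) {a : ι} (ℓ : List ι) :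
    ∀ {ℓ₁ ℓ₂ : List ι}, (ℓ₁ ++ a :: ℓ ++ ℓ₂).Nodup → ∀ {G : LP k (ι → ℤ)},
    G ∈ kill (fprod e (ℓ₁ ++ ℓ ++ a :: ℓ₂)) N →
    (ℓ.map (fun b => dd k a b ^ 2)).prod * G ∈ kill (fprod e (ℓ₁ ++ a :: ℓ ++ ℓ₂)) N := by
  induction ℓ with
  | nil => intro ℓ₁ ℓ₂ _ G hG; simpa using hG
  | cons b ℓ ih =>
    intro ℓ₁ ℓ₂ hn G hG
    have hn' : ((ℓ₁ ++ [b]) ++ a :: ℓ ++ ℓ₂).Nodup := by
      refine (List.Perm.nodup_iff ?_).mp hn
      simp only [List.append_assoc, List.cons_append, List.nil_append]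
      exact List.Perm.append_left _ (List.Perm.swap _ _ _)
    have h1 := ih (ℓ₁ := ℓ₁ ++ [b]) (ℓ₂ := ℓ₂) hn' (G := G) (by simpa using hG)
    rw [List.map_cons, List.prod_cons, mul_assoc]
    have hn2 : (ℓ₁ ++ a :: b :: (ℓ ++ ℓ₂)).Nodup := by simpa using hn
    have := kill_swap (k := k) e he N (ℓ₁ := ℓ₁) (ℓ₂ := ℓ ++ ℓ₂) (a := a) (b := b)
      ?_ ?_ ?_ ?_ ?_ (G := (ℓ.map (fun b => dd k a b ^ 2)).prod * G) (by simpa using h1)
    · simpa using this
    all_goals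
      simp only [List.nodup_append, List.nodup_cons, List.mem_cons, List.mem_append] at hn2
      grind

/-- exchanging two blocks. -/
lemma kill_block (e : ℤ → A) (he : WittRel k e) (N : Submodule k A) (m ℓ : List ι) :
    ∀ {ℓ₁ ℓ₂ : List ι}, (ℓ₁ ++ m ++ ℓ ++ ℓ₂).Nodup → ∀ {G : LP k (ι → ℤ)},
    G ∈ kill (fprod e (ℓ₁ ++ ℓ ++ m ++ ℓ₂)) N →
    (m.map (fun a => (ℓ.map (fun b => dd k a b ^ 2)).prod)).prod * G ∈
      kill (fprod e (ℓ₁ ++ m ++ ℓ ++ ℓ₂)) N := by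
  induction m with
  | nil => intro ℓ₁ ℓ₂ _ G hG; simpa using hG
  | cons a m ih =>
    intro ℓ₁ ℓ₂ hn G hG
    -- first move `a` left, then the rest
    have hn1 : (ℓ₁ ++ a :: ℓ ++ (m ++ ℓ₂)).Nodup := by
      refine (List.Perm.nodup_iff ?_).mp hn
      simp only [List.append_assoc, List.cons_append]
      refine List.Perm.append_left _ (List.Perm.cons _ ?_)
      rw [← List.append_assoc, ← List.append_assoc]
      exact List.Perm.append_right _ List.perm_append_comm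
    have h1 := kill_move (k := k) e he N (a := a) ℓ (ℓ₁ := ℓ₁) (ℓ₂ := m ++ ℓ₂) hn1 (G := G)
      (by simpa using hG)
    have hn2 : ((ℓ₁ ++ [a]) ++ m ++ ℓ ++ ℓ₂).Nodup := by simpa using hn
    have h2 := ih (ℓ₁ := ℓ₁ ++ [a]) (ℓ₂ := ℓ₂) hn2 (G := (ℓ.map (fun b => dd k a b ^ 2)).prod * G)
      (by simpa using h1)
    rw [List.map_cons, List.prod_cons]
    have h3 : (ℓ.map (fun b => dd k a b ^ 2)).prod *
        (m.map (fun a => (ℓ.map (fun b => dd k a b ^ 2)).prod)).prod * G =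
        (m.map (fun a => (ℓ.map (fun b => dd k a b ^ 2)).prod)).prod *
        ((ℓ.map (fun b => dd k a b ^ 2)).prod * G) := by ring
    rw [h3]
    simpa using h2

/-- sorting by a predicate. -/
lemma kill_filter (e : ℤ → A) (he : WittRel k e) (N : Submodule k A) (p : ι → Bool) (ℓ : List ι) :
    ∀ {ℓ₁ ℓ₂ : List ι}, (ℓ₁ ++ ℓ ++ ℓ₂).Nodup → ∀ {G : LP k (ι → ℤ)},
    G ∈ kill (fprod e (ℓ₁ ++ ℓ.filter (fun x => !p x) ++ ℓ.filter p ++ ℓ₂)) N →
    ((ℓ.filter p).map (fun a => ((ℓ.filter (fun x => !p x)).map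
      (fun b => dd k a b ^ 2)).prod)).prod * G ∈ kill (fprod e (ℓ₁ ++ ℓ ++ ℓ₂)) N := by
  induction ℓ with
  | nil => intro ℓ₁ ℓ₂ _ G hG; simpa using hG
  | cons c ℓ ih =>
    intro ℓ₁ ℓ₂ hn G hG
    have hn' : ((ℓ₁ ++ [c]) ++ ℓ ++ ℓ₂).Nodup := by simpa using hn
    cases hp : p c with
    | false =>
      have f1 : (c :: ℓ).filter p = ℓ.filter p := by simp [hp]
      have f2 : (c :: ℓ).filter (fun x => !p x) = c :: ℓ.filter (fun x => !p x) := by simp [hp]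
      rw [f1, f2] at hG ⊢
      have h := ih (ℓ₁ := ℓ₁ ++ [c]) (ℓ₂ := ℓ₂) hn' (G := G) (by simpa using hG)
      simp only [List.map_cons, List.prod_cons]
      rw [List.prod_map_mul, mul_assoc]
      apply Ideal.mul_mem_left
      simpa using h
    | true =>
      have f1 : (c :: ℓ).filter p = c :: ℓ.filter p := by simp [hp]
      have f2 : (c :: ℓ).filter (fun x => !p x) = ℓ.filter (fun x => !p x) := by simp [hp]
      rw [f1, f2] at hG ⊢
      have hn1 : (ℓ₁ ++ c :: (ℓ.filter (fun x => !p x)) ++ (ℓ.filter p ++ ℓ₂)).Nodup := by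
        refine (List.Perm.nodup_iff ?_).mp hn
        simp only [List.append_assoc, List.cons_append]
        refine List.Perm.append_left _ (List.Perm.cons _ ?_)
        rw [← List.append_assoc]
        refine List.Perm.append_right _ ?_
        exact (List.perm_append_comm.trans (List.filter_append_perm p ℓ)).symm
      have h1 := kill_move (k := k) e he N (a := c) (ℓ.filter (fun x => !p x)) (ℓ₁ := ℓ₁)
        (ℓ₂ := ℓ.filter p ++ ℓ₂) hn1 (G := G) (by simpa using hG)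
      have h2 := ih (ℓ₁ := ℓ₁ ++ [c]) (ℓ₂ := ℓ₂) hn' (by simpa using h1)
      simp only [List.map_cons, List.prod_cons]
      rw [mul_comm (List.prod _) (List.prod _), mul_assoc]
      simpa using h2

end Pool.Agent.H48.Witt
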