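import Pool.Agent.H48.Witt.Cluster
import Pool.Agent.H48.Witt.Adj

/-!
# From a relation for a prime ideal to the relation with the square of the Vandermonde
-/

set_option autoImplicit false

namespace Pool.Agent.H48.Witt

open Finset

variable {k : Type*} [Field k] {A : Type*} [Ring A] [Algebra k A]

section Cluster

variable {ι : Type*} [DecidableEq ι]

lemma adj_case (e : ℤ → A) (he : WittRel k e) {N : Submodule k A} (hN : IsTS N) {r M : ℕ}
    (hR : Rel e N (r + 1) M) (hM : 2 ≤ M) {S T : List ι} (hn : (S ++ T).Nodup) (p : ι → Bool)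
    {T₁ T₂ : List ι} {c : ι} (hT : T = T₁ ++ c :: T₂) (hr : T.length = r)
    {C₁ C₂ : List ι} {x y : ι} (hC : S.filter p = C₁ ++ x :: y :: C₂) :
    ((S.filter p).map (fun a => ((S.filter (fun x => !p x)).map
      (fun b => dd k a b ^ 2)).prod)).prod * (dd k x y ^ M *
      (((S.filter p).map (fun z => ((T₁ ++ T₂).map (fun b => dd k z b ^ M)).prod)).prod *
      vdl k T ^ M)) ∈ kill (fprod e (S ++ T)) N := by
  -- the permutations of lists involved
  have hperm0 : (S.filter (fun x => !p x) ++ S.filter p).Perm S :=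
    List.perm_append_comm.trans (List.filter_append_perm p S)
  have hn0 : ((S.filter (fun x => !p x)) ++ (C₁ ++ x :: y :: C₂) ++ (T₁ ++ c :: T₂)).Nodup := by
    rw [← hC, ← hT]
    exact (List.Perm.nodup_iff (List.Perm.append_right T hperm0)).mpr hn
  set Cc := S.filter (fun x => !p x) with hCc
  -- window
  have hn1 : ((Cc ++ C₁ ++ (x :: y :: (T₁ ++ T₂))) ++ (C₂ ++ [c])).Nodup := by
    refine (List.Perm.nodup_iff ?_).mpr hn0
    simp only [List.append_assoc]
    refine List.Perm.append_left _ (List.Perm.append_left _ ?_)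
    simp only [List.cons_append]
    refine List.Perm.cons _ (List.Perm.cons _ ?_)
    rw [List.append_assoc]
    -- T₁ ++ (T₂ ++ (C₂ ++ [c])) ~ C₂ ++ (T₁ ++ c :: T₂)
    have h1 : (T₁ ++ (T₂ ++ (C₂ ++ [c]))).Perm ((C₂ ++ [c]) ++ (T₁ ++ T₂)) := by
      rw [← List.append_assoc]
      exact List.perm_append_comm
    refine h1.trans ?_
    rw [List.append_assoc]
    refine List.Perm.append_left _ ?_
    simp only [List.singleton_append]
    exact List.perm_middle.symm
  have K0 := window e hN hR hn1 (by
    rw [← hr, hT]; simp only [List.length_cons, List.length_append]; omega)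
  -- move the block T₁ ++ T₂ to the right of C₂
  have hn2 : ((Cc ++ C₁ ++ [x, y]) ++ C₂ ++ (T₁ ++ T₂) ++ [c]).Nodup := by
    refine (List.Perm.nodup_iff ?_).mp hn1
    simp only [List.append_assoc, List.cons_append, List.nil_append]
    refine List.Perm.append_left _ (List.Perm.append_left _ (List.Perm.cons _ (List.Perm.cons _ ?_)))
    rw [← List.append_assoc, ← List.append_assoc, ← List.append_assoc, ← List.append_assoc]
    refine List.Perm.append_right _ ?_
    refine List.perm_append_comm.trans ?_
    rw [List.append_assoc]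
  have K1 := kill_block (k := k) e he N C₂ (T₁ ++ T₂) (ℓ₁ := Cc ++ C₁ ++ [x, y]) (ℓ₂ := [c]) hn2
    (G := vdl k (x :: y :: (T₁ ++ T₂)) ^ M) (by simpa using K0)
  -- move c
  have hn3 : ((Cc ++ (C₁ ++ x :: y :: C₂) ++ T₁) ++ c :: T₂ ++ []).Nodup := by
    simpa using hn0
  have K2 := kill_move (k := k) e he N (a := c) T₂ (ℓ₁ := Cc ++ (C₁ ++ x :: y :: C₂) ++ T₁)
    (ℓ₂ := []) hn3 (by
      simpa only [List.append_assoc, List.cons_append, List.nil_append, List.append_nil] using K1)
  -- sort
  have hn4 : ([] ++ S ++ T).Nodup := by simpa using hn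
  have K3 := kill_filter (k := k) e he N p S (ℓ₁ := []) (ℓ₂ := T) hn4
    (by
      rw [hC, hT]
      simpa only [List.append_assoc, List.cons_append, List.nil_append, List.append_nil] using K2)
  rw [List.nil_append] at K3
  refine Ideal.mem_of_dvd _ ?_ K3
  rw [← hCc]
  refine mul_dvd_mul_left _ ?_
  -- divisibility
  have d1 : (T₂.map (fun b => dd k c b ^ 2)).prod * vdl k (T₁ ++ T₂) ^ M ∣ vdl k T ^ M := by
    rw [hT, vdl_insert, mul_pow, mul_pow, list_prod_map_pow, mul_comm]
    refine mul_dvd_mul_left _ ?_
    exact dvd_mul_of_dvd_right (pow_dvd_pow _ hM) _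
  have d2 : (C₂.map (fun a => ((T₁ ++ T₂).map (fun b => dd k a b ^ 2)).prod)).prod ∣
      (C₂.map (fun a => ((T₁ ++ T₂).map (fun b => dd k a b ^ M)).prod)).prod := by
    induction C₂ with
    | nil => simp
    | cons z C₂ _ =>
      clear * - hM
      generalize (z :: C₂) = L
      induction L with
      | nil => simp
      | cons z L ih =>
        simp only [List.map_cons, List.prod_cons]
        refine mul_dvd_mul ?_ ih
        rw [list_prod_map_pow, list_prod_map_pow]
        exact pow_dvd_pow _ hM
  have e1 : vdl k (x :: y :: (T₁ ++ T₂)) = dd k x y * (((T₁ ++ T₂).map (fun b => dd k x b)).prod *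
      (((T₁ ++ T₂).map (fun b => dd k y b)).prod * vdl k (T₁ ++ T₂))) := by
    simp only [vdl, List.map_cons, List.prod_cons]; ring
  have e2 : ((C₁ ++ x :: y :: C₂).map (fun z => ((T₁ ++ T₂).map (fun b => dd k z b ^ M)).prod)).prod
      = (C₁.map (fun z => ((T₁ ++ T₂).map (fun b => dd k z b ^ M)).prod)).prod *
        (((T₁ ++ T₂).map (fun b => dd k x b)).prod ^ M *
        (((T₁ ++ T₂).map (fun b => dd k y b)).prod ^ M *
        (C₂.map (fun z => ((T₁ ++ T₂).map (fun b => dd k z b ^ M)).prod)).prod)) := by
    rw [List.map_append, List.prod_append, List.map_cons, List.map_cons, List.prod_cons,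
      List.prod_cons, list_prod_map_pow, list_prod_map_pow]
  rw [hC, e1, e2]
  obtain ⟨q1, hq1⟩ := d1
  obtain ⟨q2, hq2⟩ := d2
  rw [hq1, hq2]
  generalize (C₁.map (fun z => ((T₁ ++ T₂).map (fun b => dd k z b ^ M)).prod)).prod = P1
  generalize ((T₁ ++ T₂).map (fun b => dd k x b)).prod = P2
  generalize ((T₁ ++ T₂).map (fun b => dd k y b)).prod = P3
  generalize (C₂.map (fun a => ((T₁ ++ T₂).map (fun b => dd k a b ^ 2)).prod)).prod = P4
  generalize (T₂.map (fun b => dd k c b ^ 2)).prod = P5
  exact ⟨P1 * q1 * q2, by ring⟩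

lemma cluster_main (e : ℤ → A) (he : WittRel k e) {N : Submodule k A} (hN : IsTS N) {r M : ℕ}
    (hr0 : 1 ≤ r) (hR : Rel e N (r + 1) M) (hM : 2 ≤ M) {S T : List ι} (hn : (S ++ T).Nodup)
    (hr : T.length = r) (hS : r * M < S.length) :
    ∃ K, vdl k S ^ 2 * vdl k T ^ K ∈ kill (fprod e (S ++ T)) N := by
  have hnS : S.Nodup := (List.nodup_append.mp hn).1
  have hnT : T.Nodup := (List.nodup_append.mp hn).2.1
  have hT0 : T ≠ [] := by
    rintro rfl
    simp at hr
    omega
  let g : ι → ι → LP k (ι → ℤ) := fun c s => ((T.filter (fun b => b ≠ c)).map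
    (fun b => dd k s b ^ M)).prod
  have hfil : ∀ {T₁ c T₂}, T = T₁ ++ c :: T₂ → T.filter (fun b => b ≠ c) = T₁ ++ T₂ := by
    intro T₁ c T₂ h
    subst h
    have h1 : c ∉ T₁ := by
      intro hc
      exact (List.nodup_append.mp hnT).2.2 _ hc _ List.mem_cons_self rfl
    have h2 : c ∉ T₂ := (List.nodup_cons.mp (List.nodup_append.mp hnT).2.1).1
    rw [List.filter_append, List.filter_cons_of_neg (by simp)]
    congr 1
    · rw [List.filter_eq_self]
      intro b hb
      simp only [ne_eq, decide_not, Bool.not_eq_eq_eq_not, Bool.not_true, decide_eq_false_iff_not]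
      rintro rfl; exact h1 hb
    · rw [List.filter_eq_self]
      intro b hb
      simp only [ne_eq, decide_not, Bool.not_eq_eq_eq_not, Bool.not_true, decide_eq_false_iff_not]
      rintro rfl; exact h2 hb
  have hZ : ∀ s ∈ S, vdl k T ^ (2 * M) ∈ Ideal.span {x | ∃ c ∈ T, x = g c s} := by
    intro s _
    apply tour s M T hT0
    intro l₁ c l₂ h
    apply Ideal.subset_span
    refine ⟨c, by rw [h]; simp, ?_⟩
    simp only [g]
    rw [hfil h]
  refine ⟨2 * M * S.length + M, ?_⟩
  have hmain := multi (kill (fprod e (S ++ T)) N) (vdl k T ^ (2 * M)) g T S hnS hZ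
    (vdl k S ^ 2 * vdl k T ^ M) ?_
  · rw [← pow_mul] at hmain
    have : vdl k S ^ 2 * vdl k T ^ (2 * M * S.length + M) =
      vdl k T ^ (2 * M * S.length) * (vdl k S ^ 2 * vdl k T ^ M) := by rw [pow_add]; ring
    rw [this]
    exact hmain
  intro a ha
  -- pigeonhole
  obtain ⟨c, hc, hcard⟩ := Finset.exists_lt_card_fiber_of_mul_lt_card_of_maps_to
    (s := S.toFinset) (t := T.toFinset) (f := a) (n := M)
    (by intro s hs; simpa using ha s (by simpa using hs))
    (by rw [List.toFinset_card_of_nodup hnS, List.toFinset_card_of_nodup hnT, hr]; exact hS)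
  have hcT : c ∈ T := by simpa using hc
  let p : ι → Bool := fun s => decide (a s = c)
  have hlen : M + 1 ≤ (S.filter p).length := by
    have : ({x ∈ S.toFinset | a x = c} : Finset ι) = (S.filter p).toFinset := by
      ext z; simp [p]
    rw [this, List.toFinset_card_of_nodup (hnS.filter _)] at hcard
    exact hcard
  obtain ⟨T₁, T₂, hTdec⟩ := List.append_of_mem hcT
  rw [vdl_filter p S]
  set X := ((S.filter p).map (fun a => ((S.filter (fun x => !p x)).map
      (fun b => dd k a b ^ 2)).prod)).prod with hX
  have hprod : ((S.filter p).map (fun z => ((T₁ ++ T₂).map (fun b => dd k z b ^ M)).prod)).prod ∣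
      (S.map (fun s => g (a s) s)).prod := by
    have hsplit : (S.map (fun s => g (a s) s)).prod =
        ((S.filter p).map (fun s => g (a s) s)).prod *
        ((S.filter (fun x => !p x)).map (fun s => g (a s) s)).prod := by
      rw [← List.prod_append, ← List.map_append]
      exact (List.Perm.map _ (List.filter_append_perm p S)).symm.prod_eq
    rw [hsplit]
    refine dvd_mul_of_dvd_left (dvd_of_eq ?_) _
    refine congrArg List.prod (List.map_congr_left ?_)
    intro z hz
    have : a z = c := by simpa [p] using (List.mem_filter.mp hz).2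
    simp only [g, this]
    rw [hfil hTdec]
  have hcl : vdl k (S.filter p) ^ 2 ∈ colonI (kill (fprod e (S ++ T)) N)
      (X * (((S.filter p).map (fun z => ((T₁ ++ T₂).map (fun b => dd k z b ^ M)).prod)).prod *
      vdl k T ^ M)) := by
    apply cluster_pow (M := M) (by omega) hlen
    intro l₁ x y l₂ hdec
    rw [mem_colonI]
    have := adj_case e he hN hR hM hn p hTdec hr hdec
    rw [← hX] at this
    convert this using 1
    ring
  rw [mem_colonI] at hcl
  refine Ideal.mem_of_dvd _ ?_ hcl
  obtain ⟨q, hq⟩ := hprod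
  rw [hq]
  exact ⟨q * vdl k (S.filter (fun x => !p x)) ^ 2, by ring⟩

end Cluster

lemma Rel.mono {e : ℤ → A} {N : Submodule k A} {d M M' : ℕ} (h : Rel e N d M) (hM : M ≤ M') :
    Rel e N d M' := by
  unfold Rel at *
  obtain ⟨c, rfl⟩ := Nat.exists_eq_add_of_le hM
  rw [pow_add]
  exact Ideal.mul_mem_right _ _ h

lemma two_blocks (e : ℤ → A) (m r : ℕ) (G₁ : LP k (Fin m → ℤ)) (G₂ : LP k (Fin r → ℤ)) :
    lin (fprod e ((List.finRange m).map Sum.inl ++ (List.finRange r).map Sum.inr))
      (renL k (Sum.inl : Fin m → Fin m ⊕ Fin r) G₁ * renL k (Sum.inr : Fin r → Fin m ⊕ Fin r) G₂) =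
    EE e (List.finRange m) G₁ * EE e (List.finRange r) G₂ := by
  induction G₁ using LP_induction with
  | h0 => simp
  | hadd x y hx hy => rw [map_add, add_mul, map_add, hx, hy, map_add, add_mul]
  | hmon μ c =>
    rw [renL_smul, smul_mul_assoc, map_smul, map_smul, smul_mul_assoc]
    congr 1
    induction G₂ using LP_induction with
    | h0 => simp
    | hadd x y hx hy => rw [map_add, mul_add, map_add, hx, hy, map_add, mul_add]
    | hmon ν d =>
      rw [renL_smul, mul_smul_comm, map_smul, map_smul, mul_smul_comm]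
      congr 1
      rw [renL_mon, renL_mon, mon_mul_mon, lin_mon, EE, EE, lin_mon, lin_mon, fprod_append]
      congr 1
      · unfold fprod
        rw [List.map_map]
        refine congrArg List.prod (List.map_congr_left ?_)
        intro i _
        simp only [Function.comp_apply, Pi.add_apply]
        rw [extZ_apply Sum.inl_injective, extZ_apply' _ (by simp), add_zero]
      · unfold fprod
        rw [List.map_map]
        refine congrArg List.prod (List.map_congr_left ?_)
        intro i _
        simp only [Function.comp_apply, Pi.add_apply]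
        rw [extZ_apply Sum.inr_injective, extZ_apply' _ (by simp), zero_add]

lemma annihilate_mul (e : ℤ → A) (he : WittRel k e)
    (hgen : Algebra.adjoin k (Set.range e) = ⊤) {N : Submodule k A} (hN : IsTS N) (r K : ℕ)
    (v : A) : ∀ x : A, (∀ H, x * EE e (List.finRange r) (vdm k r ^ K * H) ∈ N) →
      (∀ H, x * v * EE e (List.finRange r) (vdm k r ^ K * H) ∈ N) := by
  have hv : v ∈ Algebra.adjoin k (Set.range e) := by rw [hgen]; trivial
  induction hv using Algebra.adjoin_induction with
  | mem v hv =>
    obtain ⟨n, rfl⟩ := hv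
    intro x hx H
    obtain ⟨H', hH'⟩ := Dop_dvd (k := k) r K n (vdm k r ^ K * H) (dvd_mul_right _ _)
    have h1 := ad_EE e he r n (vdm k r ^ K * H)
    rw [sub_eq_iff_eq_add] at h1
    rw [mul_assoc, h1, mul_add, ← mul_assoc, hH']
    exact N.add_mem (hx H') (hN.right _ _ (hx H))
  | algebraMap c =>
    intro x hx H
    rw [Algebra.algebraMap_eq_smul_one, mul_smul_comm, mul_one, smul_mul_assoc]
    exact N.smul_mem _ (hx H)
  | add v w _ _ hv hw =>
    intro x hx H
    rw [mul_add, add_mul]
    exact N.add_mem (hv x hx H) (hw x hx H)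
  | mul v w _ _ hv hw =>
    intro x hx H
    rw [← mul_assoc]
    exact hw (x * v) (hv x hx) H

/-- If a prime ideal satisfies some relation then it satisfies a relation with the square of the
Vandermonde. -/
theorem prime_rel (e : ℤ → A) (he : WittRel k e) (hgen : Algebra.adjoin k (Set.range e) = ⊤)
    {N : Submodule k A} (hN : IsTS N) (h1 : (1 : A) ∉ N)
    (hprime : ∀ x y : A, (∀ v, x * v * y ∈ N) → x ∈ N ∨ y ∈ N)
    {d₀ M₀ : ℕ} (hR₀ : Rel e N d₀ M₀) : ∃ m, Rel e N (m + 1) 2 := by
  classical
  have hex : ∃ d, ∃ M, Rel e N d M := ⟨d₀, M₀, hR₀⟩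
  obtain ⟨M, hM⟩ := Nat.find_spec hex
  have hmin : ∀ d < Nat.find hex, ∀ M, ¬ Rel e N d M := by
    intro d hd M h
    exact Nat.find_min hex hd ⟨M, h⟩
  generalize Nat.find hex = d at hM hmin
  cases d with
  | zero =>
    exfalso
    apply h1
    have := hM 1
    have h2 : vdm k 0 = 1 := rfl
    rw [h2, one_pow, mul_one, ← mon_zero, lin_mon] at this
    simpa using this
  | succ r =>
    rcases Nat.eq_zero_or_pos r with rfl | hr
    · refine ⟨0, ?_⟩
      have h2 : vdm k 1 = 1 := by
        simp [vdm, vdl, List.finRange_succ]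
      unfold Rel at hM ⊢
      rw [h2, one_pow] at hM ⊢
      exact hM
    · -- the main case
      have hM2 : Rel e N (r + 1) (M + 2) := hM.mono (by omega)
      refine ⟨r * (M + 2), ?_⟩
      set m := r * (M + 2) + 1 with hm
      have hn : ((List.finRange m).map (Sum.inl : Fin m → Fin m ⊕ Fin r) ++
          (List.finRange r).map (Sum.inr : Fin r → Fin m ⊕ Fin r)).Nodup := by
        rw [List.nodup_append]
        refine ⟨(List.nodup_finRange m).map Sum.inl_injective,
          (List.nodup_finRange r).map Sum.inr_injective, ?_⟩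
        intro a ha b hb hab
        obtain ⟨i, _, rfl⟩ := List.mem_map.mp ha
        obtain ⟨j, _, rfl⟩ := List.mem_map.mp hb
        simp at hab
      obtain ⟨K, hK⟩ := cluster_main (k := k) e he hN hr hM2 (by omega) hn (by simp)
        (by simp [hm])
      -- an element of the second block outside `N`
      have hK2 := hmin r (by omega) K
      unfold Rel at hK2
      rw [mem_kill] at hK2
      push Not at hK2
      obtain ⟨H₂, hH₂⟩ := hK2
      intro H₁
      have hxy : ∀ H, EE e (List.finRange m) (vdm k m ^ 2 * H₁) *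
          EE e (List.finRange r) (vdm k r ^ K * H) ∈ N := by
        intro H
        rw [← two_blocks]
        have := hK (renL k Sum.inl H₁ * renL k Sum.inr H)
        convert this using 2
        rw [map_mul, map_mul, map_pow, map_pow, vdm, vdm, renL_vdl Sum.inl_injective,
          renL_vdl Sum.inr_injective]
        ring
      rcases hprime (EE e (List.finRange m) (vdm k m ^ 2 * H₁))
        (EE e (List.finRange r) (vdm k r ^ K * H₂))
        (fun v => annihilate_mul e he hgen hN r K v _ hxy H₂) with h | h
      · exact h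
      · exact absurd h hH₂

end Pool.Agent.H48.Witt
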