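import Pool.Agent.H48.Witt.Kill
import Pool.Agent.H48.Witt.Defs2

/-!
# Symmetrisation and the filtration
-/

set_option autoImplicit false

namespace Pool.Agent.H48.Witt

open Finset

variable {k : Type*} [Field k] {A : Type*} [Ring A] [Algebra k A]

/-! ### Permuting the variables -/

section Perm

variable {ι : Type*}

/-- Permutation of exponents as an additive map. -/
def permZ (σ : Equiv.Perm ι) : (ι → ℤ) →+ (ι → ℤ) where
  toFun := fun μ => μ ∘ σ
  map_zero' := rfl
  map_add' := fun _ _ => rfl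

/-- Permutation of the variables as a ring homomorphism. -/
noncomputable def permR (k : Type*) [Field k] (σ : Equiv.Perm ι) :
    LP k (ι → ℤ) →+* LP k (ι → ℤ) :=
  AddMonoidAlgebra.mapDomainRingHom k (permZ σ)

lemma permR_mon (σ : Equiv.Perm ι) (μ : ι → ℤ) : permR k σ (mon μ) = mon (μ ∘ σ) := by
  simp [permR, mon, permZ]

lemma permL_mon (σ : Equiv.Perm ι) (μ : ι → ℤ) : permL k σ (mon μ) = mon (μ ∘ σ) := by
  simp [permL]

lemma permR_smul (σ : Equiv.Perm ι) (c : k) (x : LP k (ι → ℤ)) :
    permR k σ (c • x) = c • permR k σ x := by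
  induction x using LP_induction with
  | h0 => simp
  | hadd x y hx hy => simp [hx, hy]
  | hmon g d =>
    rw [smul_smul]
    simp [permR, mon]

lemma permL_eq (σ : Equiv.Perm ι) (x : LP k (ι → ℤ)) : permL k σ x = permR k σ x := by
  induction x using LP_induction with
  | h0 => simp
  | hadd x y hx hy => simp [hx, hy]
  | hmon g d => rw [map_smul, permR_smul, permL_mon, permR_mon]

lemma permL_mul (σ : Equiv.Perm ι) (x y : LP k (ι → ℤ)) :
    permL k σ (x * y) = permL k σ x * permL k σ y := by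
  simp [permL_eq]

lemma permL_one (σ : Equiv.Perm ι) : permL k σ (1 : LP k (ι → ℤ)) = 1 := by
  simp [permL_eq]

lemma permL_pow (σ : Equiv.Perm ι) (x : LP k (ι → ℤ)) (n : ℕ) :
    permL k σ (x ^ n) = permL k σ x ^ n := by
  simp [permL_eq]

lemma permL_permL (σ τ : Equiv.Perm ι) (x : LP k (ι → ℤ)) :
    permL k σ (permL k τ x) = permL k (τ * σ) x := by
  induction x using LP_induction with
  | h0 => simp
  | hadd x y hx hy => simp only [map_add, hx, hy]
  | hmon g d =>
    rw [map_smul, map_smul, map_smul, permL_mon, permL_mon, permL_mon]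
    rfl

variable [DecidableEq ι]

lemma permL_tt (σ : Equiv.Perm ι) (a : ι) : permL k σ (tt k a) = tt k (σ.symm a) := by
  rw [tt, permL_mon, tt]
  congr 1
  funext i
  simp only [Function.comp_apply]
  by_cases h : i = σ.symm a
  · subst h; simp
  · rw [Pi.single_eq_of_ne h, Pi.single_eq_of_ne]
    rintro rfl
    simp at h

lemma permL_dd (σ : Equiv.Perm ι) (a b : ι) :
    permL k σ (dd k a b) = dd k (σ.symm a) (σ.symm b) := by
  rw [dd, map_sub, permL_tt, permL_tt, dd]

lemma permL_vdl (σ : Equiv.Perm ι) (ℓ : List ι) :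
    permL k σ (vdl k ℓ) = vdl k (ℓ.map σ.symm) := by
  induction ℓ with
  | nil => simp [vdl, permL_one]
  | cons a ℓ ih =>
    rw [vdl, permL_mul, ih, List.map_cons, vdl]
    congr 1
    rw [permL_eq, map_list_prod, List.map_map, List.map_map]
    refine congrArg List.prod (List.map_congr_left ?_)
    intro b _
    simp only [Function.comp_apply]
    rw [← permL_eq, permL_dd]

/-- the square of the Vandermonde product does not depend on the order of the list. -/
lemma vdl_sq_perm {ℓ ℓ' : List ι} (h : ℓ.Perm ℓ') : vdl k ℓ ^ 2 = vdl k ℓ' ^ 2 := by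
  induction h with
  | nil => rfl
  | cons x hp ih =>
    rw [vdl, vdl, mul_pow, mul_pow, ih, (hp.map (fun b => dd k x b)).prod_eq]
  | swap x y l =>
    simp only [vdl, List.map_cons, List.prod_cons]
    have := dd_sq_swap (k := k) x y
    linear_combination (-((l.map (fun b => dd k y b)).prod * ((l.map (fun b => dd k x b)).prod *
      vdl k l)) ^ 2) * this
  | trans _ _ h1 h2 => rw [h1, h2]

lemma dd_sq_dvd_vdl {ℓ : List ι} {a b : ι} (ha : a ∈ ℓ) (hb : b ∈ ℓ) (hab : a ≠ b) :
    dd k a b ^ 2 ∣ vdl k ℓ ^ 2 := by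
  obtain ⟨l₁, l₂, h⟩ := List.append_of_mem ha
  have hb' : b ∈ l₁ ++ l₂ := by
    rw [h] at hb
    simp only [List.mem_append, List.mem_cons] at hb ⊢
    rcases hb with hb | hb | hb
    · exact Or.inl hb
    · exact absurd hb.symm hab
    · exact Or.inr hb
  have hp : ℓ.Perm (a :: (l₁ ++ l₂)) := by
    rw [h]; exact List.perm_middle
  rw [vdl_sq_perm hp, vdl, mul_pow]
  refine dvd_mul_of_dvd_left (pow_dvd_pow_of_dvd ?_ 2) _
  exact List.dvd_prod (List.mem_map_of_mem hb')

end Perm

section Fin

lemma permL_vdm_sq {l : ℕ} (σ : Equiv.Perm (Fin l)) :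
    permL k σ (vdm k l ^ 2) = vdm k l ^ 2 := by
  rw [permL_pow, vdm, permL_vdl]
  apply vdl_sq_perm
  rw [List.perm_ext_iff_of_nodup ((List.nodup_finRange l).map (Equiv.injective _))
    (List.nodup_finRange l)]
  intro a
  simp only [List.mem_finRange, iff_true, List.mem_map, true_and]
  exact ⟨σ a, by simp⟩

lemma permL_vdm_even {l : ℕ} (σ : Equiv.Perm (Fin l)) (K : ℕ) :
    permL k σ (vdm k l ^ (2 * K)) = vdm k l ^ (2 * K) := by
  rw [pow_mul, permL_pow, permL_vdm_sq]

lemma symL_apply {l : ℕ} (x : LP k (Fin l → ℤ)) :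
    symL k x = ∑ σ : Equiv.Perm (Fin l), permL k σ x := by
  simp [symL, LinearMap.sum_apply]

lemma permL_symL {l : ℕ} (σ : Equiv.Perm (Fin l)) (x : LP k (Fin l → ℤ)) :
    permL k σ (symL k x) = symL k x := by
  rw [symL_apply, map_sum]
  simp only [permL_permL]
  exact Equiv.sum_comp (Equiv.mulRight σ) (fun τ => permL k τ x)

lemma symL_mul_of_inv {l : ℕ} {y : LP k (Fin l → ℤ)} (hy : ∀ σ, permL k σ y = y)
    (x : LP k (Fin l → ℤ)) : symL k (y * x) = y * symL k x := by
  rw [symL_apply, symL_apply, Finset.mul_sum]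
  refine Finset.sum_congr rfl fun σ _ => ?_
  rw [permL_mul, hy]

end Fin

/-! ### Reordering the factors -/

section Reorder

variable {ι : Type*} [DecidableEq ι]

lemma lin_swap_of_dvd (e : ℤ → A) (he : WittRel k e) {ℓ₁ ℓ₂ : List ι} {a b : ι}
    (hab : a ≠ b) (ha₁ : a ∉ ℓ₁) (ha₂ : a ∉ ℓ₂) (hb₁ : b ∉ ℓ₁) (hb₂ : b ∉ ℓ₂)
    {G : LP k (ι → ℤ)} (hG : dd k a b ^ 2 ∣ G) :
    lin (fprod e (ℓ₁ ++ a :: b :: ℓ₂)) G = lin (fprod e (ℓ₁ ++ b :: a :: ℓ₂)) G := by
  obtain ⟨x, rfl⟩ := hG
  -- apply `kill_swap` to the difference: use the graph of the map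
  induction x using LP_induction with
  | h0 => simp
  | hadd x y hx hy => simp only [mul_add, map_add, hx, hy]
  | hmon ν c =>
    rw [mul_smul_comm, map_smul, map_smul]
    congr 1
    have hf : (fprod e (ℓ₁ ++ a :: b :: ℓ₂)) = fun μ => fprod e (ℓ₁ ++ b :: a :: ℓ₂) μ +
      ((μ b - μ a : ℤ) : k) • (fprod e ℓ₁ μ * (e (μ a + μ b) * fprod e ℓ₂ μ)) := by
      funext μ; exact fprod_swap e he ℓ₁ ℓ₂ a b μ
    rw [hf, lin_add]
    rw [add_eq_left, lin_dd_sq_mon]
    have e1 : ∀ (ρ : ι → ℤ), (∀ i, i ≠ a → i ≠ b → ρ i = 0) →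
        fprod e ℓ₁ (ρ + ν) = fprod e ℓ₁ ν ∧ fprod e ℓ₂ (ρ + ν) = fprod e ℓ₂ ν := by
      intro ρ hρ
      constructor
      · apply fprod_congr
        intro i hi
        have h1 : i ≠ a := fun h => ha₁ (h ▸ hi)
        have h2 : i ≠ b := fun h => hb₁ (h ▸ hi)
        simp [hρ i h1 h2]
      · apply fprod_congr
        intro i hi
        have h1 : i ≠ a := fun h => ha₂ (h ▸ hi)
        have h2 : i ≠ b := fun h => hb₂ (h ▸ hi)
        simp [hρ i h1 h2]
    obtain ⟨p1, p2⟩ := e1 (Pi.single a 2) (by intro i h1 h2; simp [h1])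
    obtain ⟨q1, q2⟩ := e1 (Pi.single b 2) (by intro i h1 h2; simp [h2])
    obtain ⟨r1, r2⟩ := e1 (Pi.single a 1 + Pi.single b 1)
      (by intro i h1 h2; simp [h1, h2])
    rw [p1, p2, q1, q2, r1, r2]
    simp only [Pi.add_apply, Pi.single_apply, hab, hab.symm, if_true, if_false]
    have s1 : (2 + ν a + (0 + ν b)) = ν a + ν b + 2 := by ring
    have s2 : (1 + 0 + ν a + (0 + 1 + ν b)) = ν a + ν b + 2 := by ring
    have s3 : (0 + ν a + (2 + ν b)) = ν a + ν b + 2 := by ring
    rw [s1, s2, s3, smul_smul, ← sub_smul, ← add_smul]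
    convert zero_smul k _
    push_cast
    ring

/-- For functions divisible by all `(t_a - t_b)^2` the order of the factors is irrelevant. -/
lemma lin_perm_of_dvd (e : ℤ → A) (he : WittRel k e) {ℓ ℓ' : List ι} (h : ℓ.Perm ℓ') :
    ∀ (p : List ι) (_ : (p ++ ℓ).Nodup) (G : LP k (ι → ℤ))
      (_ : ∀ a ∈ ℓ, ∀ b ∈ ℓ, a ≠ b → dd k a b ^ 2 ∣ G),
      lin (fprod e (p ++ ℓ)) G = lin (fprod e (p ++ ℓ')) G := by
  induction h with
  | nil => intro p _ G _; rfl
  | cons x _ ih =>
    intro p hn G hG
    have := ih (p ++ [x]) (by simpa using hn) G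
      (fun a ha b hb => hG a (List.mem_cons_of_mem _ ha) b (List.mem_cons_of_mem _ hb))
    simpa using this
  | swap x y l =>
    intro p hn G hG
    have hn' := hn
    simp only [List.nodup_append, List.nodup_cons, List.mem_cons] at hn'
    apply lin_swap_of_dvd e he
    · grind
    · grind
    · grind
    · grind
    · grind
    · exact hG _ (by simp) _ (by simp) (by grind)
  | trans h1 _ ih1 ih2 =>
    intro p hn G hG
    rw [ih1 p hn G hG]
    apply ih2 p
    · exact (List.Perm.nodup_iff (List.Perm.append_left p h1)).mp hn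
    · intro a ha b hb
      exact hG a (h1.mem_iff.mpr ha) b (h1.mem_iff.mpr hb)

omit [DecidableEq ι] in
lemma fprod_mem_filLT (e : ℤ → A) (ℓ : List ι) (μ : ι → ℤ) {l : ℕ} (h : ℓ.length < l) :
    fprod e ℓ μ ∈ filLT k e l := by
  apply Submodule.subset_span
  refine ⟨ℓ.map μ, by simpa using h, ?_⟩
  rw [fprod, List.map_map]; rfl

omit [DecidableEq ι] in
lemma fprod_perm_mem_filLT (e : ℤ → A) (he : WittRel k e) {ℓ ℓ' : List ι} (h : ℓ.Perm ℓ') :
    ∀ (p : List ι) (μ : ι → ℤ),
      fprod e (p ++ ℓ) μ - fprod e (p ++ ℓ') μ ∈ filLT k e (p.length + ℓ.length) := by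
  induction h with
  | nil => intro p μ; simp
  | cons x _ ih =>
    intro p μ
    have := ih (p ++ [x]) μ
    simp only [List.append_assoc, List.cons_append, List.nil_append, List.length_append,
      List.length_cons, List.length_nil] at this ⊢
    convert this using 2
    ring
  | swap x y l =>
    intro p μ
    rw [fprod_swap e he, add_sub_cancel_left]
    apply Submodule.smul_mem
    apply Submodule.subset_span
    refine ⟨p.map μ ++ (μ y + μ x) :: l.map μ, ?_, ?_⟩
    · simp
    · simp [fprod, Function.comp_def]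
  | trans h1 _ ih1 ih2 =>
    intro p μ
    have e1 := ih1 p μ
    have e2 := ih2 p μ
    rw [← h1.length_eq] at e2
    have := Submodule.add_mem _ e1 e2
    simpa using this

omit [DecidableEq ι] in
lemma lin_perm_mem_filLT (e : ℤ → A) (he : WittRel k e) {ℓ ℓ' : List ι} (h : ℓ.Perm ℓ')
    (G : LP k (ι → ℤ)) :
    lin (fprod e ℓ) G - lin (fprod e ℓ') G ∈ filLT k e ℓ.length := by
  induction G using LP_induction with
  | h0 => simp
  | hadd x y hx hy =>
    rw [map_add, map_add, add_sub_add_comm]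
    exact Submodule.add_mem _ hx hy
  | hmon μ c =>
    rw [map_smul, map_smul, ← smul_sub, lin_mon, lin_mon]
    apply Submodule.smul_mem
    have := fprod_perm_mem_filLT e he h [] μ
    simpa using this

end Reorder

section Final

variable {l : ℕ}

lemma EE_permL (e : ℤ → A) (σ : Equiv.Perm (Fin l)) (G : LP k (Fin l → ℤ)) :
    EE e (List.finRange l) (permL k σ G) = lin (fprod e ((List.finRange l).map σ)) G := by
  induction G using LP_induction with
  | h0 => simp
  | hadd x y hx hy => rw [map_add, map_add, map_add, hx, hy]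
  | hmon μ c =>
    rw [map_smul, map_smul, map_smul, permL_mon, EE, lin_mon, lin_mon]
    congr 1
    rw [fprod, fprod, List.map_map]
    rfl

lemma finRange_perm (σ : Equiv.Perm (Fin l)) :
    ((List.finRange l).map σ).Perm (List.finRange l) := by
  rw [List.perm_ext_iff_of_nodup ((List.nodup_finRange l).map (Equiv.injective _))
    (List.nodup_finRange l)]
  intro a
  simp only [List.mem_finRange, iff_true, List.mem_map, true_and]
  exact ⟨σ.symm a, by simp⟩

/-- exact symmetry for multiples of `Δ^2` -/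
lemma EE_permL_of_dvd (e : ℤ → A) (he : WittRel k e) (σ : Equiv.Perm (Fin l))
    {G : LP k (Fin l → ℤ)} (hG : vdm k l ^ 2 ∣ G) :
    EE e (List.finRange l) (permL k σ G) = EE e (List.finRange l) G := by
  rw [EE_permL]
  have := lin_perm_of_dvd e he (finRange_perm σ) []
    (by simpa using (List.nodup_finRange l).map (Equiv.injective σ)) G (by
      intro a _ b _ hab
      exact (dd_sq_dvd_vdl (List.mem_finRange a) (List.mem_finRange b) hab).trans hG)
  simpa [EE] using this

lemma EE_symL_of_dvd (e : ℤ → A) (he : WittRel k e)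
    {G : LP k (Fin l → ℤ)} (hG : vdm k l ^ 2 ∣ G) :
    EE e (List.finRange l) (symL k G) = (l.factorial : k) • EE e (List.finRange l) G := by
  rw [symL_apply, map_sum, Finset.sum_congr rfl (fun σ _ => EE_permL_of_dvd e he σ hG),
    Finset.sum_const, Finset.card_univ, Fintype.card_perm, Fintype.card_fin, ← Nat.cast_smul_eq_nsmul k]

/-- symmetry modulo shorter products -/
lemma EE_permL_mem (e : ℤ → A) (he : WittRel k e) (σ : Equiv.Perm (Fin l))
    (G : LP k (Fin l → ℤ)) :
    EE e (List.finRange l) G - EE e (List.finRange l) (permL k σ G) ∈ filLT k e l := by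
  rw [EE_permL]
  have := lin_perm_mem_filLT e he (finRange_perm σ).symm G
  simpa [EE] using this

lemma EE_symL_mem (e : ℤ → A) (he : WittRel k e) (G : LP k (Fin l → ℤ)) :
    (l.factorial : k) • EE e (List.finRange l) G - EE e (List.finRange l) (symL k G) ∈
      filLT k e l := by
  have h1 : (l.factorial : k) • EE e (List.finRange l) G =
      ∑ σ : Equiv.Perm (Fin l), EE e (List.finRange l) G := by
    rw [Finset.sum_const, Finset.card_univ, Fintype.card_perm, Fintype.card_fin,
      ← Nat.cast_smul_eq_nsmul k]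
  rw [h1, symL_apply, map_sum, ← Finset.sum_sub_distrib]
  exact Submodule.sum_mem _ (fun σ _ => EE_permL_mem e he σ G)

lemma filLT_mono (e : ℤ → A) {l l' : ℕ} (h : l ≤ l') : filLT k e l ≤ filLT k e l' := by
  apply Submodule.span_mono
  rintro x ⟨w, hw, rfl⟩
  exact ⟨w, by omega, rfl⟩

lemma filLT_zero (e : ℤ → A) : filLT k e 0 = ⊥ := by
  rw [eq_bot_iff]
  apply Submodule.span_le.mpr
  rintro x ⟨w, hw, rfl⟩
  omega

/-- decomposition of the filtration -/
lemma filLT_succ (e : ℤ → A) {u : A} (hu : u ∈ filLT k e (l + 1)) :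
    ∃ F : LP k (Fin l → ℤ), u - EE e (List.finRange l) F ∈ filLT k e l := by
  induction hu using Submodule.span_induction with
  | mem x hx =>
    obtain ⟨w, hw, rfl⟩ := hx
    rcases Nat.lt_or_ge w.length l with h | h
    · refine ⟨0, ?_⟩
      rw [map_zero, sub_zero]
      exact Submodule.subset_span ⟨w, h, rfl⟩
    · have hl : w.length = l := by omega
      refine ⟨mon (fun i => w.get (i.cast hl.symm)), ?_⟩
      rw [EE, lin_mon, fprod]
      have : (List.finRange l).map (fun i => e (w.get (i.cast hl.symm))) = w.map e := by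
        apply List.ext_getElem
        · simp [hl]
        · intro i h1 h2
          simp
      rw [this, sub_self]
      exact Submodule.zero_mem _
  | zero => exact ⟨0, by simp⟩
  | add x y _ _ hx hy =>
    obtain ⟨F, hF⟩ := hx
    obtain ⟨G, hG⟩ := hy
    refine ⟨F + G, ?_⟩
    rw [map_add, add_sub_add_comm]
    exact Submodule.add_mem _ hF hG
  | smul c x _ hx =>
    obtain ⟨F, hF⟩ := hx
    refine ⟨c • F, ?_⟩
    rw [map_smul, ← smul_sub]
    exact Submodule.smul_mem _ _ hF

lemma EE_mem_filLT (e : ℤ → A) (F : LP k (Fin l → ℤ)) :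
    EE e (List.finRange l) F ∈ filLT k e (l + 1) := by
  induction F using LP_induction with
  | h0 => simp
  | hadd x y hx hy => rw [map_add]; exact Submodule.add_mem _ hx hy
  | hmon μ c =>
    rw [map_smul, EE, lin_mon]
    exact Submodule.smul_mem _ _ (fprod_mem_filLT e _ μ (by simp))

lemma filLT_mul (e : ℤ → A) {x y : A} {l l' : ℕ} (hx : x ∈ filLT k e (l + 1))
    (hy : y ∈ filLT k e (l' + 1)) : x * y ∈ filLT k e (l + l' + 1) := by
  induction hx using Submodule.span_induction with
  | mem x hx =>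
    obtain ⟨w, hw, rfl⟩ := hx
    induction hy using Submodule.span_induction with
    | mem y hy =>
      obtain ⟨w', hw', rfl⟩ := hy
      apply Submodule.subset_span
      refine ⟨w ++ w', ?_, by simp⟩
      rw [List.length_append]; omega
    | zero => simp
    | add x y _ _ hx hy => rw [mul_add]; exact Submodule.add_mem _ hx hy
    | smul c x _ hx => rw [mul_smul_comm]; exact Submodule.smul_mem _ _ hx
  | zero => simp
  | add x y _ _ hx hy => rw [add_mul]; exact Submodule.add_mem _ hx hy
  | smul c x _ hx => rw [smul_mul_assoc]; exact Submodule.smul_mem _ _ hx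

lemma exists_filLT (e : ℤ → A) (hgen : Algebra.adjoin k (Set.range e) = ⊤) (u : A) :
    ∃ l, u ∈ filLT k e (l + 1) := by
  have hv : u ∈ Algebra.adjoin k (Set.range e) := by rw [hgen]; trivial
  induction hv using Algebra.adjoin_induction with
  | mem v hv =>
    obtain ⟨n, rfl⟩ := hv
    exact ⟨1, Submodule.subset_span ⟨[n], by simp, by simp⟩⟩
  | algebraMap c =>
    refine ⟨0, ?_⟩
    rw [Algebra.algebraMap_eq_smul_one]
    exact Submodule.smul_mem _ _ (Submodule.subset_span ⟨[], by simp, by simp⟩)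
  | add v w _ _ hv hw =>
    obtain ⟨l, hl⟩ := hv
    obtain ⟨l', hl'⟩ := hw
    exact ⟨l + l', Submodule.add_mem _ (filLT_mono e (by omega) hl) (filLT_mono e (by omega) hl')⟩
  | mul v w _ _ hv hw =>
    obtain ⟨l, hl⟩ := hv
    obtain ⟨l', hl'⟩ := hw
    exact ⟨l + l', filLT_mul e hl hl'⟩

end Final

end Pool.Agent.H48.Witt
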