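import Pool.Agent.H48.Witt.Defs

/-!
# A highest weight module over the Witt algebra with central charge 0

`V = k[c_0, c_1, ...]`, `f = t + ∑ c_j t^(j+2)`, `θ = t d/dt`, `u_n = f^(n+1) / θ f`,
`δ_n f = θ f * (u_n)_{≥ 1}`, `D_n = δ_n + coeff_0 (u_n)`.
-/

set_option autoImplicit false

universe u

namespace Pool.Agent.H48.Witt

namespace Verma

open HahnSeries

section General

variable {R : Type*} [CommRing R]

/-- Laurent series -/
abbrev Lau (R : Type*) [CommRing R] := HahnSeries ℤ R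

/-- coefficientwise map -/
noncomputable def cmap (Λ : ℤ → R →+ R) : Lau R →+ Lau R where
  toFun x := ⟨fun n => Λ n (x.coeff n), x.isPWO_support.mono (fun n hn => by
    intro h0
    apply hn
    simp only
    rw [h0, map_zero])⟩
  map_zero' := by
    ext n
    simp
  map_add' x y := by
    ext n
    simp

@[simp] theorem cmap_coeff (Λ : ℤ → R →+ R) (x : Lau R) (n : ℤ) :
    (cmap Λ x).coeff n = Λ n (x.coeff n) := rfl

theorem coeff_mul_zero' {x y : Lau R} {n : ℤ}
    (h : ∀ i j : ℤ, i + j = n → x.coeff i * y.coeff j = 0) : (x * y).coeff n = 0 := by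
  rw [HahnSeries.coeff_mul]
  apply Finset.sum_eq_zero
  rintro ⟨i, j⟩ hij
  rw [Finset.mem_antidiagonal] at hij
  exact h i j hij.2.2

theorem coeff_mul_single' {x y : Lau R} {n a b : ℤ} (hab : a + b = n)
    (h : ∀ i j : ℤ, i + j = n → i ≠ a → x.coeff i * y.coeff j = 0) :
    (x * y).coeff n = x.coeff a * y.coeff b := by
  rw [HahnSeries.coeff_mul]
  rw [Finset.sum_eq_single (a, b)]
  · rintro ⟨i, j⟩ hij hne
    rw [Finset.mem_antidiagonal] at hij
    apply h i j hij.2.2
    rintro rfl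
    apply hne
    have := hij.2.2
    simp only at this
    rw [Prod.mk.injEq]
    exact ⟨rfl, by omega⟩
  · intro hn
    rw [Finset.mem_antidiagonal] at hn
    by_cases h1 : x.coeff a = 0
    · simp [h1]
    · by_cases h2 : y.coeff b = 0
      · simp [h2]
      · exact absurd ⟨h1, h2, hab⟩ hn

theorem cmap_mul (Λ : ℤ → R →+ R)
    (h : ∀ (i j : ℤ) (a b : R), Λ (i + j) (a * b) = Λ i a * b + a * Λ j b) (x y : Lau R) :
    cmap Λ (x * y) = x * cmap Λ y + y * cmap Λ x := by
  have hs : ∀ z : Lau R, (cmap Λ z).support ⊆ z.support := by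
    intro z n hn h0
    apply hn
    simp only [cmap_coeff]
    rw [h0, map_zero]
  ext n
  rw [HahnSeries.coeff_add, cmap_coeff, HahnSeries.coeff_mul, map_sum,
    HahnSeries.coeff_mul_right' y.isPWO_support (hs y), mul_comm y (cmap Λ x),
    HahnSeries.coeff_mul_left' x.isPWO_support (hs x), ← Finset.sum_add_distrib]
  apply Finset.sum_congr rfl
  rintro ⟨i, j⟩ hij
  rw [Finset.mem_antidiagonal] at hij
  have h3 : i + j = n := hij.2.2
  simp only [cmap_coeff]
  rw [← h3, h]
  ring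

/-- derivations -/
def IsDer {L : Type*} [CommRing L] (D : L →+ L) : Prop :=
  ∀ a b : L, D (a * b) = a * D b + b * D a

/-- `θ = t d/dt` -/
noncomputable def th : Lau R →+ Lau R := cmap (fun n => zsmulAddGroupHom n)

theorem th_coeff (x : Lau R) (n : ℤ) : (th x).coeff n = n • x.coeff n := rfl

theorem th_isDer : IsDer (th (R := R)) := by
  apply cmap_mul
  intro i j a b
  simp only [zsmulAddGroupHom_apply, zsmul_eq_mul]
  push_cast
  ring

/-- the part of positive degree -/
noncomputable def pos : Lau R →+ Lau R :=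
  cmap (fun n => if 1 ≤ n then AddMonoidHom.id R else 0)

theorem pos_coeff (x : Lau R) (n : ℤ) :
    (pos x).coeff n = if 1 ≤ n then x.coeff n else 0 := by
  unfold pos
  rw [cmap_coeff]
  split_ifs <;> rfl

/-- derivation of the coefficients -/
noncomputable def hat {k : Type*} [Field k] [Algebra k R] (δ : Derivation k R R) :
    Lau R →+ Lau R :=
  cmap (fun _ => (δ : R →ₗ[k] R).toAddMonoidHom)

theorem hat_coeff {k : Type*} [Field k] [Algebra k R] (δ : Derivation k R R)
    (x : Lau R) (n : ℤ) : (hat δ x).coeff n = δ (x.coeff n) := rfl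

theorem hat_isDer {k : Type*} [Field k] [Algebra k R] (δ : Derivation k R R) :
    IsDer (hat δ) := by
  apply cmap_mul
  intro i j a b
  show δ (a * b) = δ a * b + a * δ b
  rw [Derivation.leibniz, smul_eq_mul, smul_eq_mul]
  ring

theorem hat_th {k : Type*} [Field k] [Algebra k R] (δ : Derivation k R R) (x : Lau R) :
    hat δ (th x) = th (hat δ x) := by
  ext n
  rw [hat_coeff, th_coeff, th_coeff, hat_coeff, map_zsmul]

theorem hat_pos {k : Type*} [Field k] [Algebra k R] (δ : Derivation k R R) (x : Lau R) :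
    hat δ (pos x) = pos (hat δ x) := by
  ext n
  rw [hat_coeff, pos_coeff, pos_coeff, hat_coeff]
  split_ifs
  · rfl
  · exact map_zero _

theorem IsDer.one {L : Type*} [CommRing L] {D : L →+ L} (hD : IsDer D) : D 1 = 0 := by
  have := hD 1 1
  rw [one_mul, one_mul] at this
  have h2 : D 1 + 0 = D 1 + D 1 := by rw [add_zero]; exact this
  exact (add_left_cancel h2).symm

/-- derivations and powers of units -/
theorem IsDer.zpow {L : Type*} [CommRing L] {D : L →+ L} (hD : IsDer D) (w : Lˣ) (n : ℤ) :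
    D ((w ^ n : Lˣ) : L) = (n : L) * ((w ^ n : Lˣ) : L) * ((w⁻¹ : Lˣ) : L) * D (w : L) := by
  have hw : ((w⁻¹ : Lˣ) : L) * (w : L) = 1 := w.inv_mul
  have key : ∀ m : ℤ, D ((w ^ (m + 1) : Lˣ) : L) =
      ((w ^ m : Lˣ) : L) * D (w : L) + (w : L) * D ((w ^ m : Lˣ) : L) := by
    intro m
    rw [zpow_add_one, Units.val_mul, hD]
  have key2 : ∀ m : ℤ, ((w ^ (m + 1) : Lˣ) : L) = ((w ^ m : Lˣ) : L) * (w : L) := by
    intro m
    rw [zpow_add_one, Units.val_mul]
  induction n using Int.induction_on with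
  | zero => simp [hD.one]
  | succ m ih =>
    rw [key, ih, key2]
    push_cast
    linear_combination (-(((w ^ (m : ℤ) : Lˣ) : L)) * D (w : L)) * hw
  | pred m ih =>
    have h1 := key (-(m : ℤ) - 1)
    have h2 := key2 (-(m : ℤ) - 1)
    rw [sub_add_cancel] at h1 h2
    rw [ih] at h1
    have h3 : D ((w ^ (-(m : ℤ) - 1) : Lˣ) : L) =
        ((w⁻¹ : Lˣ) : L) * ((w : L) * D ((w ^ (-(m : ℤ) - 1) : Lˣ) : L)) := by
      rw [← mul_assoc, hw, one_mul]
    rw [h3]
    have h4 : (w : L) * D ((w ^ (-(m : ℤ) - 1) : Lˣ) : L) =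
        ((-(m : ℤ) : ℤ) : L) * ((w ^ (-(m : ℤ)) : Lˣ) : L) * ((w⁻¹ : Lˣ) : L) * D (w : L) -
          ((w ^ (-(m : ℤ) - 1) : Lˣ) : L) * D (w : L) := by
      rw [h1]; ring
    rw [h4, h2]
    push_cast
    linear_combination ((-(m : L)) * ((w ^ (-(m : ℤ) - 1) : Lˣ) : L) * ((w⁻¹ : Lˣ) : L) *
      D (w : L)) * hw

theorem IsDer.inv {L : Type*} [CommRing L] {D : L →+ L} (hD : IsDer D) (w : Lˣ) :
    D ((w⁻¹ : Lˣ) : L) = -(((w⁻¹ : Lˣ) : L) * ((w⁻¹ : Lˣ) : L) * D (w : L)) := by
  have := hD.zpow w (-1)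
  rw [zpow_neg_one] at this
  rw [this]
  push_cast
  ring

/-- the bracket of vector fields -/
noncomputable def br (x y : Lau R) : Lau R := x * th y - y * th x

theorem br_coeff_zero {x y : Lau R} {n : ℤ}
    (h : ∀ i j : ℤ, i + j = n → i ≠ j → x.coeff i * y.coeff j = 0) : (br x y).coeff n = 0 := by
  have h1 : (x * th y).coeff n - (y * th x).coeff n = 0 := by
    by_cases hn : ∃ a : ℤ, a + a = n
    · obtain ⟨a, ha⟩ := hn
      rw [coeff_mul_single' ha (x := x) (y := th y), coeff_mul_single' ha (x := y) (y := th x),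
        th_coeff, th_coeff]
      · simp only [zsmul_eq_mul]
        ring
      · intro i j hij hi
        rw [th_coeff, mul_smul_comm, mul_comm, h j i (by omega) (by omega), smul_zero]
      · intro i j hij hi
        rw [th_coeff, mul_smul_comm, h i j (by omega) (by omega), smul_zero]
    · rw [coeff_mul_zero', coeff_mul_zero', sub_zero]
      · intro i j hij
        rw [th_coeff, mul_smul_comm, mul_comm, h j i (by omega)
          (fun h' => hn ⟨i, by omega⟩), smul_zero]
      · intro i j hij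
        rw [th_coeff, mul_smul_comm, h i j (by omega)
          (fun h' => hn ⟨i, by omega⟩), smul_zero]
  unfold br
  rw [HahnSeries.coeff_sub]
  exact h1

end General

section Special

variable (k : Type*) [Field k]

/-- the ring of coefficients -/
abbrev RR := MvPolynomial ℕ k

/-- the universal series `t + ∑ c_j t^(j+2)` -/
noncomputable def ff : Lau (RR k) :=
  HahnSeries.ofSuppBddBelow
    (fun n : ℤ => if n = 1 then (1 : RR k) else if 2 ≤ n then MvPolynomial.X (n - 2).toNat else 0)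
    ⟨1, by
      intro n hn
      by_contra h
      apply hn
      have h1 : n ≠ 1 := by omega
      have h2 : ¬ 2 ≤ n := by omega
      simp [h1, h2]⟩

theorem ff_coeff (n : ℤ) : (ff k).coeff n =
    if n = 1 then (1 : RR k) else if 2 ≤ n then MvPolynomial.X (n - 2).toNat else 0 := rfl

theorem ff_coeff_lt {n : ℤ} (h : n < 1) : (ff k).coeff n = 0 := by
  rw [ff_coeff, if_neg (by omega), if_neg (by omega)]

theorem ff_coeff_one : (ff k).coeff 1 = 1 := by
  rw [ff_coeff, if_pos rfl]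

theorem ff_coeff_ge (j : ℕ) : (ff k).coeff ((j : ℤ) + 2) = MvPolynomial.X j := by
  rw [ff_coeff, if_neg (by omega), if_pos (by omega)]
  congr 1
  omega

variable {k}

theorem isUnit_of_coeff {x : Lau (RR k)} {a : ℤ} (h1 : ∀ i < a, x.coeff i = 0)
    (h2 : x.coeff a = 1) : IsUnit x ∧ x.order = a := by
  have hne : x ≠ 0 := by
    rintro rfl
    simp at h2
  have ho : x.order = a := by
    apply le_antisymm
    · apply HahnSeries.order_le_of_coeff_ne_zero
      rw [h2]
      exact one_ne_zero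
    · by_contra hlt
      push Not at hlt
      exact (HahnSeries.coeff_order_eq_zero.not.2 hne) (h1 _ hlt)
  refine ⟨?_, ho⟩
  rw [HahnSeries.isUnit_iff, HahnSeries.leadingCoeff_eq, ho, h2]
  exact isUnit_one

variable (k)

theorem isUnit_ff : IsUnit (ff k) :=
  (isUnit_of_coeff (fun _ hi => ff_coeff_lt k hi) (ff_coeff_one k)).1

theorem th_ff_lt {n : ℤ} (h : n < 1) : (th (ff k)).coeff n = 0 := by
  rw [th_coeff, ff_coeff_lt k h, smul_zero]

theorem th_ff_one : (th (ff k)).coeff 1 = 1 := by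
  rw [th_coeff, ff_coeff_one, one_smul]

theorem isUnit_th_ff : IsUnit (th (ff k)) :=
  (isUnit_of_coeff (fun _ hi => th_ff_lt k hi) (th_ff_one k)).1

/-- `f` as a unit -/
noncomputable def Fu : (Lau (RR k))ˣ := (isUnit_ff k).unit

/-- `θ f` as a unit -/
noncomputable def Wu : (Lau (RR k))ˣ := (isUnit_th_ff k).unit

theorem Fu_val : ((Fu k : (Lau (RR k))ˣ) : Lau (RR k)) = ff k := rfl

theorem Wu_val : ((Wu k : (Lau (RR k))ˣ) : Lau (RR k)) = th (ff k) := rfl

/-- the pulled back vector fields -/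
noncomputable def uu (n : ℤ) : Lau (RR k) :=
  (((Fu k) ^ (n + 1) : (Lau (RR k))ˣ) : Lau (RR k)) * (((Wu k)⁻¹ : (Lau (RR k))ˣ) : Lau (RR k))

/-- the vector fields on the space of coefficients -/
noncomputable def del (n : ℤ) : Derivation k (RR k) (RR k) :=
  MvPolynomial.mkDerivation k (fun j : ℕ => (th (ff k) * pos (uu k n)).coeff ((j : ℤ) + 2))

theorem hat_ff (n : ℤ) : hat (del k n) (ff k) = th (ff k) * pos (uu k n) := by
  ext1
  funext i
  rw [hat_coeff]
  rcases lt_trichotomy i 1 with hi | hi | hi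
  · rw [ff_coeff_lt k hi, map_zero]
    symm
    apply coeff_mul_zero'
    intro a b hab
    by_cases ha : a < 1
    · rw [th_ff_lt k ha, zero_mul]
    · rw [pos_coeff, if_neg (by omega), mul_zero]
  · subst hi
    rw [ff_coeff_one, Derivation.map_one_eq_zero]
    symm
    apply coeff_mul_zero'
    intro a b hab
    by_cases ha : a < 1
    · rw [th_ff_lt k ha, zero_mul]
    · rw [pos_coeff, if_neg (by omega), mul_zero]
  · obtain ⟨j, rfl⟩ : ∃ j : ℕ, i = (j : ℤ) + 2 := ⟨(i - 2).toNat, by omega⟩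
    rw [ff_coeff_ge, del, MvPolynomial.mkDerivation_X]

theorem th_uu (m : ℤ) : th (uu k m) =
    uu k m * (((m : ℤ) + 1 : ℤ) * (((Fu k)⁻¹ : (Lau (RR k))ˣ) : Lau (RR k)) * th (ff k) -
      (((Wu k)⁻¹ : (Lau (RR k))ˣ) : Lau (RR k)) * th (th (ff k))) := by
  unfold uu
  rw [th_isDer, th_isDer.inv, th_isDer.zpow, Fu_val, Wu_val]
  ring

theorem hat_uu (n m : ℤ) : hat (del k n) (uu k m) = br (pos (uu k n)) (uu k m) := by
  have hD := hat_isDer (del k n)
  have hWW : (((Wu k)⁻¹ : (Lau (RR k))ˣ) : Lau (RR k)) * th (ff k) = 1 := (Wu k).inv_mul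
  have h1 : hat (del k n) (uu k m) =
      uu k m * (((m : ℤ) + 1 : ℤ) * (((Fu k)⁻¹ : (Lau (RR k))ˣ) : Lau (RR k)) *
        hat (del k n) (ff k) -
      (((Wu k)⁻¹ : (Lau (RR k))ˣ) : Lau (RR k)) * hat (del k n) (th (ff k))) := by
    unfold uu
    rw [hD, hD.inv, hD.zpow, Fu_val, Wu_val]
    ring
  rw [h1, hat_th, hat_ff, th_isDer]
  unfold br
  rw [th_uu]
  linear_combination (-(uu k m) * th (pos (uu k n))) * hWW

theorem br_uu (m n : ℤ) : br (uu k m) (uu k n) = (((n - m : ℤ)) : Lau (RR k)) * uu k (m + n) := by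
  have hFF : (((Fu k)⁻¹ : (Lau (RR k))ˣ) : Lau (RR k)) * ff k = 1 := (Fu k).inv_mul
  have hWW : (((Wu k)⁻¹ : (Lau (RR k))ˣ) : Lau (RR k)) * th (ff k) = 1 := (Wu k).inv_mul
  have h2 : (((Fu k) ^ (m + 1) : (Lau (RR k))ˣ) : Lau (RR k)) *
      (((Fu k) ^ (n + 1) : (Lau (RR k))ˣ) : Lau (RR k)) =
      (((Fu k) ^ (m + n + 1) : (Lau (RR k))ˣ) : Lau (RR k)) * ff k := by
    rw [← Units.val_mul, ← zpow_add, ← Fu_val, ← Units.val_mul, ← zpow_add_one]
    congr 2
    ring
  unfold br
  rw [th_uu, th_uu]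
  have h3 : uu k m * uu k n = (((Fu k) ^ (m + n + 1) : (Lau (RR k))ˣ) : Lau (RR k)) * ff k *
      (((Wu k)⁻¹ : (Lau (RR k))ˣ) : Lau (RR k)) * (((Wu k)⁻¹ : (Lau (RR k))ˣ) : Lau (RR k)) := by
    rw [← h2]
    unfold uu
    ring
  have h4 : uu k m * (uu k n * ((((n : ℤ) + 1 : ℤ) : Lau (RR k)) *
        (((Fu k)⁻¹ : (Lau (RR k))ˣ) : Lau (RR k)) * th (ff k) -
      (((Wu k)⁻¹ : (Lau (RR k))ˣ) : Lau (RR k)) * th (th (ff k)))) -
      uu k n * (uu k m * ((((m : ℤ) + 1 : ℤ) : Lau (RR k)) *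
        (((Fu k)⁻¹ : (Lau (RR k))ˣ) : Lau (RR k)) * th (ff k) -
      (((Wu k)⁻¹ : (Lau (RR k))ˣ) : Lau (RR k)) * th (th (ff k)))) =
      ((n - m : ℤ) : Lau (RR k)) * (uu k m * uu k n) *
        ((((Fu k)⁻¹ : (Lau (RR k))ˣ) : Lau (RR k)) * th (ff k)) := by
    push_cast
    ring
  rw [h4, h3]
  unfold uu
  linear_combination (((n - m : ℤ)) : Lau (RR k)) *
    (((Fu k) ^ (m + n + 1) : (Lau (RR k))ˣ) : Lau (RR k)) *
    (((Wu k)⁻¹ : (Lau (RR k))ˣ) : Lau (RR k)) *
    ((((Wu k)⁻¹ : (Lau (RR k))ˣ) : Lau (RR k)) * th (ff k) * hFF + hWW)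

theorem pos_intMul (c : ℤ) (x : Lau (RR k)) :
    pos ((c : Lau (RR k)) * x) = (c : Lau (RR k)) * pos x := by
  rw [← zsmul_eq_mul, map_zsmul, zsmul_eq_mul]

theorem br_pos_pos_coeff (x y : Lau (RR k)) {n : ℤ} (hn : n < 2) :
    (br (pos x) (pos y)).coeff n = 0 := by
  apply br_coeff_zero
  intro i j hij _
  by_cases hi : 1 ≤ i
  · rw [pos_coeff y, if_neg (by omega), mul_zero]
  · rw [pos_coeff x, if_neg (by omega), zero_mul]

theorem pos_br_pos_pos (x y : Lau (RR k)) : pos (br (pos x) (pos y)) = br (pos x) (pos y) := by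
  ext1
  funext n
  rw [pos_coeff]
  split_ifs with h
  · rfl
  · rw [br_pos_pos_coeff k x y (by omega)]

theorem neg_coeff (x : Lau (RR k)) (n : ℤ) :
    (x - pos x).coeff n = if 1 ≤ n then 0 else x.coeff n := by
  rw [HahnSeries.coeff_sub, pos_coeff]
  split_ifs
  · exact sub_self _
  · exact sub_zero _

theorem br_neg_neg_coeff (x y : Lau (RR k)) {n : ℤ} (hn : 0 ≤ n) :
    (br (x - pos x) (y - pos y)).coeff n = 0 := by
  apply br_coeff_zero
  intro i j hij hne
  by_cases hi : 1 ≤ i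
  · rw [neg_coeff k x, if_pos hi, zero_mul]
  · rw [neg_coeff k y, if_pos (by omega), mul_zero]

theorem pos_br_neg_neg (x y : Lau (RR k)) : pos (br (x - pos x) (y - pos y)) = 0 := by
  ext1
  funext n
  rw [pos_coeff]
  split_ifs with h
  · rw [br_neg_neg_coeff k x y (by omega)]
    rfl
  · rfl

theorem br_identity (x y : Lau (RR k)) :
    br (pos x) y + br x (pos y) = br x y + br (pos x) (pos y) -
      br (x - pos x) (y - pos y) := by
  unfold br
  rw [map_sub, map_sub]
  ring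

theorem br_symm (x y : Lau (RR k)) : br x y = -br y x := by
  unfold br
  ring

theorem hat_comm (m n : ℤ) :
    hat (del k m) (hat (del k n) (ff k)) - hat (del k n) (hat (del k m) (ff k)) =
      (((n - m : ℤ)) : Lau (RR k)) * hat (del k (m + n)) (ff k) := by
  rw [hat_ff, hat_ff, hat_ff, hat_isDer, hat_isDer, hat_pos, hat_pos, hat_th, hat_th, hat_ff,
    hat_ff, th_isDer, th_isDer, hat_uu, hat_uu]
  have h1 : pos (br (pos (uu k m)) (uu k n)) - pos (br (pos (uu k n)) (uu k m)) =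
      (((n - m : ℤ)) : Lau (RR k)) * pos (uu k (m + n)) + br (pos (uu k m)) (pos (uu k n)) := by
    rw [← map_sub, br_symm k (pos (uu k n)), sub_neg_eq_add, br_identity, map_sub, map_add,
      pos_br_pos_pos, pos_br_neg_neg, br_uu, pos_intMul, sub_zero]
  have h2 : br (pos (uu k m)) (pos (uu k n)) =
      pos (uu k m) * th (pos (uu k n)) - pos (uu k n) * th (pos (uu k m)) := rfl
  linear_combination (th (ff k)) * h1 + (th (ff k)) * h2

theorem kappa_comm (m n : ℤ) :
    del k m ((uu k n).coeff 0) - del k n ((uu k m).coeff 0) =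
      ((n - m : ℤ) : k) • (uu k (m + n)).coeff 0 := by
  rw [← hat_coeff, ← hat_coeff, hat_uu, hat_uu, ← HahnSeries.coeff_sub,
    br_symm k (pos (uu k n)), sub_neg_eq_add, br_identity, HahnSeries.coeff_sub,
    HahnSeries.coeff_add, br_pos_pos_coeff k _ _ (by norm_num), br_neg_neg_coeff k _ _ le_rfl,
    br_uu, ← zsmul_eq_mul, add_zero, sub_zero, Int.cast_smul_eq_zsmul]
  rfl

theorem del_comm (m n : ℤ) (p : RR k) :
    del k m (del k n p) - del k n (del k m p) = ((n - m : ℤ) : k) • del k (m + n) p := by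
  have h : ⁅del k m, del k n⁆ = ((n - m : ℤ) : k) • del k (m + n) := by
    apply MvPolynomial.derivation_ext
    intro j
    rw [Derivation.commutator_apply, Derivation.smul_apply, ← ff_coeff_ge, ← hat_coeff,
      ← hat_coeff, ← hat_coeff, ← hat_coeff, ← HahnSeries.coeff_sub, hat_comm, ← hat_coeff,
      ← zsmul_eq_mul, Int.cast_smul_eq_zsmul]
    rfl
  rw [← Derivation.commutator_apply, h, Derivation.smul_apply]

/-- the operators -/
noncomputable def DD (n : ℤ) : Module.End k (RR k) :=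
  (del k n : RR k →ₗ[k] RR k) + LinearMap.mulLeft k ((uu k n).coeff 0)

theorem DD_apply (n : ℤ) (p : RR k) : DD k n p = del k n p + (uu k n).coeff 0 * p := rfl

theorem DD_wittRel : WittRel k (DD k) := by
  intro m n
  apply LinearMap.ext
  intro p
  rw [LinearMap.sub_apply, Module.End.mul_apply, Module.End.mul_apply, LinearMap.smul_apply]
  simp only [DD_apply]
  rw [map_add, map_add, Derivation.leibniz, Derivation.leibniz]
  simp only [smul_eq_mul]
  have h1 := del_comm k m n p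
  have h2 := kappa_comm k m n
  rw [smul_add, ← smul_mul_assoc, ← h2, ← h1]
  ring

theorem Fu_npow_coeff (m : ℕ) : (∀ i < (m : ℤ), ((ff k) ^ m).coeff i = 0) ∧
    ((ff k) ^ m).coeff (m : ℤ) = 1 := by
  induction m with
  | zero =>
    constructor
    · intro i hi
      rw [pow_zero, HahnSeries.coeff_one, if_neg]
      push_cast at hi
      omega
    · rw [pow_zero, HahnSeries.coeff_one, if_pos]
      rfl
  | succ m ih =>
    constructor
    · intro i hi
      rw [pow_succ]
      apply coeff_mul_zero'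
      intro a b hab
      push_cast at hi
      by_cases ha : a < m
      · rw [ih.1 a ha, zero_mul]
      · rw [ff_coeff_lt k (by omega), mul_zero]
    · rw [pow_succ, coeff_mul_single' (a := (m : ℤ)) (b := 1) (by push_cast; ring), ih.2,
        ff_coeff_one, one_mul]
      intro a b hab hne
      push_cast at hab
      by_cases ha : a < m
      · rw [ih.1 a ha, zero_mul]
      · rw [ff_coeff_lt k (by omega), mul_zero]

theorem Wu_inv_coeff :
    (∀ i < (-1 : ℤ), (((Wu k)⁻¹ : (Lau (RR k))ˣ) : Lau (RR k)).coeff i = 0) ∧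
    (((Wu k)⁻¹ : (Lau (RR k))ˣ) : Lau (RR k)).coeff (-1) = 1 := by
  have hWW : th (ff k) * (((Wu k)⁻¹ : (Lau (RR k))ˣ) : Lau (RR k)) = 1 := (Wu k).mul_inv
  have h0 : (((Wu k)⁻¹ : (Lau (RR k))ˣ) : Lau (RR k)) ≠ 0 := Units.ne_zero _
  have h1 : th (ff k) ≠ 0 := (isUnit_th_ff k).ne_zero
  have ho : (th (ff k)).order = 1 :=
    (isUnit_of_coeff (fun _ hi => th_ff_lt k hi) (th_ff_one k)).2
  have h2 := HahnSeries.order_mul h1 h0
  rw [hWW, HahnSeries.order_one, ho] at h2
  have h3 : ∀ i < (-1 : ℤ), (((Wu k)⁻¹ : (Lau (RR k))ˣ) : Lau (RR k)).coeff i = 0 := by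
    intro i hi
    apply HahnSeries.coeff_eq_zero_of_lt_order
    omega
  refine ⟨h3, ?_⟩
  have h4 : (th (ff k) * (((Wu k)⁻¹ : (Lau (RR k))ˣ) : Lau (RR k))).coeff 0 =
      (1 : Lau (RR k)).coeff 0 := by rw [hWW]
  rw [coeff_mul_single' (a := 1) (b := -1) (by norm_num), th_ff_one, one_mul,
    HahnSeries.coeff_one, if_pos rfl] at h4
  · exact h4
  · intro a b hab hne
    by_cases ha : a < 1
    · rw [th_ff_lt k ha, zero_mul]
    · rw [h3 b (by omega), mul_zero]

theorem uu_coeff (m : ℕ) : (∀ i < (m : ℤ), (uu k (m : ℤ)).coeff i = 0) ∧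
    (uu k (m : ℤ)).coeff (m : ℤ) = 1 := by
  have h1 : uu k (m : ℤ) = (ff k) ^ (m + 1) * (((Wu k)⁻¹ : (Lau (RR k))ˣ) : Lau (RR k)) := by
    unfold uu
    have : ((m : ℤ) + 1) = ((m + 1 : ℕ) : ℤ) := by push_cast; ring
    rw [this, zpow_natCast, Units.val_pow_eq_pow_val, Fu_val]
  have hF := Fu_npow_coeff k (m + 1)
  have hW := Wu_inv_coeff k
  push_cast at hF
  rw [h1]
  constructor
  · intro i hi
    apply coeff_mul_zero'
    intro a b hab
    by_cases ha : a < m + 1
    · rw [hF.1 a ha, zero_mul]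
    · rw [hW.1 b (by omega), mul_zero]
  · rw [coeff_mul_single' (a := (m : ℤ) + 1) (b := -1) (by ring), hF.2, hW.2, one_mul]
    intro a b hab hne
    by_cases ha : a < m + 1
    · rw [hF.1 a ha, zero_mul]
    · rw [hW.1 b (by omega), mul_zero]

end Special

end Verma

/-- There is a module over the Witt algebra with a nonzero vector killed by all `e_n`, `n > 0`,
and with `e_0 v = v` (highest weight `1`, central charge 0). -/
theorem exists_highest (k : Type u) [Field k] [CharZero k] :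
    ∃ (V : Type u) (_ : AddCommGroup V) (_ : Module k V) (a : ℤ → Module.End k V) (v : V),
      WittRel k a ∧ v ≠ 0 ∧ (∀ n : ℤ, 0 < n → a n v = 0) ∧ a 0 v = v := by
  refine ⟨MvPolynomial ℕ k, inferInstance, inferInstance, Verma.DD k, 1, Verma.DD_wittRel k,
    one_ne_zero, ?_, ?_⟩
  · intro n hn
    obtain ⟨m, rfl⟩ : ∃ m : ℕ, n = (m : ℤ) := ⟨n.toNat, by omega⟩
    rw [Verma.DD_apply, Derivation.map_one_eq_zero, mul_one, zero_add]
    exact (Verma.uu_coeff k m).1 0 hn
  · rw [Verma.DD_apply, Derivation.map_one_eq_zero, mul_one, zero_add]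
    exact (Verma.uu_coeff k 0).2

end Pool.Agent.H48.Witt
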